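import Pool.Agent.ARK.KdS

/-! Part KbA: the closed curves of a state of the knotoid of a tangle. -/

set_option autoImplicit false

namespace Pool.Agent.ARK

open LaurentPolynomial Pool.Agent.ARB Pool.Agent.Helper2

private theorem KbA_step (t : Trace) (s : Slice) : kstep t (upS s) = t.step s := by
  cases s <;> rfl

private theorem KbA_foldl (w : List Slice) : ∀ t : Trace,
    (up w).foldl kstep t = w.foldl Trace.step t := by
  induction w with
  | nil => intro t; rfl
  | cons s w ih =>
    intro t
    change (up w).foldl kstep (kstep t (upS s)) = w.foldl Trace.step (t.step s)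
    rw [KbA_step, ih]

/-- both traces run in parallel -/
private theorem KbA_run (s : List Slice) : ∀ (n m f c d : ℕ) (l : List ℕ), NoCross s →
    Helper2.Ok s n m → n ≤ l.length → Good ⟨f, l ++ [d], c⟩ →
    ∃ (f' c' d' : ℕ) (l' : List ℕ), s.foldl Trace.step ⟨f, l, c⟩ = ⟨f', l', c'⟩ ∧
      s.foldl Trace.step ⟨f, l ++ [d], c⟩ = ⟨f', l' ++ [d'], c'⟩ ∧
      l'.length + n = l.length + m ∧ Good ⟨f', l' ++ [d'], c'⟩ := by
  induction s with
  | nil =>
    intro n m f c d l _ hok hn hg
    have hnm : n = m := hok
    exact ⟨f, c, d, l, rfl, rfl, by omega, hg⟩
  | cons s w ih =>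
    intro n m f c d l hnc hok hn hg
    cases s with
    | cup i u =>
      obtain ⟨hi, hok'⟩ := hok
      have hil : i ≤ l.length := by omega
      have e1 : Trace.step ⟨f, l, c⟩ (.cup i u) =
          ⟨f + 1, l.take i ++ f :: f :: l.drop i, c⟩ := rfl
      have e2 : Trace.step ⟨f, l ++ [d], c⟩ (.cup i u) =
          ⟨f + 1, (l.take i ++ f :: f :: l.drop i) ++ [d], c⟩ := by
        simp [Trace.step, List.take_append_of_le_length hil, List.drop_append_of_le_length hil]
      have hg' := (step_cup ⟨f, l ++ [d], c⟩ hg i u (by simp; omega)).1
      rw [e2] at hg'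
      obtain ⟨f', c', d', l', h1, h2, h3, h4⟩ := ih (n + 2) m (f + 1) c d
        (l.take i ++ f :: f :: l.drop i) hnc hok' (by simp; omega) hg'
      refine ⟨f', c', d', l', ?_, ?_, ?_, h4⟩
      · rw [List.foldl_cons, e1]; exact h1
      · rw [List.foldl_cons, e2]; exact h2
      · have : (l.take i ++ f :: f :: l.drop i).length = l.length + 2 := by
          simp; omega
        omega
    | cap i =>
      obtain ⟨hi, hok'⟩ := hok
      have hil : i ≤ l.length := by omega
      have hlen : (l.drop i).length = l.length - i := List.length_drop
      rcases hd : l.drop i with _ | ⟨a, _ | ⟨b, r⟩⟩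
      · rw [hd] at hlen; simp at hlen; omega
      · rw [hd] at hlen; simp at hlen; omega
      · rw [hd] at hlen
        simp only [List.length_cons] at hlen
        have hd' : (l ++ [d]).drop i = a :: b :: (r ++ [d]) := by
          rw [List.drop_append_of_le_length hil, hd]; rfl
        have ht' : (l ++ [d]).take i = l.take i := List.take_append_of_le_length hil
        have hg' := (step_cap ⟨f, l ++ [d], c⟩ hg i (by simp; omega)).1
        by_cases hab : a = b
        · have e1 : Trace.step ⟨f, l, c⟩ (.cap i) = ⟨f, l.take i ++ r, c + 1⟩ := by
            simp only [Trace.step, hd]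
            rw [if_pos hab]
          have e2 : Trace.step ⟨f, l ++ [d], c⟩ (.cap i) =
              ⟨f, (l.take i ++ r) ++ [d], c + 1⟩ := by
            simp only [Trace.step, hd', ht']
            rw [if_pos hab, List.append_assoc]
          rw [e2] at hg'
          obtain ⟨f', c', d', l', h1, h2, h3, h4⟩ := ih (n - 2) m f (c + 1) d
            (l.take i ++ r) hnc hok' (by simp; omega) hg'
          refine ⟨f', c', d', l', ?_, ?_, ?_, h4⟩
          · rw [List.foldl_cons, e1]; exact h1
          · rw [List.foldl_cons, e2]; exact h2
          · have : (l.take i ++ r).length = l.length - 2 := by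
              simp; omega
            omega
        · have e1 : Trace.step ⟨f, l, c⟩ (.cap i) =
              ⟨f, (l.take i ++ r).map (fun x => if x = b then a else x), c⟩ := by
            simp only [Trace.step, hd]
            rw [if_neg hab]
          have e2 : Trace.step ⟨f, l ++ [d], c⟩ (.cap i) =
              ⟨f, (l.take i ++ r).map (fun x => if x = b then a else x) ++
                [if d = b then a else d], c⟩ := by
            simp only [Trace.step, hd', ht']
            rw [if_neg hab, ← List.append_assoc, List.map_append]
            rfl
          rw [e2] at hg'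
          obtain ⟨f', c', d', l', h1, h2, h3, h4⟩ := ih (n - 2) m f c (if d = b then a else d)
            ((l.take i ++ r).map (fun x => if x = b then a else x)) hnc hok'
            (by simp; omega) hg'
          refine ⟨f', c', d', l', ?_, ?_, ?_, h4⟩
          · rw [List.foldl_cons, e1]; exact h1
          · rw [List.foldl_cons, e2]; exact h2
          · have : ((l.take i ++ r).map (fun x => if x = b then a else x)).length =
                l.length - 2 := by
              simp; omega
            omega
    | cross i p => exact absurd hnc (by simp [NoCross])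

theorem thm_KbA : St_KbA := by
  intro s hnc hok
  have hg0 : Good ⟨2, [0, 1, 1] ++ [0], 0⟩ := by
    refine ⟨?_, ?_⟩
    · intro a ha
      simp at ha
      rcases ha with rfl | rfl | rfl | rfl <;> simp
    · intro a ha
      simp at ha
      rcases ha with rfl | rfl | rfl | rfl <;> decide
  obtain ⟨f', c', d, l', h1, h2, h3, h4⟩ := KbA_run s 2 2 2 0 0 [0, 1, 1] hnc hok (by simp) hg0
  simp only [List.length_cons, List.length_nil] at h3
  rcases l' with _ | ⟨a, _ | ⟨b, _ | ⟨c, _ | ⟨x, r⟩⟩⟩⟩
  · simp at h3
  · simp at h3
  · simp at h3
  · -- the three names
    have hL : curves ([.cup 0 true, .cup 1 true] ++ (s ++ [.cross 0 true, .cap 1, .cap 0])) =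
        (([.cross 0 true, .cap 1, .cap 0] : List Slice).foldl Trace.step
          ⟨f', [a, b, c] ++ [d], c'⟩).closed := by
      unfold curves
      rw [List.foldl_append, List.foldl_append]
      have e : ([.cup 0 true, .cup 1 true] : List Slice).foldl Trace.step ⟨0, [], 0⟩ =
          ⟨2, [0, 1, 1] ++ [0], 0⟩ := rfl
      rw [e, h2]
    have hR : circles ([.born 0 true, .cup 1 true] ++ (up s ++ [.dies 1, .cap 0])) =
        (([.dies 1, .cap 0] : List KSlice).foldl kstep ⟨f', [a, b, c], c'⟩).closed := by
      unfold circles
      rw [List.foldl_append, List.foldl_append]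
      have e : ([.born 0 true, .cup 1 true] : List KSlice).foldl kstep ⟨0, [], 0⟩ =
          ⟨2, [0, 1, 1], 0⟩ := rfl
      rw [e, KbA_foldl, h1]
    rw [hL, hR]
    obtain ⟨-, hcount⟩ := h4
    have ka := hcount a (by simp)
    have kb := hcount b (by simp)
    have kc := hcount c (by simp)
    simp only [List.cons_append, List.nil_append, List.count_cons, List.count_nil, beq_iff_eq]
      at ka kb kc
    by_cases hac : a = c
    · subst hac
      have hba : b ≠ a := by
        rintro rfl
        simp at ka
      have hbd : b = d := by
        by_contra hne
        have h5 : ¬ d = b := fun h => hne h.symm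
        have h6 : ¬ a = b := fun h => hba h.symm
        simp [h5, h6] at kb
      subst hbd
      simp [Trace.step, kstep]
    · by_cases hab : a = b
      · subst hab
        have hcd : c = d := by
          by_contra hne
          have h5 : ¬ d = c := fun h => hne h.symm
          simp [h5, hac] at kc
        subst hcd
        have hca : ¬ c = a := fun h => hac h.symm
        simp [Trace.step, kstep, hac]
      · have hda : d = a := by
          by_contra hne
          have h5 : ¬ b = a := fun h => hab h.symm
          have h6 : ¬ c = a := fun h => hac h.symm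
          simp [h5, h6, hne] at ka
        subst hda
        have hbc : b = c := by
          by_contra hne
          have h5 : ¬ c = b := fun h => hne h.symm
          simp [h5, hab] at kb
        subst hbc
        simp [Trace.step, kstep, hac]
  · simp at h3

end Pool.Agent.ARK
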