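import Pool.Agent.ARK.KdS

/-!
# The bracket vector of a tangle with two lower and two upper ends
-/

set_option autoImplicit false

namespace Pool.Agent.ARK

open LaurentPolynomial Pool.Agent.ARB Pool.Agent.Helper2

private theorem kbb_add (w : List Slice) : ∀ (n m j : ℕ), Helper2.Ok w n m →
    Helper2.Ok w (n + j) (m + j) := by
  induction w with
  | nil =>
    intro n m j h
    have h' : n = m := h
    subst h'
    rfl
  | cons s w ih =>
    intro n m j h
    cases s with
    | cup i u =>
      refine ⟨h.1.trans (Nat.le_add_right _ _), ?_⟩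
      have := ih _ _ j h.2
      rwa [Nat.add_right_comm] at this
    | cap i =>
      refine ⟨h.1.trans (Nat.le_add_right _ _), ?_⟩
      have h1 : i + 2 ≤ n := h.1
      have := ih _ _ j h.2
      have e : n - 2 + j = n + j - 2 := by omega
      rwa [e] at this
    | cross i p => exact ⟨h.1.trans (Nat.le_add_right _ _), ih _ _ j h.2⟩

private theorem kbb_pre {w : List Slice} (h : Helper2.Ok w 2 2) :
    Helper2.Ok ([.cup 0 true, .cup 1 true] ++ w) 0 4 :=
  ⟨le_rfl, by decide, kbb_add w 2 2 2 h⟩

private theorem kbb_key (L : List (ℤ × List Slice)) :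
    (∀ s ∈ L, NoCross s.2 ∧ Helper2.Ok s.2 2 2) → ∃ x y : LaurentPolynomial ℤ,
      ∀ t : List Slice, Helper2.Ok t 4 0 →
        (L.map fun s => (T s.1 : LaurentPolynomial ℤ) * loopVal ^
          (curves ([.cup 0 true, .cup 1 true] ++ (s.2 ++ t)) - 1)).sum =
        x * loopVal ^ (curves (mw false ++ t) - 1) +
          y * loopVal ^ (curves (mw true ++ t) - 1) := by
  induction L with
  | nil =>
    intro _
    exact ⟨0, 0, fun t _ => by simp⟩
  | cons s L ih =>
    intro hL
    obtain ⟨x, y, h1⟩ := ih (fun s hs => hL s (List.mem_cons_of_mem _ hs))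
    obtain ⟨hs1, hs2⟩ := hL s List.mem_cons_self
    have hok := kbb_pre hs2
    obtain ⟨ty, e, hty⟩ := type_of_noCross ([.cup 0 true, .cup 1 true] ++ s.2) hs1 hok
    have hcol := hty colModel (fun i _ => lift eX0 i) col_far
    rw [run_ops_col] at hcol
    have hmw : colOps.run (mw ty) colModel.init =
      colModel.cup (if ty then 1 else 0) (colModel.cup 0 colModel.init) := rfl
    rw [← hmw] at hcol
    have hterm : ∀ t, Helper2.Ok t 4 0 → (T s.1 : LaurentPolynomial ℤ) * loopVal ^
        (curves ([.cup 0 true, .cup 1 true] ++ (s.2 ++ t)) - 1) =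
        T s.1 * loopVal ^ e * loopVal ^ (curves (mw ty ++ t) - 1) := by
      intro t ht
      have hok' : Helper2.Ok (mw ty ++ t) 0 0 := ok_append _ _ _ _ _ (ok_mw ty) ht
      have h3 := curves_pre _ (mw ty) e hcol t (ok_append _ _ _ _ _ hok ht) hok'
      have h4 := curves_pos _ hok' (by simp [mw])
      rw [List.append_assoc] at h3
      rw [h3, Nat.add_sub_assoc h4, pow_add]
      ring
    cases ty with
    | false =>
      refine ⟨T s.1 * loopVal ^ e + x, y, fun t ht => ?_⟩
      rw [List.map_cons, List.sum_cons, hterm t ht, h1 t ht]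
      ring
    | true =>
      refine ⟨x, T s.1 * loopVal ^ e + y, fun t ht => ?_⟩
      rw [List.map_cons, List.sum_cons, hterm t ht, h1 t ht]
      ring

theorem thm_KbB : St_KbB := fun w hw => kbb_key (states w) (states_ok w 2 2 hw)

end Pool.Agent.ARK
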