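import Pool.Agent.ARK.KdS

/-!
# The bracket vector of an arborescent tangle
-/

set_option autoImplicit false

namespace Pool.Agent.ARK

open LaurentPolynomial Pool.Agent.ARB Pool.Agent.Helper2

private theorem kbc_add (w : List Slice) : ∀ (n m j : ℕ), Helper2.Ok w n m →
    Helper2.Ok w (n + j) (m + j) := by
  induction w with
  | nil =>
    intro n m j h
    have h' : n = m := h
    subst h'
    rfl
  | cons s w ih =>
    intro n m j h
    cases s with
    | cup i u =>
      refine ⟨h.1.trans (Nat.le_add_right _ _), ?_⟩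
      have := ih _ _ j h.2
      rwa [Nat.add_right_comm] at this
    | cap i =>
      refine ⟨h.1.trans (Nat.le_add_right _ _), ?_⟩
      have h1 : i + 2 ≤ n := h.1
      have := ih _ _ j h.2
      have e : n - 2 + j = n + j - 2 := by omega
      rwa [e] at this
    | cross i p => exact ⟨h.1.trans (Nat.le_add_right _ _), ih _ _ j h.2⟩

/-- the left side of [KbB] for a diagram `t` without crossings -/
private theorem kbc_lhs (w : List Slice) (i j : ℕ) :
    ((states w).map fun s => (T s.1 : LaurentPolynomial ℤ) * loopVal ^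
      (curves ([.cup 0 true, .cup 1 true] ++ (s.2 ++ [.cap i, .cap j])) - 1)).sum =
    bracket ([.cup 0 true, .cup 1 true] ++ (w ++ [.cap i, .cap j])) := by
  unfold bracket
  rw [List.cons_append, List.cons_append, List.nil_append, states, List.map_map, states,
    List.map_map]
  · have h := sum_states_append w [.cap i, .cap j] fun a l =>
      (T a : LaurentPolynomial ℤ) * loopVal ^
        (curves (.cup 0 true :: .cup 1 true :: l) - 1)
    refine Eq.trans ?_ h.symm
    congr 1
    apply List.map_congr_left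
    intro s _
    simp [states]
  · intro j p; exact Slice.noConfusion
  · intro j p; exact Slice.noConfusion

private theorem kbc_ok {w t : List Slice} (h : Helper2.Ok w 2 2) (ht : Helper2.Ok t 4 0) :
    Helper2.Ok ([.cup 0 true, .cup 1 true] ++ (w ++ t)) 0 0 :=
  ⟨le_rfl, by decide, ok_append w t 4 4 0 (kbc_add w 2 2 2 h) ht⟩

private theorem kbc_ne : (1 : LaurentPolynomial ℤ) - loopVal * loopVal ≠ 0 := by
  intro h
  set φ : LP →+* ZMod 2 := LaurentPolynomial.eval₂ (Int.castRingHom (ZMod 2)) 1 with hφ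
  have h1 : φ loopVal = 0 := by
    rw [loopVal, map_neg, map_add, hφ, LaurentPolynomial.eval₂_T, LaurentPolynomial.eval₂_T]
    decide
  have h2 := congrArg φ h
  rw [map_sub, map_one, map_mul, h1, map_zero] at h2
  revert h2
  decide

private theorem kbc_forget (w t : List Slice) :
    forget ([.cup 0 true, .cup 1 true] ++ (w ++ t)) = pU 0 :: pU 1 :: (forget w ++ forget t) := by
  simp [forget]

theorem thm_KbC (h : St_KbB) : St_KbC := by
  intro w R hw hR
  obtain ⟨x, y, hxy⟩ := h w hw
  obtain ⟨V, _, _, M, hM, hinj⟩ := thm_Vert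
  have ok1 : Helper2.Ok ([.cap 1, .cap 0] : List Slice) 4 0 := by
    simp [Helper2.Ok]
  have ok2 : Helper2.Ok ([.cap 0, .cap 0] : List Slice) 4 0 := by
    simp [Helper2.Ok]
  have ok3 : Helper2.Ok ([.cross 0 true, .cap 1, .cap 0] : List Slice) 4 0 := by
    simp [Helper2.Ok]
  -- the numerator closure
  have b1 : bracket ([.cup 0 true, .cup 1 true] ++ (w ++ [.cap 1, .cap 0])) =
      R.pair.1 + loopVal * R.pair.2 := by
    have e1 := thm_BrRun V M hM _ (by simp) (kbc_ok hw ok1)
    have e2 := (thm_PairRun V M hM).2 R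
    have e3 : forget ([.cup 0 true, .cup 1 true] ++ (w ++ [.cap 1, .cap 0])) = NW R.word := by
      rw [kbc_forget, hR]
      rfl
    rw [e3, e2] at e1
    exact (mul_left_cancel₀ pairRun_loopVal_ne (hinj _ _ e1)).symm
  have b2 : bracket ([.cup 0 true, .cup 1 true] ++ (w ++ [.cap 0, .cap 0])) =
      R.pair.2 + loopVal * R.pair.1 := by
    have e1 := thm_BrRun V M hM _ (by simp) (kbc_ok hw ok2)
    have h0 := M.supp_init
    have h2 : M.Supp 2 (M.cup 0 M.init) := M.supp_cup 0 0 _ (by omega) h0
    have h4 : M.Supp 4 (M.cup 1 (M.cup 0 M.init)) := M.supp_cup 2 1 _ (by omega) h2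
    have e3 : forget ([.cup 0 true, .cup 1 true] ++ (w ++ [.cap 0, .cap 0])) =
        pU 0 :: pU 1 :: (R.word ++ [pN 0, pN 0]) := by
      rw [kbc_forget, hR]
      rfl
    have e : runW M (pU 0 :: pU 1 :: (R.word ++ [pN 0, pN 0])) M.init =
        M.cap 0 (M.cap 0 (runW M R.word (M.cup 1 (M.cup 0 M.init)))) := by
      rw [pairRun_cons, pairRun_cons, pairRun_append]
      rfl
    have h5 := pairRun_word M hM R 0 4 _ (by omega) h4
    rw [sh_zero] at h5
    have h6 : M.cap 0 (M.cup 1 (M.cup 0 M.init)) = M.cup 0 M.init := M.rel3 2 0 _ h2 (by omega)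
    have h8 : M.cap 0 (M.cup 0 (M.cup 0 M.init)) = loopVal • M.cup 0 M.init := by
      rw [← hM.del]
      exact M.rel1 2 0 _ h2 (by omega)
    have h9 : M.cap 0 (M.cup 0 M.init) = loopVal • M.init := by
      rw [← hM.del]
      exact M.rel1 0 0 _ h0 (by omega)
    have e2 : runW M (pU 0 :: pU 1 :: (R.word ++ [pN 0, pN 0])) M.init =
        (loopVal * (R.pair.2 + loopVal * R.pair.1)) • M.init := by
      rw [e, h5, h6]
      simp only [map_add, map_smul]
      rw [h6, h8]
      simp only [map_smul]
      rw [h9]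
      module
    rw [e3, e2] at e1
    exact (mul_left_cancel₀ pairRun_loopVal_ne (hinj _ _ e1)).symm
  have c1 : curves (mw false ++ [.cap 1, .cap 0]) = 1 := by decide
  have c2 : curves (mw true ++ [.cap 1, .cap 0]) = 2 := by decide
  have c3 : curves (mw false ++ [.cap 0, .cap 0]) = 2 := by decide
  have c4 : curves (mw true ++ [.cap 0, .cap 0]) = 1 := by decide
  have c5 : curves (mw false ++ [.cross 0 true, .cap 1, .cap 0]) = 1 := by decide
  have c6 : curves (mw true ++ [.cross 0 true, .cap 1, .cap 0]) = 1 := by decide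
  have g1 := hxy _ ok1
  have g2 := hxy _ ok2
  have g3 := hxy _ ok3
  rw [kbc_lhs, b1, c1, c2] at g1
  rw [kbc_lhs, b2, c3, c4] at g2
  rw [g3, c5, c6]
  simp only [Nat.sub_self, pow_zero, mul_one, show 2 - 1 = 1 from rfl, pow_one] at g1 g2 ⊢
  have hy : (1 - loopVal * loopVal) * y = (1 - loopVal * loopVal) * R.pair.2 := by
    linear_combination loopVal * g1 - g2
  have hy' : y = R.pair.2 := mul_left_cancel₀ kbc_ne hy
  have hx : x = R.pair.1 := by
    rw [hy'] at g1
    linear_combination -g1
  rw [hx, hy']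

end Pool.Agent.ARK
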