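import Pool.Agent.ARK.Alg

/-!
# ARK: the cases modulo the cube of `A ^ 4 + 1`
-/

set_option autoImplicit false

namespace Pool.Agent.ARK

open LaurentPolynomial PowerSeries Pool.Agent.ARB

/-- The evaluated pair is a unit times a rational pair. -/
theorem pair_real (P : EvPt) (S : Arb) : ∃ (k : ℂ) (g0 g1 g2 b0 b1 b2 : ℚ), k ^ 8 = 1 ∧
    coeff 0 (P.ev S.pair.1) = -Complex.I * k * g0 ∧ coeff 1 (P.ev S.pair.1) = -Complex.I * k * g1 ∧
    coeff 2 (P.ev S.pair.1) = -Complex.I * k * g2 ∧
    coeff 0 (P.ev S.pair.2) = k * b0 ∧ coeff 1 (P.ev S.pair.2) = k * b1 ∧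
    coeff 2 (P.ev S.pair.2) = k * b2 ∧
    S.jet.p = g0 ∧ S.jet.q = b0 ∧ S.jet.w = g1 * b0 - g0 * b1 ∧
    S.jet.G = -(2 * g0 * g2 - g1 ^ 2) ∧ S.jet.F = -(g2 * b0 - g1 * b1 + g0 * b2) ∧
    S.jet.H = -(2 * b0 * b2 - b1 ^ 2) := by
  have hI := Complex.I_sq
  have hz := P.hz
  have hzi := P.zi2
  have hz0 := P.z0
  have hz4 := P.z4
  induction S with
  | zero =>
      refine ⟨1, 0, 0, 0, 1, 0, 0, by norm_num, ?_, ?_, ?_, ?_, ?_, ?_, ?_, ?_, ?_, ?_, ?_, ?_⟩ <;>
        simp [Arb.pair, Arb.jet, Jet.zero, PowerSeries.coeff_one]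
  | cross p =>
      cases p with
      | true =>
          refine ⟨P.z, 1, 1 / 4, 1 / 32, 1, -1 / 4, 1 / 32, ?_, ?_, ?_, ?_, ?_, ?_, ?_, ?_, ?_, ?_,
            ?_, ?_, ?_⟩
          · have : P.z ^ 8 = (P.z ^ 4) ^ 2 := by ring
            rw [this, hz4]; norm_num
          · simp only [Arb.pair, if_true]
            rw [P.ev_Tn1, P.b0]
            push_cast
            field_simp
            linear_combination Complex.I * hz + hI
          · simp only [Arb.pair, if_true]
            rw [P.ev_Tn1, P.b1]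
            push_cast
            field_simp
            linear_combination Complex.I * hz + hI
          · simp only [Arb.pair, if_true]
            rw [P.ev_Tn1, P.b2]
            push_cast
            field_simp
            linear_combination Complex.I * hz + hI
          · simp only [Arb.pair, if_true]
            rw [P.ev_T1, P.a0]
            push_cast
            ring
          · simp only [Arb.pair, if_true]
            rw [P.ev_T1, P.a1]
            push_cast
            ring
          · simp only [Arb.pair, if_true]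
            rw [P.ev_T1, P.a2]
            push_cast
            ring
          · simp [Arb.jet, Jet.cross]
          · simp [Arb.jet, Jet.cross]
          · simp [Arb.jet, Jet.cross]; norm_num
          · simp [Arb.jet, Jet.cross]; norm_num
          · simp [Arb.jet, Jet.cross]; norm_num
          · simp [Arb.jet, Jet.cross]; norm_num
      | false =>
          refine ⟨P.z⁻¹, -1, 1 / 4, -1 / 32, 1, 1 / 4, 1 / 32, ?_, ?_, ?_, ?_, ?_, ?_, ?_, ?_, ?_,
            ?_, ?_, ?_⟩
          · have : P.z⁻¹ ^ 8 = (P.z⁻¹ ^ 2) ^ 4 := by ring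
            rw [this, hzi]
            have : (-Complex.I) ^ 4 = (Complex.I ^ 2) ^ 2 := by ring
            rw [this, hI]; norm_num
          · simp only [Arb.pair]
            rw [if_neg (by simp), P.ev_T1, P.a0]
            push_cast
            field_simp
            linear_combination hz
          · simp only [Arb.pair]
            rw [if_neg (by simp), P.ev_T1, P.a1]
            push_cast
            field_simp
            linear_combination -hz
          · simp only [Arb.pair]
            rw [if_neg (by simp), P.ev_T1, P.a2]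
            push_cast
            field_simp
            linear_combination hz
          · simp only [Arb.pair]
            rw [if_neg (by simp), P.ev_Tn1, P.b0]
            push_cast
            ring
          · simp only [Arb.pair]
            rw [if_neg (by simp), P.ev_Tn1, P.b1]
            push_cast
            ring
          · simp only [Arb.pair]
            rw [if_neg (by simp), P.ev_Tn1, P.b2]
            push_cast
            ring
          · simp [Arb.jet, Jet.cross]
          · simp [Arb.jet, Jet.cross]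
          · simp [Arb.jet, Jet.cross]; norm_num
          · simp [Arb.jet, Jet.cross]; norm_num
          · simp [Arb.jet, Jet.cross]; norm_num
  | sum S T ihS ihT =>
      obtain ⟨k, g0, g1, g2, b0, b1, b2, hk, hg0, hg1, hg2, hb0, hb1, hb2, hp, hq, hw, hG, hF,
        hH⟩ := ihS
      obtain ⟨k', g0', g1', g2', b0', b1', b2', hk', hg0', hg1', hg2', hb0', hb1', hb2', hp', hq',
        hw', hG', hF', hH'⟩ := ihT
      refine ⟨k * k', g0 * b0' + b0 * g0', g1 * b0' + g0 * b1' + b1 * g0' + b0 * g1' + g0 * g0',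
        g2 * b0' + g1 * b1' + g0 * b2' + b2 * g0' + b1 * g1' + b0 * g2' + g1 * g0' + g0 * g1',
        b0 * b0', b0 * b1' + b1 * b0', b0 * b2' + b1 * b1' + b2 * b0', ?_, ?_, ?_, ?_, ?_, ?_, ?_,
        ?_, ?_, ?_, ?_, ?_, ?_⟩
      · rw [mul_pow, hk, hk', one_mul]
      · simp only [Arb.pair, map_add, map_mul, bc0, bc1, bc2, hg0, hg1, hg2, hb0, hb1, hb2, hg0',
          hg1', hg2', hb0', hb1', hb2', P.l0, P.l1, P.l2]
        push_cast
        ring
      · simp only [Arb.pair, map_add, map_mul, bc0, bc1, bc2, hg0, hg1, hg2, hb0, hb1, hb2, hg0',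
          hg1', hg2', hb0', hb1', hb2', P.l0, P.l1, P.l2]
        push_cast
        linear_combination Complex.I * k * k' * g0 * g0' * hI
      · simp only [Arb.pair, map_add, map_mul, bc0, bc1, bc2, hg0, hg1, hg2, hb0, hb1, hb2, hg0',
          hg1', hg2', hb0', hb1', hb2', P.l0, P.l1, P.l2]
        push_cast
        linear_combination Complex.I * k * k' * (g1 * g0' + g0 * g1') * hI
      · simp only [Arb.pair, map_add, map_mul, bc0, bc1, bc2, hg0, hg1, hg2, hb0, hb1, hb2, hg0',
          hg1', hg2', hb0', hb1', hb2', P.l0, P.l1, P.l2]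
        push_cast
        ring
      · simp only [Arb.pair, map_add, map_mul, bc0, bc1, bc2, hg0, hg1, hg2, hb0, hb1, hb2, hg0',
          hg1', hg2', hb0', hb1', hb2', P.l0, P.l1, P.l2]
        push_cast
        ring
      · simp only [Arb.pair, map_add, map_mul, bc0, bc1, bc2, hg0, hg1, hg2, hb0, hb1, hb2, hg0',
          hg1', hg2', hb0', hb1', hb2', P.l0, P.l1, P.l2]
        push_cast
        ring
      · simp only [Arb.jet, Jet.sum, Jet.Q]
        rw [hp, hq, hp', hq']
      · simp only [Arb.jet, Jet.sum, Jet.Q]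
        rw [hq, hq']
      · simp only [Arb.jet, Jet.sum, Jet.Q]
        rw [hp, hq, hw, hp', hq', hw']
        ring
      · simp only [Arb.jet, Jet.sum, Jet.Q]
        rw [hp, hq, hw, hG, hF, hH, hp', hq', hw', hG', hF', hH']
        ring
      · simp only [Arb.jet, Jet.sum, Jet.Q]
        rw [hp, hq, hw, hF, hH, hp', hq', hw', hF', hH']
        ring
      · simp only [Arb.jet, Jet.sum, Jet.Q]
        rw [hq, hH, hq', hH']
        ring
  | rot T ih =>
      obtain ⟨k, g0, g1, g2, b0, b1, b2, hk, hg0, hg1, hg2, hb0, hb1, hb2, hp, hq, hw, hG, hF,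
        hH⟩ := ih
      refine ⟨Complex.I * k, b0, b1, b2, -g0, -g1, -g2, ?_, ?_, ?_, ?_, ?_, ?_, ?_, ?_, ?_, ?_,
        ?_, ?_, ?_⟩
      · rw [mul_pow, hk]
        have : Complex.I ^ 8 = (Complex.I ^ 2) ^ 4 := by ring
        rw [this, hI]; norm_num
      · simp only [Arb.pair, hb0]
        linear_combination k * b0 * hI
      · simp only [Arb.pair, hb1]
        linear_combination k * b1 * hI
      · simp only [Arb.pair, hb2]
        linear_combination k * b2 * hI
      · simp only [Arb.pair, hg0]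
        push_cast
        ring
      · simp only [Arb.pair, hg1]
        push_cast
        ring
      · simp only [Arb.pair, hg2]
        push_cast
        ring
      · simp only [Arb.jet, Jet.rot]
        exact hq
      · simp only [Arb.jet, Jet.rot]
        rw [hp]
      · simp only [Arb.jet, Jet.rot]
        rw [hw]
        ring
      · simp only [Arb.jet, Jet.rot]
        rw [hH]
      · simp only [Arb.jet, Jet.rot]
        rw [hF]
        ring
      · simp only [Arb.jet, Jet.rot]
        rw [hG]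
        ring

/-- the jets of the powers of the evaluation point are rational multiples of the constant term -/
theorem zpow_real (P : EvPt) (n : ℤ) :
    coeff 0 ((P.a ^ n : (PowerSeries ℂ)ˣ) : PowerSeries ℂ) ^ 8 = 1 ∧
    coeff 1 ((P.a ^ n : (PowerSeries ℂ)ˣ) : PowerSeries ℂ) =
      ((-n / 4 : ℚ) : ℂ) * coeff 0 ((P.a ^ n : (PowerSeries ℂ)ˣ) : PowerSeries ℂ) ∧
    coeff 2 ((P.a ^ n : (PowerSeries ℂ)ˣ) : PowerSeries ℂ) =
      ((n ^ 2 / 32 : ℚ) : ℂ) * coeff 0 ((P.a ^ n : (PowerSeries ℂ)ˣ) : PowerSeries ℂ) := by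
  have hz4 := P.z4
  have hI := Complex.I_sq
  induction n using Int.induction_on with
  | zero => simp [PowerSeries.coeff_one]
  | succ i ih =>
      rw [zpow_add_one, Units.val_mul, bc0, bc1, bc2, P.a0, P.a1, P.a2]
      obtain ⟨h1, h2, h3⟩ := ih
      refine ⟨?_, ?_, ?_⟩
      · rw [mul_pow, h1, one_mul]
        have : P.z ^ 8 = (P.z ^ 4) ^ 2 := by ring
        rw [this, hz4]; norm_num
      · rw [h2]
        push_cast
        ring
      · rw [h2, h3]
        push_cast
        ring
  | pred i ih =>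
      rw [zpow_sub_one, Units.val_mul, bc0, bc1, bc2, P.b0, P.b1, P.b2]
      obtain ⟨h1, h2, h3⟩ := ih
      refine ⟨?_, ?_, ?_⟩
      · rw [mul_pow, h1, one_mul]
        have : P.z⁻¹ ^ 8 = (P.z⁻¹ ^ 2) ^ 4 := by ring
        rw [this, P.zi2]
        have : (-Complex.I) ^ 4 = (Complex.I ^ 2) ^ 2 := by ring
        rw [this, hI]; norm_num
      · rw [h2]
        push_cast
        ring
      · rw [h2, h3]
        push_cast
        ring

/-- the consequences of `Sim R.jet Jet.zero` -/
theorem num_of_sim (R : Arb) (hs : Sim R.jet Jet.zero) :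
    R.jet.Om = -1 ∧ SameSlope R .zero ∧
      (Arb.sum R infA).pq.1.natAbs = 1 ∧ (Arb.sum R infA).jet.E = 0 := by
  have hpq := jet_pq R
  have hp : R.pq.1 = 0 := by
    have h3 : R.jet.p = 0 := by
      rcases hs with h | h <;> rw [h] <;> simp [Jet.zero, Jet.neg]
    rw [hpq.1] at h3
    exact_mod_cast h3
  have hq : R.pq.2 = 1 ∨ R.pq.2 = -1 := by
    rcases hs with h | h
    · left
      have h3 : R.jet.q = 1 := by rw [h]; rfl
      rw [hpq.2] at h3
      exact_mod_cast h3
    · right
      have h3 : R.jet.q = -1 := by rw [h]; rfl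
      rw [hpq.2] at h3
      exact_mod_cast h3
  have hO : R.jet.Om = -1 := by
    rcases hs with h | h <;> rw [h] <;> norm_num [Jet.zero, Jet.neg, Jet.Om]
  have hE : (R.jet.sum infA.jet).E = 0 := by
    rw [(hs.sumL infA.jet).E]
    norm_num [infA, Arb.jet, Jet.rot, Jet.zero, Jet.sum, Jet.E, Jet.Q]
  refine ⟨hO, ?_, ?_, hE⟩
  · rcases hq with h | h
    · exact Or.inl ⟨hp, h⟩
    · exact Or.inr ⟨by rw [hp]; rfl, h⟩
  · simp only [infA, Arb.pq]
    rw [hp]
    rcases hq with h | h <;> rw [h] <;> rfl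

/-- If `γ + β` is a unit modulo `(A ^ 4 + 1) ^ 3`, then the tangle or its rotation has the
numerical invariants of the tangle 0. -/
theorem sim_cases (R : Arb) (u : LaurentPolynomial ℤ) (hu : IsU u)
    (h : (T 4 + 1 : LaurentPolynomial ℤ) ^ 3 ∣ R.pair.1 + R.pair.2 - u) :
    Sim R.jet Jet.zero ∨ Sim (Arb.rot R).jet Jet.zero := by
  obtain ⟨P⟩ := exEvPt
  obtain ⟨r, hr⟩ := h
  obtain ⟨g, hg⟩ := P.ev_fac
  have e0 : P.ev (R.pair.1 + R.pair.2) = P.ev u + PowerSeries.X ^ 3 * (g ^ 3 * P.ev r) := by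
    have : R.pair.1 + R.pair.2 = u + (T 4 + 1) ^ 3 * r := by
      rw [← hr]; ring
    rw [this, map_add, map_mul, map_pow, hg]
    ring
  have hc : ∀ i : ℕ, i < 3 → coeff i (P.ev R.pair.1) + coeff i (P.ev R.pair.2) =
      coeff i (P.ev u) := by
    intro i hi
    rw [← map_add, ← map_add, e0, map_add, PowerSeries.coeff_X_pow_mul', if_neg (by omega),
      add_zero]
  obtain ⟨k, g0, g1, g2, b0, b1, b2, hk, hg0, hg1, hg2, hb0, hb1, hb2, hp, hq, hw, hG, hF,
    hH⟩ := pair_real P R
  have hk0 : k ≠ 0 := by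
    rintro rfl
    norm_num at hk
  obtain ⟨m, c0, hc0, hu0, hu1, hu2⟩ : ∃ (m : ℚ) (c0 : ℂ), c0 ^ 8 = 1 ∧
      coeff 0 (P.ev u) = c0 ∧ coeff 1 (P.ev u) = (m : ℂ) * c0 ∧
      coeff 2 (P.ev u) = ((m ^ 2 / 2 : ℚ) : ℂ) * c0 := by
    obtain ⟨n, hn | hn⟩ := hu
    · obtain ⟨h1, h2, h3⟩ := zpow_real P n
      refine ⟨-n / 4, _, h1, ?_, ?_, ?_⟩
      · rw [hn, P.ev_T]
      · rw [hn, P.ev_T, h2]
      · rw [hn, P.ev_T, h3]
        push_cast
        ring
    · obtain ⟨h1, h2, h3⟩ := zpow_real P n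
      refine ⟨-n / 4, -coeff 0 ((P.a ^ n : (PowerSeries ℂ)ˣ) : PowerSeries ℂ), ?_, ?_, ?_, ?_⟩
      · rw [← h1]
        ring
      · rw [hn, map_neg, P.ev_T, map_neg]
      · rw [hn, map_neg, P.ev_T, map_neg, h2]
        ring
      · rw [hn, map_neg, P.ev_T, map_neg, h3]
        push_cast
        ring
  have r0 : k * ((b0 : ℂ) - Complex.I * g0) = c0 := by
    rw [← hu0, ← hc 0 (by norm_num), hg0, hb0]
    ring
  have r1 : k * ((b1 : ℂ) - Complex.I * g1) = m * c0 := by
    rw [← hu1, ← hc 1 (by norm_num), hg1, hb1]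
    ring
  have r2 : k * ((b2 : ℂ) - Complex.I * g2) = ((m ^ 2 / 2 : ℚ) : ℂ) * c0 := by
    rw [← hu2, ← hc 2 (by norm_num), hg2, hb2]
    ring
  have s1 : ((b1 : ℂ) - Complex.I * g1) = m * ((b0 : ℂ) - Complex.I * g0) := by
    apply mul_left_cancel₀ hk0
    rw [r1, ← r0]
    ring
  have s2 : ((b2 : ℂ) - Complex.I * g2) = ((m ^ 2 / 2 : ℚ) : ℂ) * ((b0 : ℂ) - Complex.I * g0) := by
    apply mul_left_cancel₀ hk0
    rw [r2, ← r0]
    ring
  have key : ∀ x y x' y' l : ℚ, ((x : ℂ) - Complex.I * y) = (l : ℂ) * ((x' : ℂ) - Complex.I * y') →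
      x = l * x' ∧ y = l * y' := by
    intro x y x' y' l h
    have h1 := congrArg Complex.re h
    have h2 := congrArg Complex.im h
    simp at h1 h2
    constructor
    · exact_mod_cast h1
    · have h3 : (y : ℝ) = l * y' := by linarith
      exact_mod_cast h3
  obtain ⟨b1e, g1e⟩ := key _ _ _ _ _ s1
  obtain ⟨b2e, g2e⟩ := key _ _ _ _ _ s2
  have hnorm : b0 ^ 2 + g0 ^ 2 = 1 := by
    have h1 : ‖k‖ = 1 := by
      have h2 : ‖k‖ ^ 8 = 1 := by rw [← norm_pow, hk, norm_one]
      exact (pow_eq_one_iff_of_nonneg (norm_nonneg _) (by norm_num)).1 h2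
    have h2 : ‖c0‖ = 1 := by
      have h3 : ‖c0‖ ^ 8 = 1 := by rw [← norm_pow, hc0, norm_one]
      exact (pow_eq_one_iff_of_nonneg (norm_nonneg _) (by norm_num)).1 h3
    have h3 : ‖(b0 : ℂ) - Complex.I * g0‖ = 1 := by
      have h4 := congrArg norm r0
      rw [norm_mul, h1, h2, one_mul] at h4
      exact h4
    have h4 : Complex.normSq ((b0 : ℂ) - Complex.I * g0) = 1 := by
      rw [Complex.normSq_eq_norm_sq, h3]
      norm_num
    rw [Complex.normSq_apply] at h4
    simp at h4
    have h5 : ((b0 ^ 2 + g0 ^ 2 : ℚ) : ℝ) = 1 := by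
      push_cast
      linarith
    exact_mod_cast h5
  have hpq := jet_pq R
  have hint : (g0 = 0 ∧ (b0 = 1 ∨ b0 = -1)) ∨ (b0 = 0 ∧ (g0 = 1 ∨ g0 = -1)) := by
    have e1 : g0 = ((R.pq.1 : ℤ) : ℚ) := by rw [← hp, hpq.1]
    have e2 : b0 = ((R.pq.2 : ℤ) : ℚ) := by rw [← hq, hpq.2]
    have e3 : R.pq.2 ^ 2 + R.pq.1 ^ 2 = 1 := by
      rw [e1, e2] at hnorm
      exact_mod_cast hnorm
    have e4 : R.pq.1 = 0 ∨ R.pq.2 = 0 := by
      by_contra hcon
      rw [not_or] at hcon
      have h1 : 1 ≤ R.pq.1 ^ 2 := by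
        have := sq_pos_of_ne_zero hcon.1
        omega
      have h2 : 1 ≤ R.pq.2 ^ 2 := by
        have := sq_pos_of_ne_zero hcon.2
        omega
      omega
    rcases e4 with e4 | e4
    · left
      rw [e4] at e3
      have e5 : (R.pq.2 - 1) * (R.pq.2 + 1) = 0 := by linear_combination e3
      refine ⟨by rw [e1, e4]; norm_num, ?_⟩
      rcases mul_eq_zero.1 e5 with h | h
      · left
        rw [e2]
        exact_mod_cast sub_eq_zero.1 h
      · right
        rw [e2]
        exact_mod_cast eq_neg_of_add_eq_zero_left h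
    · right
      rw [e4] at e3
      have e5 : (R.pq.1 - 1) * (R.pq.1 + 1) = 0 := by linear_combination e3
      refine ⟨by rw [e2, e4]; norm_num, ?_⟩
      rcases mul_eq_zero.1 e5 with h | h
      · left
        rw [e1]
        exact_mod_cast sub_eq_zero.1 h
      · right
        rw [e1]
        exact_mod_cast eq_neg_of_add_eq_zero_left h
  rcases hint with ⟨z, hb⟩ | ⟨z, hb⟩
  · left
    have q1 : g1 = 0 := by rw [g1e, z]; ring
    have q2 : g2 = 0 := by rw [g2e, z]; ring
    have qw : R.jet.w = 0 := by rw [hw, z, q1]; ring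
    have qG : R.jet.G = 0 := by rw [hG, z, q1]; ring
    have qF : R.jet.F = 0 := by rw [hF, z, q1, q2]; ring
    have qH : R.jet.H = 0 := by rw [hH, b1e, b2e]; ring
    rw [← hq] at hb
    rw [← hp] at z
    rcases hb with hb | hb
    · left
      ext <;> simp [Jet.zero, z, hb, qw, qG, qF, qH]
    · right
      ext <;> simp [Jet.zero, Jet.neg, z, hb, qw, qG, qF, qH]
  · right
    have q1 : b1 = 0 := by rw [b1e, z]; ring
    have q2 : b2 = 0 := by rw [b2e, z]; ring
    have qw : R.jet.w = 0 := by rw [hw, z, q1]; ring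
    have qG : R.jet.G = 0 := by rw [hG, g1e, g2e]; ring
    have qF : R.jet.F = 0 := by rw [hF, z, q1, q2]; ring
    have qH : R.jet.H = 0 := by rw [hH, z, q1]; ring
    rw [← hp] at hb
    rw [← hq] at z
    rcases hb with hb | hb
    · right
      ext <;> simp [Arb.jet, Jet.rot, Jet.zero, Jet.neg, z, hb, qw, qG, qF, qH]
    · left
      ext <;> simp [Arb.jet, Jet.rot, Jet.zero, z, hb, qw, qG, qF, qH]

/-- THE CASES modulo `(A ^ 4 + 1) ^ 3` -/
theorem num_cases_dvd (R : Arb) (u : LaurentPolynomial ℤ) (hu : IsU u)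
    (h : (T 4 + 1 : LaurentPolynomial ℤ) ^ 3 ∣ R.pair.1 + R.pair.2 - u) :
    ∃ R' : Arb, (R' = R ∨ R' = .rot R) ∧ R'.jet.Om = -1 ∧ SameSlope R' .zero ∧
      (Arb.sum R' infA).pq.1.natAbs = 1 ∧ (Arb.sum R' infA).jet.E = 0 := by
  rcases sim_cases R u hu h with hs | hs
  · exact ⟨R, Or.inl rfl, num_of_sim R hs⟩
  · exact ⟨.rot R, Or.inr rfl, num_of_sim _ hs⟩

end Pool.Agent.ARK
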