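import Pool.Agent.ARB.SecB
import Pool.Agent.ARB.Rev

/-!
# ARK: Lemma L with isotopies

If `Om = -1` and `E (T + R) = 0` for a rational tangle `R` with `p (T + R) = ± 1`, then `T` is
isotopic to the rational tangle with the same slope. The hidden arcs are removed with the theorem
on long knots.
-/

set_option autoImplicit false

namespace Pool.Agent.ARK

open Pool.Agent Pool.Agent.ARB

/-- long knots with a trivial closure are trivial -/
def St_LongK : Prop := ∀ C : Word, Ok C 2 2 → Iso 0 (DW C) O1 → Iso 0 (pU 0 :: C) [pU 0]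

/-- the same with the cap -/
theorem long_cap (H : St_LongK) (C : Word) (hC : Ok C 2 2) (h : Iso 0 (DW C) O1) :
    Iso 2 (C ++ [pN 0]) [pN 0] := by
  have hD : Ok (DW C) 0 0 := by
    refine ⟨Nat.le_refl 0, ?_⟩
    exact Ok.append (k := 2) hC ⟨Nat.le_refl 2, rfl⟩
  have h1 : Iso 0 (rev (DW C)) (rev O1) := iso_rev hD h
  have e1 : rev (DW C) = DW (rev C) := by
    show rev (C ++ [pN 0]) ++ [pN 0] = _
    rw [rev_append]
    rfl
  rw [e1] at h1
  have h2 := H (rev C) (ok_rev hC) h1
  have h3 : Ok (pU 0 :: rev C) 0 2 := ⟨Nat.le_refl 0, ok_rev hC⟩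
  have h4 := iso_rev h3 h2
  have e2 : rev (pU 0 :: rev C) = C ++ [pN 0] := by
    show rev (rev C) ++ [pN 0] = _
    rw [rev_rev]
  rw [e2] at h4
  exact h4

/-- the two forms of the tangle infinity -/
theorem inf_swap : Iso 2 [pU 2, pN 0] [pN 0, pU 0] :=
  (Iso.of_loc (Loc.swap .N .U 0 0) ⟨Nat.le_refl 2, Nat.le_refl 0, rfl⟩
    ⟨Nat.le_refl 2, by show 0 + 2 ≤ 4; omega, rfl⟩).symm

section

variable (X : Top)

include X

theorem un_inf_DW {B : Arb} (u : Un (.sum B infA)) : Iso 0 (DW B.word) O1 :=
  X.trans _ _ _ _ (X.symm _ _ _ (X.t7 B.word (X.okA B))) u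

theorem long1 (H : St_LongK) {B : Arb} (u : Un (.sum B infA)) :
    Iso 2 (Arb.sum infA B).word infA.word := by
  have h1 := H B.word (X.okA B) (un_inf_DW X u)
  have h2 : Iso 2 ([pN 0] ++ pU 0 :: B.word) ([pN 0] ++ [pU 0]) :=
    Iso.left (k := 0) ⟨Nat.le_refl 2, rfl⟩ h1
  have h3 : Iso 2 ([pU 2, pN 0] ++ B.word) ([pN 0, pU 0] ++ B.word) := Iso.right inf_swap _
  exact (h3.trans h2).trans inf_swap.symm

theorem long2 (H : St_LongK) {B : Arb} (u : Un (.sum B infA)) :
    Iso 2 (Arb.sum B infA).word infA.word := by
  have h1 := long_cap H B.word (X.okA B) (un_inf_DW X u)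
  have h2 : Iso 2 ((B.word ++ [pN 0]) ++ [pU 0]) ([pN 0] ++ [pU 0]) := Iso.right h1 _
  have h3 : Iso 2 (B.word ++ [pU 2, pN 0]) (B.word ++ [pN 0, pU 0]) :=
    Iso.left (X.okA B) inf_swap
  rw [List.append_assoc] at h2
  exact (h3.trans h2).trans inf_swap.symm

/-- LEMMA L -/
theorem main3 (H3 : St_Three) (HL : St_LongK) (T : Arb) : ∀ R W : Arb, Rat R → Rat W →
    (Arb.sum T R).pq.1.natAbs = 1 → (Arb.sum T R).jet.E = 0 → T.jet.Om = -1 → SameSlope T W →
    Iso 2 T.word W.word := by
  induction T with
  | zero =>
      intro R W hR hW _ _ _ s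
      exact rat_iso X ARB.Rat.zero hW s
  | cross p =>
      intro R W hR hW _ _ _ s
      have hI : Rat (.sum .zero (.cross p)) := ARB.Rat.add _ p ARB.Rat.zero
      have i0 : Iso 2 (Arb.cross p).word (Arb.sum .zero (.cross p)).word := X.refl _ _
      have s0 : SameSlope (.cross p) (.sum .zero (.cross p)) := by
        refine Or.inl ⟨?_, ?_⟩ <;> simp [Arb.pq]
      exact X.trans _ _ _ _ i0 (rat_iso X hI hW (s0.symm.trans s))
  | rot T ih =>
      intro R W hR hW h hE hO s
      have h' : (Arb.sum T (.rot R)).pq.1.natAbs = 1 := by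
        rw [← h]
        simp only [Arb.pq]
        congr 1
        ring
      have hE' : (Arb.sum T (.rot R)).jet.E = 0 := by
        rw [← hE]
        exact (Jet.E_rot _ _).symm
      obtain ⟨W', hW', s'⟩ := rat_ex T (cop_of_one h').1
      have l := ih (.rot R) W' (ARB.Rat.rot _ hR) hW' h' hE' (by
        rw [← Jet.Om_rot]; exact hO) s'
      exact X.trans _ _ _ _ (X.congR _ _ l)
        (rat_iso X (ARB.Rat.rot _ hW') hW (s'.rot.symm.trans s))
  | sum A B ihA ihB =>
      intro R W hR hW h hE hO s
      obtain ⟨A', B', Ch, Ch', D⟩ := exDec A B R h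
      obtain ⟨zA, zB, z3, oA, oB⟩ := dec_zero H3 hR D hE
      have uA := (main2 X H3 A).1 Ch D.rC D.pA zA
      have uB := (main2 X H3 B).1 Ch' D.rD D.pB zB
      have cT := (cop_of_one h).1
      have cW := (rat_om W hW).1
      have sAB : SameSlope (.sum A' B') W :=
        ((D.sA.symm.sumL B').trans (D.sB.symm.sumR A)).trans s
      by_cases qA : A.pq.2 = 0
      · have hOA := om_inf cT hO qA
        have lA : Iso 2 A.word A'.word := ihA Ch A' D.rC D.rA D.pA zA hOA D.sA
        have qA' : A'.pq.2 = 0 := by
          have := D.sA.q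
          rw [qA] at this
          simpa using this.symm
        have qW : W.pq.2 = 0 := by
          have := s.q
          simp only [Arb.pq] at this
          rw [qA] at this
          simpa using this.symm
        have q2 : Ch'.pq.2 = 0 := by
          have := D.sD.q
          simp only [Arb.pq] at this
          rw [qA'] at this
          simpa using this.symm
        have u1 := un_inf X D.rD q2 uB
        have i1 : Iso 2 A'.word infA.word := rat_iso X D.rA infA_rat
          (slope_of_q (rat_om _ D.rA).1 (rat_om _ infA_rat).1 qA' rfl)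
        have i2 : Iso 2 infA.word W.word := rat_iso X infA_rat hW
          (slope_of_q (rat_om _ infA_rat).1 cW rfl qW)
        exact X.trans _ _ _ _ (isoL X (X.trans _ _ _ _ lA i1) B)
          (X.trans _ _ _ _ (long1 X HL u1) i2)
      · by_cases qB : B.pq.2 = 0
        · have cT' : IsCoprime (Arb.sum B A).pq.1 (Arb.sum B A).pq.2 := by
            have e1 : (Arb.sum B A).pq.1 = (Arb.sum A B).pq.1 := by
              simp only [Arb.pq]; ring
            have e2 : (Arb.sum B A).pq.2 = (Arb.sum A B).pq.2 := by
              simp only [Arb.pq]; ring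
            rw [e1, e2]
            exact cT
          have hO' : (Arb.sum B A).jet.Om = -1 := by
            have e : (Arb.sum B A).jet = (Arb.sum A B).jet := Jet.sum_comm _ _
            rw [e]
            exact hO
          have hOB := om_inf cT' hO' qB
          have lB : Iso 2 B.word B'.word := ihB Ch' B' D.rD D.rB D.pB zB hOB D.sB
          have qB' : B'.pq.2 = 0 := by
            have := D.sB.q
            rw [qB] at this
            simpa using this.symm
          have qW : W.pq.2 = 0 := by
            have := s.q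
            simp only [Arb.pq] at this
            rw [qB] at this
            simpa using this.symm
          have q1 : Ch.pq.2 = 0 := by
            have := D.sC.q
            simp only [Arb.pq] at this
            rw [qB] at this
            simpa using this.symm
          have u1 := un_inf X D.rC q1 uA
          have i1 : Iso 2 B'.word infA.word := rat_iso X D.rB infA_rat
            (slope_of_q (rat_om _ D.rB).1 (rat_om _ infA_rat).1 qB' rfl)
          have i2 : Iso 2 infA.word W.word := rat_iso X infA_rat hW
            (slope_of_q (rat_om _ infA_rat).1 cW rfl qW)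
          exact X.trans _ _ _ _ (isoR X A (X.trans _ _ _ _ lB i1))
            (X.trans _ _ _ _ (long2 X HL u1) i2)
        · have hq : (Arb.sum A B).pq.2 ≠ 0 := by
            simp only [Arb.pq]
            exact mul_ne_zero qA qB
          obtain ⟨hOA, hOB, hI⟩ := om_sum A B cT hq hO
          have lA : Iso 2 A.word A'.word := ihA Ch A' D.rC D.rA D.pA zA hOA D.sA
          have lB : Iso 2 B.word B'.word := ihB Ch' B' D.rD D.rB D.pB zB hOB D.sB
          have i : Iso 2 (Arb.sum A' B').word W.word := by
            rcases hI with hq' | hq'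
            · rw [D.sA.q] at hq'
              exact (int_iso X D.rB D.rA hq' hW ((SameSlope.sumC B' A').trans sAB)).2
            · rw [D.sB.q] at hq'
              exact (int_iso X D.rA D.rB hq' hW sAB).1
          exact X.trans _ _ _ _ (isoL X lA B) (X.trans _ _ _ _ (isoR X A' lB) i)

end

end Pool.Agent.ARK
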