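import Pool.Agent.ARB.Basic
import Pool.Agent.ARB.Comm
import Pool.Agent.ARB.V.Nat

/-!
# Long knots, part 1: definitions, frozen statements and basic facts

The aim of this block is `St_Long`: if the closed diagram `DW C` is isotopic to the trivial diagram,
then the arc obtained by opening it is isotopic to the trivial arc. `Two a u v j m` is the diagram
`u ++ v`, cut open at the strand `j` between `u` and `v` (there are `m` strands on the right of
it); both ends are pulled to the right, over everything for `a = true` and under everything for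
`a = false`.
-/

set_option autoImplicit false

namespace Pool.Agent.ARK

open Pool.Agent.ARB

/-! ### basic facts on `ov` -/

theorem Nt : St_Nat := thm_Nat thm_Comm

theorem ov_zero (p : Bool) : ov p 0 = [] := rfl

theorem ov_add (p : Bool) (a b : ℕ) : ov p (a + b) = ov p a ++ sh a (ov p b) := by
  unfold ov sh
  rw [List.range_add, List.map_append, List.map_map, List.map_map]
  congr 1
  apply List.map_congr_left
  intro i _
  show pX (a + i) p = pX (i + a) p
  rw [Nat.add_comm]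

theorem ov_one (p : Bool) : ov p 1 = [pX 0 p] := rfl

theorem ov_succ (p : Bool) (n : ℕ) : ov p (n + 1) = ov p n ++ [pX n p] := by
  rw [ov_add]
  show ov p n ++ [pX (0 + n) p] = _
  rw [Nat.zero_add]

theorem ov_cons (p : Bool) (n : ℕ) : ov p (n + 1) = pX 0 p :: sh 1 (ov p n) := by
  rw [Nat.add_comm, ov_add]
  rfl

theorem okX {n i : ℕ} (p : Bool) (h : i + 2 ≤ n) : Ok [pX i p] n n := by
  refine ⟨h, ?_⟩
  show n - 2 + 2 = n
  omega

theorem ok_ov (p : Bool) (n : ℕ) : Ok (ov p n) (n + 1) (n + 1) := by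
  induction n with
  | zero => rfl
  | succ n ih =>
    rw [ov_succ]
    exact (ih.add 1).append (okX p (le_refl _))

/-- the strand at the right end crosses `n` strands to the left; inverse of `ov p n` -/
def vo (p : Bool) : ℕ → Word
  | 0 => []
  | n + 1 => pX n (!p) :: vo p n

theorem ok_vo (p : Bool) (n : ℕ) : Ok (vo p n) (n + 1) (n + 1) := by
  induction n with
  | zero => rfl
  | succ n ih => exact (okX (!p) (le_refl _)).append (ih.add 1)

theorem vo_cons (p : Bool) (n : ℕ) : vo p (n + 1) = sh 1 (vo p n) ++ [pX 0 (!p)] := by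
  induction n with
  | zero => rfl
  | succ n ih =>
    calc vo p (n + 1 + 1) = pX (n + 1) (!p) :: vo p (n + 1) := rfl
      _ = pX (n + 1) (!p) :: (sh 1 (vo p n) ++ [pX 0 (!p)]) := by rw [ih]
      _ = sh 1 (vo p (n + 1)) ++ [pX 0 (!p)] := rfl

theorem ov_vo (p : Bool) (n : ℕ) : Iso (n + 1) (ov p n ++ vo p n) [] := by
  induction n with
  | zero => exact Iso.refl _ _
  | succ n ih =>
    have h1 : ov p (n + 1) ++ vo p (n + 1) = ov p n ++ ([pX n p, pX n (!p)] ++ vo p n) := by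
      rw [ov_succ]
      simp [vo]
    rw [h1]
    have h2 : Iso (n + 1 + 1) (ov p n ++ ([pX n p, pX n (!p)] ++ vo p n)) (ov p n ++ ([] ++ vo p n)) :=
      Iso.mid _ _ ((ok_ov p n).add 1) (Iso.r2 p (le_refl _))
    exact h2.trans (ih.add 1)

theorem vo_ov (p : Bool) (n : ℕ) : Iso (n + 1) (vo p n ++ ov p n) [] := by
  induction n with
  | zero => exact Iso.refl _ _
  | succ n ih =>
    rw [ov_succ]
    have h1 : vo p (n + 1) ++ (ov p n ++ [pX n p]) =
        [pX n (!p)] ++ ((vo p n ++ ov p n) ++ [pX n p]) := by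
      simp [vo]
    rw [h1]
    have h2 : Iso (n + 1 + 1) ([pX n (!p)] ++ ((vo p n ++ ov p n) ++ [pX n p]))
        ([pX n (!p)] ++ ([] ++ [pX n p])) :=
      Iso.mid _ _ (okX (!p) (le_refl _)) (ih.add 1)
    exact h2.trans (Iso.r2' p (le_refl _))

/-- the diagram `u ++ v`, cut open at the strand `j` between `u` and `v`; there are `m` strands on
the right of it, the two ends are pulled to the right over (`a = true`) or under them -/
def Two (a : Bool) (u v : Word) (j m : ℕ) : Word :=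
  u ++ (pU j :: (sh (j + 2) (ov a m) ++ (sh (j + 1) (ov a m) ++ v)))

/-! ### frozen statements -/

/-- [Tail] Proof. `St_Nat` for `Z` and `q`: `sh 1 Z ~ ov q (j + 1) ++ Z` (`j + 2` strands). So the
left side is `~ U (j+1) :: ov q (j+1) ++ Z ++ [N 0]`; `Z ++ [N 0] ~ [N (j+1)] ++ Z` (`St_Comm`),
`ov q (j+1) = ov q j ++ [X j q]`, `[U (j+1)] ++ ov q j ~ ov q j ++ [U (j+1)]` (`St_Comm`), and
`[U (j+1), X j q, N (j+1)] ~ [U j, X (j+1) !q, N (j+1)] ~ [U j, N (j+1)] ~ []` (`slU`, `r1N`, `zig`). -/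
def St_Tail : Prop := ∀ (q : Bool) (Z : Word) (j : ℕ), Ok Z (j + 1) 0 →
  Iso (j + 1) (pU (j + 1) :: (sh 1 Z ++ [pN 0])) (ov q j ++ Z)

/-- [Head] Proof. `St_Nat` for `W` (`0 → j + 1`) and `!q`: `W ~ sh 1 W ++ ov (!q) (j + 1)` (the extra
strand at the right end on the left side, one strand; shift by one: two strands). So the
left side is `U 0 :: sh 1 W ++ [N (j+1)] ~ U 0 :: sh 2 W ++ sh 1 (ov (!q) (j+1)) ++ [N (j+1)]`, on
two strands after `U 0`: the strand `0`, then `W`, then the other end of the cup. By `r1N`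
`sh 1 (ov (!q) (j+1)) ++ [N (j+1)] ~ sh 1 (ov (!q) j) ++ [N (j+1)]`, and by induction on `j` (`slN`)
`ov (!q) j ++ [N j] ~ sh 1 (vo q j) ++ [N 0]` (`[X i p, N (i+1)] ~ [X (i+1) !p, N i]`). Then
`U 0 :: sh 2 W ++ sh 2 (vo q j) ++ [N 1] ~ W ++ vo q j ++ [U 0, N 1]` (`St_Comm`), `zig`. Or reflect the
proof of [Tail]. -/
def St_Head : Prop := ∀ (q : Bool) (W : Word) (j : ℕ), Ok W 0 (j + 1) →
  Iso 0 (pU 0 :: (sh 1 W ++ [pN (j + 1)])) (W ++ vo q j)

/-- [Turn] The strand at the right end is turned around the diagram to the left end. Proof. Let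
`n = j + m + 2`, `Q = pU j :: (sh (j + 2) (ov a m) ++ sh (j + 1) (ov a m))` (`n - 1 → n + 1`). By [Head],
[Tail] with `q = !a` the right side is
`~ u ++ vo (!a) (n-1) ++ sh 1 Q ++ ov (!a) (n-1) ++ v`. By `St_Nat` `sh 1 Q ++ ov (!a) (n+1) ~
ov (!a) (n-1) ++ Q`, so `sh 1 Q ++ ov (!a) (n-1) ~ ov (!a) (n-1) ++ Q ++ [X n a, X (n-1) a]` (`r2`), and
`vo (!a) (n-1) ++ ov (!a) (n-1) ~ []`. What remains is
`u ++ [U j] ++ sh (j+2) (ov a m) ++ sh (j+1) (ov a m) ++ [X n a, X (n-1) a] ++ v`, and `X n a` commutes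
with `sh (j+1) (ov a m)`; `ov_succ`. -/
def St_Turn : Prop := ∀ (a : Bool) (u v : Word) (j m : ℕ), Ok u 0 (j + 1 + (m + 1)) →
  Ok v (j + 1 + (m + 1)) 0 → Iso 0 (Two a u v j (m + 1))
    (Two a (pU 0 :: (sh 1 u ++ [pN (j + m + 2)])) (pU (j + m + 2) :: (sh 1 v ++ [pN 0])) (j + 1) m)

/-- [Flip] Proof. Induction on `m` by [Turn]; for `m = 0` both sides are equal. -/
def St_Flip : Prop := ∀ (u v : Word) (j m : ℕ), Ok u 0 (j + 1 + m) → Ok v (j + 1 + m) 0 →
  Iso 0 (Two true u v j m) (Two false u v j m)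

/-- [PL] The cut is on the left of the piece. Proof. `s = sh (j+1) s0`. By `St_Nat` for `s0`, shifted
by `j + 1` and by `j + 2`, then `swap` with `U j`. -/
def St_PL : Prop := ∀ (a : Bool) (u v : Word) (k : Kind) (i j m m' : ℕ), Ok u 0 (j + 1 + m) →
  j + 1 ≤ i → i + k.inn ≤ j + 1 + m → m' = m - k.inn + k.out →
  Iso 0 (Two a u (⟨k, i⟩ :: v) j m) (Two a (u ++ [⟨k, i⟩]) v j m')

/-- [PR] The cut is on the right of the piece. Proof. `St_Comm` of the piece with
`U j :: sh (j + 2) (ov a m) ++ sh (j + 1) (ov a m)` (this is `sh j` of a word). -/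
def St_PR : Prop := ∀ (a : Bool) (u v : Word) (k : Kind) (i j j' m : ℕ), Ok u 0 (j + 1 + m) →
  i + k.inn ≤ j → j' = j - k.inn + k.out →
  Iso 0 (Two a u (⟨k, i⟩ :: v) j m) (Two a (u ++ [⟨k, i⟩]) v j' m)

/-- [PX1] The cut moves along a strand of a crossing. Proof. By [Flip] it suffices to take `a = q`.
`X j q` commutes with `sh (j+3) (ov q m)` and `sh (j+2) (ov q m)` (use `ov_cons`); local identity on the
two strands `j`, `j + 1`: `[U j, X (j+2) q, X (j+1) q, X j q] ~ [X j q, U j, X (j+1) q, X j q]` (`swap`)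
`~ [X j q, U (j+1), X j !q, X j q]` (`slU`) `~ [X j q, U (j+1)]`. -/
def St_PX1 : Prop := ∀ (a q : Bool) (u v : Word) (j m : ℕ), Ok u 0 (j + 1 + (m + 1)) →
  Ok v (j + 1 + (m + 1)) 0 →
  Iso 0 (Two a u (pX j q :: v) j (m + 1)) (Two a (u ++ [pX j q]) v (j + 1) m)

/-- [PX2] The other strand. Proof. By [Flip] it suffices to take `a = !q`. Local identity:
`[X j q, U j, X (j+2) !q, X (j+1) !q] ~ [U j, X (j+2) q, X (j+2) !q, X (j+1) !q] ~ [U j, X (j+1) !q] ~
[U (j+1), X j q]`. -/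
def St_PX2 : Prop := ∀ (a q : Bool) (u v : Word) (j m : ℕ), Ok u 0 (j + 1 + (m + 1)) →
  Ok v (j + 1 + (m + 1)) 0 →
  Iso 0 (Two a u (pX j q :: v) (j + 1) m) (Two a (u ++ [pX j q]) v j (m + 1))

/-- [PU] The two legs of a cup. Proof. `[U j, U j, X (j+2) a, X (j+1) a] ~ [U j, X j a, U j, X (j+1) a] ~
[U j, U j, X (j+1) a] ~ [U j, U (j+2), X (j+1) a] ~ [U j, U (j+1), X (j+2) !a]` (`swap`, `r1U`, `swap`,
`slU`). Then `[X 0 !a] ++ sh 1 (ov a m) ++ ov a m ~ sh 1 (ov a m) ++ ov a m ++ [X m !a]` (`St_Nat` for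
`ov`, or induction on `m` by `r3`), and `[X n !a] ++ v ~ v ++ [X 0 !a]` (`St_Comm`). -/
def St_PU : Prop := ∀ (a : Bool) (u v : Word) (j m : ℕ), Ok u 0 (j + m) → Ok v (j + 2 + m) 0 →
  Iso 0 (Two a (u ++ [pU j]) v j (m + 1)) (Two a (u ++ [pU j]) v (j + 1) m ++ [pX 0 (!a)])

/-- [PN] The two legs of a cap. Proof. `[U j, X (j+2) a, X (j+1) a, N j] ~
[U j, X (j+2) a, X j !a, N (j+1)] ~ [U j, X j !a, X (j+2) a, N (j+1)] ~ [U j, X (j+2) a, N (j+1)] ~
[X j a, U j, N (j+1)] ~ [X j a]`, and `[U (j+1), N j] ~ []`. Then as in [PU]. -/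
def St_PN : Prop := ∀ (a : Bool) (u v : Word) (j m : ℕ), Ok u 0 (j + 2 + m) → Ok v (j + m) 0 →
  Iso 0 (Two a u (pN j :: v) j (m + 1)) (Two a u (pN j :: v) (j + 1) m ++ [pX 0 a])

/-- the diagram cut open at the strand `j` between `u` and `v` is trivial -/
def Tr (u v : Word) (j : ℕ) : Prop := ∀ m : ℕ, Ok u 0 (j + 1 + m) → Ok v (j + 1 + m) 0 →
  Iso 0 (Two true u v j m) [pU 0]

/-- the diagram is trivial wherever it is cut open -/
def Rd (K : Word) : Prop := ∀ (u v : Word) (j : ℕ), K = u ++ v → Tr u v j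

/-- [Out] cuts in the middle of a local move can be moved to its ends. Proof. From [PX1], [PX2],
[PL], [PR]: a cut can be moved from one side of a crossing to the other; a cut above a piece
`⟨k, i⟩` on a strand `j` which is not one of the outputs `i, ..., i + k.out - 1` can be moved below, a cut
below it on a strand which is not one of the inputs can be moved above; from [PU], [PN] (with `r1U`:
`[U 0, X 0 p] ~ [U 0]`) a cut can be moved from one leg of a cup or a cap to the other. Then all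
cases of `Loc` are easy, compare `St_BL` in `ARB/V/St.lean`. -/
def St_Out : Prop := ∀ (a b s t a₁ a₂ : Word) (k l j : ℕ), (Loc a b ∨ Loc b a) → Ok s 0 k →
  Ok a k l → Ok t l 0 → a = a₁ ++ a₂ → (∀ i, Tr s (a ++ t) i) → (∀ i, Tr (s ++ a) t i) →
  Tr (s ++ a₁) (a₂ ++ t) j

/-- [Rdy] Proof. `Rd O1`: cuts between the cup and the cap: `j = 1`, `m = 0`: `[U 0, U 1, N 0] ~ [U 0]`;
`j = 0`, `m = 1`: [PN]. If `Rd K` and `Step 0 K K'` then `Rd K'`, from [Out], as in `ARB/V/BR.lean`. -/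
def St_Rdy : Prop := ∀ K : Word, Iso 0 K O1 → Rd K

/-- [Long] Proof. [Rdy] for `u = U 0 :: C`, `v = [N 0]`, `j = 1`, `m = 0`; `zag`. Second claim by
reflection (`thm_Rev`). -/
def St_Long : Prop := ∀ C : Word, Ok C 2 2 → Iso 0 (DW C) O1 →
  Iso 0 (pU 0 :: C) [pU 0] ∧ Iso 2 (C ++ [pN 0]) [pN 0]

end Pool.Agent.ARK
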