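import Pool.Agent.ARK.Kd
import Pool.Agent.ARK.Lo
import Pool.Agent.ARK.LemL
import Pool.Agent.ARK.AlgDvd
import Pool.Agent.ARB.Fin

/-!
# The bracket detects the trivial knotoid among arborescent knotoids of height at most one
-/

set_option autoImplicit false

namespace Pool.Agent.ARK

open LaurentPolynomial Pool.Agent Pool.Agent.ARB Pool.Agent.Helper2

/-- the two forms of the tangle infinity -/
theorem rot_inf : Iso 2 (rotW' []) (rotW []) := by
  have h1 : Iso 2 (rotW' (rotW (rotW []))) (rotW' []) := congR' _ _ all_FL.2.1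
  exact h1.symm.trans (thm_RR (rotW []) (ok_rotW rfl)).1

/-- If `γ + β` is a unit modulo `(A ^ 4 + 1) ^ 3` then the tangle is isotopic to `0` or `∞`. -/
theorem tangle_cases (hL : St_Long) (R : Arb) (u : LaurentPolynomial ℤ) (hu : IsU u)
    (h : (T 4 + 1 : LaurentPolynomial ℤ) ^ 3 ∣ R.pair.1 + R.pair.2 - u) :
    Iso 2 R.word [] ∨ Iso 2 R.word (rotW []) := by
  obtain ⟨R', hR, hO, hs, hp, hE⟩ := num_cases_dvd R u hu h
  have h1 : Iso 2 R'.word [] :=
    main3 top three (fun C hC hD => (hL C hC hD).1) R' infA .zero infA_rat ARB.Rat.zero hp hE hO hs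
  rcases hR with rfl | rfl
  · exact Or.inl h1
  · right
    have h2 : Iso 2 (rotW' (rotW R.word)) (rotW' []) := congR' _ _ h1
    exact ((thm_RR R.word (okA R)).1.symm.trans h2).trans rot_inf

/-- the final theorem, from the three blocks -/
theorem thm_Kfin (hL : St_Long) (hB : St_Kbr) (hI : St_Kis) (R : Arb) (D : List KSlice)
    (hD : kforget D = kn R.word)
    (hf : (T 4 + 1 : LaurentPolynomial ℤ) ^ 3 ∣ kPoly D - 1) : KIso 0 (kforget D) triv := by
  have h1 : ∃ v : LaurentPolynomial ℤ, IsU v ∧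
      v = (-1 : LaurentPolynomial ℤ) ^ (kwrithe D).natAbs * T (-3 * kwrithe D) := by
    refine ⟨_, ?_, rfl⟩
    rcases neg_one_pow_eq_or (LaurentPolynomial ℤ) (kwrithe D).natAbs with h | h <;> rw [h]
    · rw [one_mul]
      exact IsU.T _
    · rw [neg_one_mul]
      exact (IsU.T _).neg
  obtain ⟨v, hv, e⟩ := h1
  obtain ⟨w, hw, hwv⟩ := hv.inv
  have h2 : kPoly D = v * kbracket D := by
    rw [e]
    rfl
  have h3 : kbracket D - w = w * (kPoly D - 1) := by
    rw [h2, mul_sub, ← mul_assoc, hwv]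
    ring
  have h4 : (T 4 + 1 : LaurentPolynomial ℤ) ^ 3 ∣ R.pair.1 + R.pair.2 - w := by
    rw [← hB D R hD, h3]
    exact Dvd.dvd.mul_left hf w
  rw [hD]
  rcases tangle_cases hL R w hw h4 with h | h
  · exact (hI.1 _ _ (okA R) h).trans hI.2.1
  · exact (hI.1 _ _ (okA R) h).trans hI.2.2

end Pool.Agent.ARK
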