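import Pool.Agent.ARK.Kd
import Pool.Agent.ARB.Basic

/-!
# The isotopy class of the knotoid of a tangle
-/

set_option autoImplicit false

namespace Pool.Agent.ARK

open LaurentPolynomial Pool.Agent.ARB Pool.Agent.Helper2

private theorem Kis_append {u v : KWord} {n k m : ℕ} (h : KOk u n k) (h' : KOk v k m) :
    KOk (u ++ v) n m := by
  induction u generalizing n with
  | nil =>
    have h1 : n = k := h
    subst h1
    exact h'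
  | cons s u ih => exact ⟨h.1, ih h.2⟩

private theorem Kis_inn (k : Kind) : (Kind.emb k).inn = k.inn := by cases k <;> rfl

private theorem Kis_out (k : Kind) : (Kind.emb k).out = k.out := by cases k <;> rfl

private theorem Kis_emb {w : Word} {n m : ℕ} (h : Ok w n m) : KOk (emb w) n m := by
  induction w generalizing n with
  | nil => exact h
  | cons s w ih =>
    refine ⟨?_, ?_⟩
    · show s.i + (Kind.emb s.k).inn ≤ n
      rw [Kis_inn]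
      exact h.1
    · show KOk (emb w) (n - (Kind.emb s.k).inn + (Kind.emb s.k).out) m
      rw [Kis_inn, Kis_out]
      exact ih h.2

private theorem Kis_emb_append (u v : Word) : emb (u ++ v) = emb u ++ emb v := List.map_append

/-- a local move in a context -/
private theorem Kis_of_loc {n k l : ℕ} {a b : KWord} (u v : KWord) (h : KLoc a b ∨ KLoc b a)
    (hu : KOk u n k) (ha : KOk a k l) (hb : KOk b k l) :
    KIso n (u ++ (a ++ v)) (u ++ (b ++ v)) :=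
  Relation.ReflTransGen.single ⟨u, a, b, v, k, l, rfl, rfl, hu, ha, hb, h⟩

private theorem Kis_step {w w' : Word} (h : Step 2 w w') : KIso 0 (kn w) (kn w') := by
  obtain ⟨u, a, b, v, k, l, rfl, rfl, h3, h4, h5, h6⟩ := h
  have h7 : KOk ([⟨.B, 0⟩, ⟨.U, 1⟩] : KWord) 0 3 := ⟨by decide, by decide, rfl⟩
  have h8 : KOk (([⟨.B, 0⟩, ⟨.U, 1⟩] : KWord) ++ emb u) 0 (k + 1) :=
    Kis_append h7 (Kis_emb (h3.add 1))
  have h9 : KLoc (emb a) (emb b) ∨ KLoc (emb b) (emb a) :=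
    h6.imp (fun h => KLoc.old _ _ h) (fun h => KLoc.old _ _ h)
  have h10 := Kis_of_loc (([⟨.B, 0⟩, ⟨.U, 1⟩] : KWord) ++ emb u) (emb v ++ [⟨.E, 1⟩, ⟨.N, 0⟩]) h9
    h8 (Kis_emb (h4.add 1)) (Kis_emb (h5.add 1))
  have e : ∀ c : Word, kn (u ++ (c ++ v)) = (([⟨.B, 0⟩, ⟨.U, 1⟩] : KWord) ++ emb u) ++
      (emb c ++ (emb v ++ [⟨.E, 1⟩, ⟨.N, 0⟩])) := by
    intro c
    unfold kn
    rw [Kis_emb_append, Kis_emb_append]
    simp only [List.append_assoc, List.cons_append, List.nil_append]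
  rw [e, e]
  exact h10

theorem thm_Kis : St_Kis := by
  refine ⟨fun w w' _ h => ?_, ?_, ?_⟩
  · induction h with
    | refl => exact Relation.ReflTransGen.refl
    | tail _ hs ih => exact Relation.ReflTransGen.trans ih (Kis_step hs)
  · have o1 : KOk ([⟨.B, 0⟩] : KWord) 0 1 := ⟨by decide, rfl⟩
    have s1 : KIso 0 (([⟨.B, 0⟩] : KWord) ++ (([⟨.U, 1⟩, ⟨.E, 1⟩] : KWord) ++ [⟨.N, 0⟩]))
        (([⟨.B, 0⟩] : KWord) ++ (([⟨.B, 1⟩] : KWord) ++ [⟨.N, 0⟩])) :=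
      Kis_of_loc _ _ (Or.inl (KLoc.UE 1)) o1 (l := 2) ⟨by decide, by decide, rfl⟩ ⟨by decide, rfl⟩
    have s2 : KIso 0 (([⟨.B, 0⟩] : KWord) ++ (([⟨.B, 1⟩, ⟨.N, 0⟩] : KWord) ++ []))
        (([⟨.B, 0⟩] : KWord) ++ (([⟨.E, 0⟩] : KWord) ++ [])) :=
      Kis_of_loc _ _ (Or.inl (KLoc.BN' 0)) o1 (l := 0) ⟨by decide, by decide, rfl⟩ ⟨by decide, rfl⟩
    exact Relation.ReflTransGen.trans s1 s2
  · have o1 : KOk ([⟨.B, 0⟩] : KWord) 0 1 := ⟨by decide, rfl⟩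
    have o2 : KOk ([⟨.B, 0⟩, ⟨.U, 1⟩] : KWord) 0 3 := ⟨by decide, by decide, rfl⟩
    have s1 : KIso 0 (([⟨.B, 0⟩, ⟨.U, 1⟩] : KWord) ++
          (([⟨.U, 2⟩, ⟨.N, 0⟩] : KWord) ++ [⟨.E, 1⟩, ⟨.N, 0⟩]))
        (([⟨.B, 0⟩, ⟨.U, 1⟩] : KWord) ++
          (([⟨.N, 0⟩, ⟨.U, 0⟩] : KWord) ++ [⟨.E, 1⟩, ⟨.N, 0⟩])) :=
      Kis_of_loc _ _ (Or.inr (KLoc.swap .N .U 0 0)) o2 (l := 3) ⟨by decide, by decide, rfl⟩
        ⟨by decide, by decide, rfl⟩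
    have s2 : KIso 0 (([⟨.B, 0⟩] : KWord) ++
          (([⟨.U, 1⟩, ⟨.N, 0⟩] : KWord) ++ [⟨.U, 0⟩, ⟨.E, 1⟩, ⟨.N, 0⟩]))
        (([⟨.B, 0⟩] : KWord) ++ (([] : KWord) ++ [⟨.U, 0⟩, ⟨.E, 1⟩, ⟨.N, 0⟩])) :=
      Kis_of_loc _ _ (Or.inl (KLoc.old [pU 1, pN 0] [] (Loc.zag 0))) o1 (l := 1)
        ⟨by decide, by decide, rfl⟩ rfl
    have s3 : KIso 0 (([⟨.B, 0⟩] : KWord) ++ (([⟨.U, 0⟩, ⟨.E, 1⟩] : KWord) ++ [⟨.N, 0⟩]))
        (([⟨.B, 0⟩] : KWord) ++ (([⟨.B, 0⟩] : KWord) ++ [⟨.N, 0⟩])) :=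
      Kis_of_loc _ _ (Or.inl (KLoc.UE' 0)) o1 (l := 2) ⟨by decide, by decide, rfl⟩
        ⟨by decide, rfl⟩
    have s4 : KIso 0 (([⟨.B, 0⟩] : KWord) ++ (([⟨.B, 0⟩, ⟨.N, 0⟩] : KWord) ++ []))
        (([⟨.B, 0⟩] : KWord) ++ (([⟨.E, 0⟩] : KWord) ++ [])) :=
      Kis_of_loc _ _ (Or.inl (KLoc.BN 0)) o1 (l := 0) ⟨by decide, by decide, rfl⟩ ⟨by decide, rfl⟩
    exact Relation.ReflTransGen.trans s1 (Relation.ReflTransGen.trans s2
      (Relation.ReflTransGen.trans s3 s4))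

end Pool.Agent.ARK
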