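import Pool.Agent.ARK.Lo

/-!
# Long knots: cuts in the middle of a local move can be moved to its ends (Out)
-/

set_option autoImplicit false

namespace Pool.Agent.ARK

open Pool.Agent.ARB

variable {u v s t : Word} {k : Kind} {i j j' : ℕ}

private theorem out_L_down (h3 : St_PL) (hj : j + 1 ≤ i) (H : Tr u (⟨k, i⟩ :: v) j) :
    Tr (u ++ [⟨k, i⟩]) v j := by
  intro m hu hv
  obtain ⟨n, hn, hx⟩ := hu.split
  have hx1 : i + k.inn ≤ n := hx.1
  have hx2 : n - k.inn + k.out = j + 1 + m := hx.2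
  obtain ⟨m0, rfl⟩ : ∃ m0, n = j + 1 + m0 := ⟨n - (j + 1), by omega⟩
  have hv' : Ok (⟨k, i⟩ :: v) (j + 1 + m0) 0 := by
    refine ⟨hx1, ?_⟩
    show Ok v (j + 1 + m0 - k.inn + k.out) 0
    rw [hx2]
    exact hv
  have h := h3 true u v k i j m0 m hn hj hx1 (by omega)
  exact h.symm.trans (H m0 hn hv')

private theorem out_L_up (h3 : St_PL) (hj : j + 1 ≤ i) (H : Tr (u ++ [⟨k, i⟩]) v j) :
    Tr u (⟨k, i⟩ :: v) j := by
  intro m hu hv
  have hx1 : i + k.inn ≤ j + 1 + m := hv.1
  have hx2 : Ok v (j + 1 + m - k.inn + k.out) 0 := hv.2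
  have e : j + 1 + m - k.inn + k.out = j + 1 + (m - k.inn + k.out) := by omega
  rw [e] at hx2
  have hu' : Ok (u ++ [⟨k, i⟩]) 0 (j + 1 + (m - k.inn + k.out)) := by
    refine hu.append ⟨hx1, ?_⟩
    show j + 1 + m - k.inn + k.out = _
    exact e
  have h := h3 true u v k i j m (m - k.inn + k.out) hu hj hx1 rfl
  exact h.trans (H _ hu' hx2)

private theorem out_R_down (h4 : St_PR) (hj : i + k.inn ≤ j) (e : j' = j - k.inn + k.out)
    (H : Tr u (⟨k, i⟩ :: v) j) : Tr (u ++ [⟨k, i⟩]) v j' := by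
  intro m hu hv
  obtain ⟨n, hn, hx⟩ := hu.split
  have hx1 : i + k.inn ≤ n := hx.1
  have hx2 : n - k.inn + k.out = j' + 1 + m := hx.2
  obtain rfl : n = j + 1 + m := by omega
  have hv' : Ok (⟨k, i⟩ :: v) (j + 1 + m) 0 := by
    refine ⟨hx1, ?_⟩
    show Ok v (j + 1 + m - k.inn + k.out) 0
    rw [hx2]
    exact hv
  have h := h4 true u v k i j j' m hn hj e
  exact h.symm.trans (H m hn hv')

private theorem out_R_up (h4 : St_PR) (hj : i + k.inn ≤ j) (e : j' = j - k.inn + k.out)
    (H : Tr (u ++ [⟨k, i⟩]) v j') : Tr u (⟨k, i⟩ :: v) j := by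
  intro m hu hv
  have hx1 : i + k.inn ≤ j + 1 + m := hv.1
  have hx2 : Ok v (j + 1 + m - k.inn + k.out) 0 := hv.2
  have e' : j + 1 + m - k.inn + k.out = j' + 1 + m := by omega
  rw [e'] at hx2
  have hu' : Ok (u ++ [⟨k, i⟩]) 0 (j' + 1 + m) := by
    refine hu.append ⟨hx1, ?_⟩
    show j + 1 + m - k.inn + k.out = _
    exact e'
  have h := h4 true u v k i j j' m hu hj e
  exact h.trans (H m hu' hx2)

private theorem out_X_down (h1 : St_PX1) (h2 : St_PX2) (h3 : St_PL) (h4 : St_PR) {q : Bool}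
    (H : ∀ j, Tr u (pX i q :: v) j) (j : ℕ) : Tr (u ++ [pX i q]) v j := by
  rcases Nat.lt_or_ge j i with hj | hj
  · exact out_L_down h3 hj (H j)
  · rcases Nat.lt_or_ge j (i + 2) with hj' | hj'
    · intro m hu hv
      obtain ⟨n, hn, hx⟩ := hu.split
      have hx1 : i + 2 ≤ n := hx.1
      have hx2 : n - 2 + 2 = j + 1 + m := hx.2
      obtain rfl : n = j + 1 + m := by omega
      have hv' : Ok (pX i q :: v) (j + 1 + m) 0 := by
        refine ⟨hx1, ?_⟩
        show Ok v (j + 1 + m - 2 + 2) 0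
        rw [hx2]
        exact hv
      rcases Nat.lt_or_ge i j with h | h
      · obtain rfl : j = i + 1 := by omega
        have e : i + 1 + 1 + m = i + 1 + (m + 1) := by omega
        rw [e] at hn hv hv'
        exact (h1 true q u v i m hn hv).symm.trans (H i (m + 1) hn hv')
      · obtain rfl : j = i := by omega
        obtain ⟨m', rfl⟩ : ∃ m', m = m' + 1 := ⟨m - 1, by omega⟩
        have e : j + 1 + (m' + 1) = j + 1 + 1 + m' := by omega
        have h5 := h2 true q u v j m' hn hv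
        rw [e] at hn hv'
        exact h5.symm.trans (H (j + 1) m' hn hv')
    · exact out_R_down (j := j) h4 hj' (by show j = j - 2 + 2; omega) (H j)

private theorem out_X_up (h1 : St_PX1) (h2 : St_PX2) (h3 : St_PL) (h4 : St_PR) {q : Bool}
    (H : ∀ j, Tr (u ++ [pX i q]) v j) (j : ℕ) : Tr u (pX i q :: v) j := by
  rcases Nat.lt_or_ge j i with hj | hj
  · exact out_L_up h3 hj (H j)
  · rcases Nat.lt_or_ge j (i + 2) with hj' | hj'
    · intro m hu hv
      have hx1 : i + 2 ≤ j + 1 + m := hv.1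
      have hx2 : Ok v (j + 1 + m - 2 + 2) 0 := hv.2
      have e' : j + 1 + m - 2 + 2 = j + 1 + m := by omega
      rw [e'] at hx2
      have hu' : Ok (u ++ [pX i q]) 0 (j + 1 + m) := hu.append (okX q hx1)
      rcases Nat.lt_or_ge i j with h | h
      · obtain rfl : j = i + 1 := by omega
        have e : i + 1 + 1 + m = i + 1 + (m + 1) := by omega
        rw [e] at hu hu' hx2
        exact (h2 true q u v i m hu hx2).trans (H i (m + 1) hu' hx2)
      · obtain rfl : j = i := by omega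
        obtain ⟨m', rfl⟩ : ∃ m', m = m' + 1 := ⟨m - 1, by omega⟩
        have e : j + 1 + (m' + 1) = j + 1 + 1 + m' := by omega
        have h5 := h1 true q u v j m' hu hx2
        rw [e] at hu' hx2
        exact h5.trans (H (j + 1) m' hu' hx2)
    · exact out_R_up (j := j) (j' := j) h4 hj' (by show j = j - 2 + 2; omega) (H j)

/-- from the right leg of a cup to the left one -/
private theorem out_U_left (h5 : St_PU) (H : Tr (u ++ [pU i]) v (i + 1)) :
    Tr (u ++ [pU i]) v i := by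
  intro m hu hv
  obtain ⟨n, hn, hx⟩ := hu.split
  have hx1 : i + 0 ≤ n := hx.1
  have hx2 : n - 0 + 2 = i + 1 + m := hx.2
  obtain ⟨m', rfl⟩ : ∃ m', m = m' + 1 := ⟨m - 1, by omega⟩
  obtain rfl : n = i + m' := by omega
  have e : i + 1 + (m' + 1) = i + 2 + m' := by omega
  have e' : i + 1 + (m' + 1) = i + 1 + 1 + m' := by omega
  have hv1 := hv
  rw [e] at hv1
  rw [e'] at hu hv
  refine (h5 true u v i m' hn hv1).trans ?_
  exact ((H m' hu hv).right _).trans (Iso.r1U (n := 0) (!true) (le_refl 0))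

/-- from the left leg of a cup to the right one -/
private theorem out_U_right (h5 : St_PU) (H : Tr (u ++ [pU i]) v i) :
    Tr (u ++ [pU i]) v (i + 1) := by
  intro m hu hv
  obtain ⟨n, hn, hx⟩ := hu.split
  have hx1 : i + 0 ≤ n := hx.1
  have hx2 : n - 0 + 2 = i + 1 + 1 + m := hx.2
  obtain rfl : n = i + m := by omega
  have e : i + 1 + 1 + m = i + 2 + m := by omega
  have e' : i + 1 + 1 + m = i + 1 + (m + 1) := by omega
  have hv1 := hv
  rw [e] at hv1
  rw [e'] at hu hv
  have h1 := h5 true u v i m hn hv1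
  have h2 : Iso 0 (Two true (u ++ [pU i]) v (i + 1) m ++ [pX 0 (!true)]) [pU 0] :=
    h1.symm.trans (H (m + 1) hu hv)
  have hok : Ok (Two true (u ++ [pU i]) v (i + 1) m ++ [pX 0 (!true)]) 0 2 :=
    h2.symm.ok ⟨le_refl 0, rfl⟩
  obtain ⟨n', ha, hb⟩ := hok.split
  have hb1 : 0 + 2 ≤ n' := hb.1
  have hb2 : n' - 2 + 2 = 2 := hb.2
  obtain rfl : n' = 2 := by omega
  have h3 : Iso 0 (Two true (u ++ [pU i]) v (i + 1) m ++ [pX 0 (!true), pX 0 true])
      (Two true (u ++ [pU i]) v (i + 1) m ++ []) := Iso.left ha (Iso.r2' true (le_refl 2))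
  rw [List.append_nil] at h3
  have h4 : Iso 0 ((Two true (u ++ [pU i]) v (i + 1) m ++ [pX 0 (!true)]) ++ [pX 0 true])
      ([pU 0] ++ [pX 0 true]) := h2.right _
  rw [List.append_assoc] at h4
  exact h3.symm.trans (h4.trans (Iso.r1U (n := 0) true (le_refl 0)))

private theorem out_two {x y : Piece} (mid : ∀ j, Tr (s ++ [x]) (y :: t) j)
    (H1 : ∀ i, Tr s ([x, y] ++ t) i) (H2 : ∀ i, Tr (s ++ [x, y]) t i) {a₁ a₂ : Word}
    (h : [x, y] = a₁ ++ a₂) (j : ℕ) : Tr (s ++ a₁) (a₂ ++ t) j := by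
  rcases a₁ with _ | ⟨x1, _ | ⟨x2, a₁⟩⟩
  · rw [List.nil_append] at h
    subst h
    rw [List.append_nil]
    exact H1 j
  · simp only [List.cons_append, List.nil_append, List.cons.injEq] at h
    obtain ⟨rfl, rfl⟩ := h
    exact mid j
  · simp only [List.cons_append, List.cons.injEq] at h
    obtain ⟨rfl, rfl, h⟩ := h
    obtain ⟨rfl, rfl⟩ := List.append_eq_nil_iff.1 h.symm
    exact H2 j

private theorem out_two' {x y : Piece} (mid : (∀ i, Tr s (x :: (y :: t)) i) →
      (∀ i, Tr ((s ++ [x]) ++ [y]) t i) → ∀ j, Tr (s ++ [x]) (y :: t) j)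
    (H1 : ∀ i, Tr s ([x, y] ++ t) i) (H2 : ∀ i, Tr (s ++ [x, y]) t i) {a₁ a₂ : Word}
    (h : [x, y] = a₁ ++ a₂) (j : ℕ) : Tr (s ++ a₁) (a₂ ++ t) j := by
  refine out_two (mid H1 (fun i => ?_)) H1 H2 h j
  rw [List.append_assoc]
  exact H2 i

private theorem out_one {x : Piece} (H1 : ∀ i, Tr s ([x] ++ t) i)
    (H2 : ∀ i, Tr (s ++ [x]) t i) {a₁ a₂ : Word}
    (h : [x] = a₁ ++ a₂) (j : ℕ) : Tr (s ++ a₁) (a₂ ++ t) j := by
  rcases a₁ with _ | ⟨x1, a₁⟩
  · rw [List.nil_append] at h
    subst h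
    rw [List.append_nil]
    exact H1 j
  · simp only [List.cons_append, List.cons.injEq] at h
    obtain ⟨rfl, h⟩ := h
    obtain ⟨rfl, rfl⟩ := List.append_eq_nil_iff.1 h.symm
    exact H2 j

private theorem out_nil (H1 : ∀ i, Tr s ([] ++ t) i) {a₁ a₂ : Word}
    (h : [] = a₁ ++ a₂) (j : ℕ) : Tr (s ++ a₁) (a₂ ++ t) j := by
  obtain ⟨rfl, rfl⟩ := List.append_eq_nil_iff.1 h.symm
  rw [List.append_nil]
  exact H1 j

private theorem out_three {x y z : Piece} (mid1 : ∀ j, Tr (s ++ [x]) (y :: z :: t) j)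
    (mid2 : ∀ j, Tr (s ++ [x, y]) (z :: t) j)
    (H1 : ∀ i, Tr s ([x, y, z] ++ t) i) (H2 : ∀ i, Tr (s ++ [x, y, z]) t i) {a₁ a₂ : Word}
    (h : [x, y, z] = a₁ ++ a₂) (j : ℕ) : Tr (s ++ a₁) (a₂ ++ t) j := by
  rcases a₁ with _ | ⟨x1, _ | ⟨x2, _ | ⟨x3, a₁⟩⟩⟩
  · rw [List.nil_append] at h
    subst h
    rw [List.append_nil]
    exact H1 j
  · simp only [List.cons_append, List.nil_append, List.cons.injEq] at h
    obtain ⟨rfl, rfl⟩ := h
    exact mid1 j
  · simp only [List.cons_append, List.nil_append, List.cons.injEq] at h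
    obtain ⟨rfl, rfl, rfl⟩ := h
    exact mid2 j
  · simp only [List.cons_append, List.cons.injEq] at h
    obtain ⟨rfl, rfl, rfl, h⟩ := h
    obtain ⟨rfl, rfl⟩ := List.append_eq_nil_iff.1 h.symm
    exact H2 j

/-- three crossings -/
private theorem out_three_X (h1 : St_PX1) (h2 : St_PX2) (h3 : St_PL) (h4 : St_PR)
    {i1 i2 i3 : ℕ} {q1 q2 q3 : Bool} (H1 : ∀ i, Tr s ([pX i1 q1, pX i2 q2, pX i3 q3] ++ t) i)
    (H2 : ∀ i, Tr (s ++ [pX i1 q1, pX i2 q2, pX i3 q3]) t i) {a₁ a₂ : Word}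
    (h : [pX i1 q1, pX i2 q2, pX i3 q3] = a₁ ++ a₂) (j : ℕ) : Tr (s ++ a₁) (a₂ ++ t) j := by
  refine out_three (fun j => ?_) (fun j => ?_) H1 H2 h j
  · exact out_X_down h1 h2 h3 h4 (v := pX i2 q2 :: pX i3 q3 :: t) H1 j
  · refine out_X_up h1 h2 h3 h4 (fun j => ?_) j
    rw [List.append_assoc]
    exact H2 j

theorem thm_Out (h1 : St_PX1) (h2 : St_PX2) (h3 : St_PL) (h4 : St_PR) (h5 : St_PU)
    (_h6 : St_PN) : St_Out := by
  intro a b s t a₁ a₂ k l j hloc _ _ _ ha H1 H2
  have key : ∀ {x y : Word}, Loc x y → (a = x → Tr (s ++ a₁) (a₂ ++ t) j) ∧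
      (a = y → Tr (s ++ a₁) (a₂ ++ t) j) := by
    intro x y hxy
    cases hxy with
    | swap p q i k =>
      refine ⟨?_, ?_⟩
      · rintro rfl
        refine out_two' (fun H1 H2 j => ?_) H1 H2 ha j
        rcases Nat.lt_or_ge j i with hj | hj
        · exact out_L_down h3 hj (H1 j)
        · rcases Nat.lt_or_ge j (i + p.out) with hj' | hj'
          · exact out_L_up h3 (by omega) (H2 j)
          · exact out_R_down (j := j - p.out + p.inn) h4 (by omega) (by omega) (H1 _)
      · rintro rfl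
        refine out_two' (fun H1 H2 j => ?_) H1 H2 ha j
        rcases Nat.lt_or_ge j (i + p.inn + k) with hj | hj
        · exact out_L_down h3 hj (H1 j)
        · rcases Nat.lt_or_ge j (i + p.inn + k + q.out) with hj' | hj'
          · exact out_R_up (j' := j - p.inn + p.out) h4 (by omega) rfl (H2 _)
          · exact out_R_down (j := j - q.out + q.inn) h4 (by omega) (by omega) (H1 _)
    | zig i =>
      refine ⟨?_, ?_⟩
      · rintro rfl
        refine out_two' (fun H1 H2 j => ?_) H1 H2 ha j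
        have hi : Tr (s ++ [pU i]) (pN (i + 1) :: t) i := out_L_up h3 (by omega) (H2 i)
        rcases Nat.lt_or_ge j i with hj | hj
        · exact out_L_down h3 hj (H1 j)
        · rcases Nat.lt_or_ge j (i + 2) with hj' | hj'
          · rcases Nat.lt_or_ge i j with h | h
            · obtain rfl : j = i + 1 := by omega
              exact out_U_right h5 hi
            · obtain rfl : j = i := by omega
              exact hi
          · exact out_R_down (j := j - 2) h4 (by show i + 0 ≤ j - 2; omega)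
              (by show j = j - 2 - 0 + 2; omega) (H1 _)
      · rintro rfl
        exact out_nil H1 ha j
    | zag i =>
      refine ⟨?_, ?_⟩
      · rintro rfl
        refine out_two' (fun H1 H2 j => ?_) H1 H2 ha j
        have hi : Tr (s ++ [pU (i + 1)]) (pN i :: t) (i + 1 + 1) :=
          out_R_up (j' := i) h4 (by show i + 2 ≤ i + 1 + 1; omega)
            (by show i = i + 1 + 1 - 2 + 0; omega) (H2 i)
        rcases Nat.lt_or_ge j (i + 1) with hj | hj
        · exact out_L_down h3 hj (H1 j)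
        · rcases Nat.lt_or_ge j (i + 3) with hj' | hj'
          · rcases Nat.lt_or_ge (i + 1) j with h | h
            · obtain rfl : j = i + 1 + 1 := by omega
              exact hi
            · obtain rfl : j = i + 1 := by omega
              exact out_U_left h5 hi
          · exact out_R_down (j := j - 2) h4 (by show i + 1 + 0 ≤ j - 2; omega)
              (by show j = j - 2 - 0 + 2; omega) (H1 _)
      · rintro rfl
        exact out_nil H1 ha j
    | slU i p =>
      refine ⟨?_, ?_⟩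
      · rintro rfl
        exact out_two' (fun H1 H2 j => out_X_up h1 h2 h3 h4 H2 j) H1 H2 ha j
      · rintro rfl
        exact out_two' (fun H1 H2 j => out_X_up h1 h2 h3 h4 H2 j) H1 H2 ha j
    | slN i p =>
      refine ⟨?_, ?_⟩
      · rintro rfl
        exact out_two' (fun H1 H2 j => out_X_down h1 h2 h3 h4 H1 j) H1 H2 ha j
      · rintro rfl
        exact out_two' (fun H1 H2 j => out_X_down h1 h2 h3 h4 H1 j) H1 H2 ha j
    | r1U i p =>
      refine ⟨?_, ?_⟩
      · rintro rfl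
        exact out_two' (fun H1 H2 j => out_X_up h1 h2 h3 h4 H2 j) H1 H2 ha j
      · rintro rfl
        exact out_one H1 H2 ha j
    | r1N i p =>
      refine ⟨?_, ?_⟩
      · rintro rfl
        exact out_two' (fun H1 H2 j => out_X_down h1 h2 h3 h4 H1 j) H1 H2 ha j
      · rintro rfl
        exact out_one H1 H2 ha j
    | r2 i p =>
      refine ⟨?_, ?_⟩
      · rintro rfl
        exact out_two' (fun H1 H2 j => out_X_down h1 h2 h3 h4 H1 j) H1 H2 ha j
      · rintro rfl
        exact out_nil H1 ha j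
    | r3 i p =>
      refine ⟨?_, ?_⟩
      · rintro rfl
        exact out_three_X h1 h2 h3 h4 H1 H2 ha j
      · rintro rfl
        exact out_three_X h1 h2 h3 h4 H1 H2 ha j
  rcases hloc with h | h
  · exact (key h).1 rfl
  · exact (key h).2 rfl

end Pool.Agent.ARK
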