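import Pool.Agent.ARK.Lo

/-!
# The two legs of a cup and of a cap
-/

set_option autoImplicit false

namespace Pool.Agent.ARK

open Pool.Agent.ARB

namespace PUN

/-- the two strands pulled to the right -/
def Q (a : Bool) (m : ℕ) : Word := sh 1 (ov a m) ++ ov a m

theorem okQ (a : Bool) (m : ℕ) : Ok (Q a m) (m + 2) (m + 2) :=
  ((ok_ov a m).sh 1).append ((ok_ov a m).add 1)

theorem shQ (a : Bool) (m j : ℕ) : sh j (Q a m) = sh (j + 1) (ov a m) ++ sh j (ov a m) := by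
  unfold Q
  rw [sh_append, sh_sh]

theorem qqa (a : Bool) (m : ℕ) : Iso (m + 2) ([pX 0 a] ++ Q a m) (Q a m ++ [pX m a]) := by
  have h := Nt a (ov a m) (m + 1) (m + 1) (ok_ov a m)
  have e1 : ov a (m + 1) ++ ov a m = [pX 0 a] ++ Q a m := by
    rw [ov_cons]
    rfl
  have e2 : sh 1 (ov a m) ++ ov a (m + 1) = Q a m ++ [pX m a] := by
    rw [ov_succ]
    unfold Q
    rw [List.append_assoc]
  rw [e1, e2] at h
  exact h

theorem qqn (a : Bool) (m : ℕ) : Iso (m + 2) ([pX 0 (!a)] ++ Q a m) (Q a m ++ [pX m (!a)]) := by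
  have ok1 : Ok [pX 0 (!a)] (m + 2) (m + 2) := okX (!a) (by omega)
  have h1 : Iso (m + 2) ([pX 0 (!a)] ++ ([pX 0 a] ++ Q a m ++ [pX m (!a)]))
      ([pX 0 (!a)] ++ (Q a m ++ [pX m a] ++ [pX m (!a)])) :=
    Iso.left ok1 ((qqa a m).right _)
  have h2 : Iso (m + 2) ([pX 0 (!a)] ++ ([pX 0 a] ++ Q a m ++ [pX m (!a)]))
      (Q a m ++ [pX m (!a)]) := by
    have h3 : Iso (m + 2) ([pX 0 (!a), pX 0 a] ++ (Q a m ++ [pX m (!a)]))
        ([] ++ (Q a m ++ [pX m (!a)])) := (Iso.r2' a (by omega)).right _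
    have e : [pX 0 (!a)] ++ ([pX 0 a] ++ Q a m ++ [pX m (!a)]) =
        [pX 0 (!a), pX 0 a] ++ (Q a m ++ [pX m (!a)]) := by simp
    rw [e]
    exact h3
  have h4 : Iso (m + 2) ([pX 0 (!a)] ++ (Q a m ++ [pX m a] ++ [pX m (!a)]))
      ([pX 0 (!a)] ++ Q a m) := by
    have h5 : Iso (m + 2) (([pX 0 (!a)] ++ Q a m) ++ [pX m a, pX m (!a)])
        (([pX 0 (!a)] ++ Q a m) ++ []) := Iso.left (ok1.append (okQ a m)) (Iso.r2 a (by omega))
    have e : [pX 0 (!a)] ++ (Q a m ++ [pX m a] ++ [pX m (!a)]) =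
        ([pX 0 (!a)] ++ Q a m) ++ [pX m a, pX m (!a)] := by simp
    rw [e]
    rw [List.append_nil] at h5
    exact h5
  exact (h4.symm.trans h1.symm).trans h2

/-- shifted -/
theorem qqs {a p : Bool} {m : ℕ} (h : Iso (m + 2) ([pX 0 p] ++ Q a m) (Q a m ++ [pX m p]))
    (j n : ℕ) (hn : j + m + 2 ≤ n) :
    Iso n ([pX j p] ++ sh j (Q a m)) (sh j (Q a m) ++ [pX (j + m) p]) := by
  have h1 := (h.sh j).le (show m + 2 + j ≤ n by omega)
  rw [sh_append, sh_append] at h1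
  have e1 : sh j [pX 0 p] = [pX j p] := by
    rw [sh_cons, sh_nil]
    show [pX (0 + j) p] = [pX j p]
    rw [Nat.zero_add]
  have e2 : sh j [pX m p] = [pX (j + m) p] := by
    rw [sh_cons, sh_nil]
    show [pX (m + j) p] = [pX (j + m) p]
    rw [Nat.add_comm]
  rw [e1, e2] at h1
  exact h1

/-- the first crossings of the two strands are moved to the beginning -/
theorem p1 (a : Bool) (j m : ℕ) :
    Iso (j + m + 4) (sh (j + 2) (ov a (m + 1)) ++ sh (j + 1) (ov a (m + 1)))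
      ([pX (j + 2) a, pX (j + 1) a] ++ sh (j + 2) (Q a m)) := by
  have e1 : sh (j + 2) (ov a (m + 1)) = [pX (j + 2) a] ++ sh (j + 3) (ov a m) := by
    rw [ov_cons, sh_cons, sh_sh]
    show pX (0 + (j + 2)) a :: _ = _
    rw [Nat.zero_add]
    rfl
  have e2 : sh (j + 1) (ov a (m + 1)) = [pX (j + 1) a] ++ sh (j + 2) (ov a m) := by
    rw [ov_cons, sh_cons, sh_sh]
    show pX (0 + (j + 1)) a :: _ = _
    rw [Nat.zero_add]
    rfl
  rw [e1, e2, shQ]
  have h1 := thm_Comm [pX (j + 1) a] (ov a m) (j + 3) (j + 3) (m + 1) (m + 1)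
    (okX a (by omega)) (ok_ov a m)
  have h2 : Iso (j + m + 4) (sh (j + 3) (ov a m) ++ [pX (j + 1) a])
      ([pX (j + 1) a] ++ sh (j + 3) (ov a m)) := by
    have e : j + m + 4 = j + 3 + (m + 1) := by omega
    rw [e]
    exact h1.symm
  have h3 := Iso.mid [pX (j + 2) a] (sh (j + 2) (ov a m))
    (okX (n := j + m + 4) (i := j + 2) a (by omega)) h2
  have e3 : [pX (j + 2) a] ++ sh (j + 3) (ov a m) ++ ([pX (j + 1) a] ++ sh (j + 2) (ov a m)) =
      [pX (j + 2) a] ++ ((sh (j + 3) (ov a m) ++ [pX (j + 1) a]) ++ sh (j + 2) (ov a m)) := by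
    simp
  have e4 : [pX (j + 2) a, pX (j + 1) a] ++ (sh (j + 2 + 1) (ov a m) ++ sh (j + 2) (ov a m)) =
      [pX (j + 2) a] ++ (([pX (j + 1) a] ++ sh (j + 3) (ov a m)) ++ sh (j + 2) (ov a m)) := by
    simp
  rw [e3, e4]
  exact h3

/-- a crossing on the right of a word -/
theorem outX (v : Word) (n : ℕ) (p : Bool) (hv : Ok v n 0) :
    Iso (n + 2) ([pX n p] ++ v) (v ++ [pX 0 p]) := by
  have h1 := thm_Comm v [pX 0 p] n 0 2 2 hv (okX p (le_refl _))
  rw [sh_zero] at h1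
  have e1 : sh n [pX 0 p] = [pX n p] := by
    rw [sh_cons, sh_nil]
    show [pX (0 + n) p] = [pX n p]
    rw [Nat.zero_add]
  rw [e1] at h1
  exact h1.symm

theorem okU {n i : ℕ} (h : i ≤ n) : Ok [pU i] n (n + 2) := ⟨h, rfl⟩

theorem okN {n i : ℕ} (h : i + 2 ≤ n + 2) : Ok [pN i] (n + 2) n := ⟨h, rfl⟩

/-- the local identity for a cup -/
theorem locU (a : Bool) (j n : ℕ) (h : j ≤ n) :
    Iso n [pU j, pU j, pX (j + 2) a, pX (j + 1) a] [pU j, pU (j + 1), pX (j + 2) (!a)] := by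
  have h1 : Iso n ([pU j] ++ ([pU j, pX (j + 2) a] ++ [pX (j + 1) a]))
      ([pU j] ++ ([pX j a, pU j] ++ [pX (j + 1) a])) :=
    Iso.mid _ _ (okU h) (Iso.swap (n := n + 2) .U (.X a) j j (le_refl _) (by
      show j + 2 ≤ n + 2
      omega))
  have h2 : Iso n ([pU j, pX j a] ++ [pU j, pX (j + 1) a]) ([pU j] ++ [pU j, pX (j + 1) a]) :=
    (Iso.r1U a h).right _
  have h3 : Iso n ([pU j, pU (j + 2)] ++ [pX (j + 1) a]) ([pU j, pU j] ++ [pX (j + 1) a]) :=
    (Iso.swap (n := n) .U .U j j (le_refl _) h).right _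
  have h4 : Iso n ([pU j] ++ [pU (j + 2), pX (j + 1) a]) ([pU j] ++ [pU (j + 1), pX (j + 2) (!a)]) :=
    Iso.left (okU h) (Iso.slU (n := n + 2) (i := j + 1) a (by omega))
  exact ((Iso.trans h1 h2).trans h3.symm).trans h4

/-- the local identity for a cap -/
theorem locN (a : Bool) (j n : ℕ) (h : j + 2 ≤ n) :
    Iso n [pU j, pX (j + 2) a, pX (j + 1) a, pN j] [pX j a] := by
  have ok1 : Ok [pU j, pX (j + 2) a] n (n + 2) :=
    (okU (show j ≤ n by omega)).append (okX (n := n + 2) (i := j + 2) a (by omega))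
  have h1 : Iso n ([pU j, pX (j + 2) a] ++ [pX j (!a), pN (j + 1)])
      ([pU j, pX (j + 2) a] ++ [pX (j + 1) (!!a), pN j]) :=
    Iso.left ok1 (Iso.slN (n := n + 2) (i := j) (!a) (by omega))
  rw [Bool.not_not] at h1
  have h2 : Iso n ([pU j] ++ ([pX j (!a), pX (j + 2) a] ++ [pN (j + 1)]))
      ([pU j] ++ ([pX (j + 2) a, pX j (!a)] ++ [pN (j + 1)])) :=
    Iso.mid _ _ (okU (show j ≤ n by omega))
      (Iso.swap (n := n + 2) (.X (!a)) (.X a) j (j + 2) (by show j + 2 ≤ j + 2; omega) (by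
        show j + 2 + 2 ≤ n + 2
        omega))
  have h3 : Iso n ([pU j, pX j (!a)] ++ [pX (j + 2) a, pN (j + 1)])
      ([pU j] ++ [pX (j + 2) a, pN (j + 1)]) := (Iso.r1U (!a) (show j ≤ n by omega)).right _
  have h4 : Iso n ([pU j, pX (j + 2) a] ++ [pN (j + 1)]) ([pX j a, pU j] ++ [pN (j + 1)]) :=
    (Iso.swap (n := n) .U (.X a) j j (le_refl _) (by
      show j + 2 ≤ n
      omega)).right _
  have h5 : Iso n ([pX j a] ++ [pU j, pN (j + 1)]) ([pX j a] ++ []) :=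
    Iso.left (okX (n := n) (i := j) a h) (Iso.zig (by omega))
  exact (((h1.symm.trans h2.symm).trans h3).trans h4).trans h5

end PUN

open PUN

theorem thm_PU : St_PU := by
  intro a u v j m hu hv
  have hu' : Ok (u ++ [pU j]) 0 (j + m + 2) := hu.append (okU (by omega))
  -- the first part
  have s1 : Iso 0 (Two a (u ++ [pU j]) v j (m + 1))
      (u ++ ([pU j, pU j, pX (j + 2) a, pX (j + 1) a] ++ (sh (j + 2) (Q a m) ++ v))) := by
    have h1 := Iso.mid (u ++ [pU j] ++ [pU j]) v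
      (hu'.append (okU (n := j + m + 2) (i := j) (by omega))) (p1 a j m)
    have e1 : Two a (u ++ [pU j]) v j (m + 1) = (u ++ [pU j] ++ [pU j]) ++
        ((sh (j + 2) (ov a (m + 1)) ++ sh (j + 1) (ov a (m + 1))) ++ v) := by
      unfold Two
      simp
    have e2 : u ++ ([pU j, pU j, pX (j + 2) a, pX (j + 1) a] ++ (sh (j + 2) (Q a m) ++ v)) =
        (u ++ [pU j] ++ [pU j]) ++
          (([pX (j + 2) a, pX (j + 1) a] ++ sh (j + 2) (Q a m)) ++ v) := by
      simp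
    rw [e1, e2]
    exact h1
  have s2 := Iso.mid u (sh (j + 2) (Q a m) ++ v) hu (locU a j (j + m) (by omega))
  have ok3 : Ok (u ++ [pU j, pU (j + 1)]) 0 (j + m + 4) := by
    refine hu.append ((okU (by omega)).append (okU (n := j + m + 2) (i := j + 1) (by omega)))
  have s3 := Iso.mid (u ++ [pU j, pU (j + 1)]) v ok3
    (qqs (qqn a m) (j + 2) (j + m + 4) (by omega))
  have s4 : Iso 0 ((u ++ [pU j, pU (j + 1)] ++ sh (j + 2) (Q a m)) ++
      ([pX (j + 2 + m) (!a)] ++ v))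
      ((u ++ [pU j, pU (j + 1)] ++ sh (j + 2) (Q a m)) ++ (v ++ [pX 0 (!a)])) := by
    refine Iso.left (k := j + 2 + m + 2) ?_ (outX v (j + 2 + m) (!a) hv)
    have h0 := (okQ a m).sh (j + 2)
    rw [show m + 2 + (j + 2) = j + m + 4 by omega] at h0
    have h1 := ok3.append h0
    have e : j + 2 + m + 2 = j + m + 4 := by omega
    rw [e]
    exact h1
  have e3 : u ++ ([pU j, pU (j + 1), pX (j + 2) (!a)] ++ (sh (j + 2) (Q a m) ++ v)) =
      u ++ [pU j, pU (j + 1)] ++ ([pX (j + 2) (!a)] ++ sh (j + 2) (Q a m) ++ v) := by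
    simp
  have e4 : u ++ [pU j, pU (j + 1)] ++ (sh (j + 2) (Q a m) ++ [pX (j + 2 + m) (!a)] ++ v) =
      (u ++ [pU j, pU (j + 1)] ++ sh (j + 2) (Q a m)) ++ ([pX (j + 2 + m) (!a)] ++ v) := by
    simp
  have e5 : Two a (u ++ [pU j]) v (j + 1) m ++ [pX 0 (!a)] =
      (u ++ [pU j, pU (j + 1)] ++ sh (j + 2) (Q a m)) ++ (v ++ [pX 0 (!a)]) := by
    rw [shQ]
    unfold Two
    simp
  rw [e3] at s2
  rw [e4] at s3
  rw [e5]
  exact ((s1.trans s2).trans s3).trans s4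

theorem thm_PN : St_PN := by
  intro a u v j m hu hv
  have ok2 : Ok (u ++ [pU j]) 0 (j + m + 4) := by
    have h1 : Ok [pU j] (j + 2 + m) (j + m + 4) := by
      refine ⟨by show j + 0 ≤ j + 2 + m; omega, ?_⟩
      show j + 2 + m - 0 + 2 = j + m + 4
      omega
    exact hu.append h1
  have comm1 : Iso (j + m + 4) (sh (j + 2) (Q a m) ++ [pN j]) ([pN j] ++ sh j (Q a m)) := by
    have h1 := thm_Comm [pN j] (Q a m) (j + 2) j (m + 2) (m + 2) (okN (le_refl _)) (okQ a m)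
    have e : j + m + 4 = j + 2 + (m + 2) := by omega
    rw [e]
    exact h1.symm
  have s1 : Iso 0 (Two a u (pN j :: v) j (m + 1))
      (u ++ [pU j] ++ ([pX (j + 2) a, pX (j + 1) a] ++ sh (j + 2) (Q a m) ++ (pN j :: v))) := by
    have h1 := Iso.mid (u ++ [pU j]) (pN j :: v) ok2 (p1 a j m)
    have e1 : Two a u (pN j :: v) j (m + 1) = (u ++ [pU j]) ++
        ((sh (j + 2) (ov a (m + 1)) ++ sh (j + 1) (ov a (m + 1))) ++ (pN j :: v)) := by
      unfold Two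
      simp
    rw [e1]
    exact h1
  have s2 : Iso 0 ((u ++ [pU j, pX (j + 2) a, pX (j + 1) a]) ++
      ((sh (j + 2) (Q a m) ++ [pN j]) ++ v))
      ((u ++ [pU j, pX (j + 2) a, pX (j + 1) a]) ++ (([pN j] ++ sh j (Q a m)) ++ v)) := by
    refine Iso.mid _ _ ?_ comm1
    have h1 : Ok [pX (j + 2) a, pX (j + 1) a] (j + m + 4) (j + m + 4) :=
      (okX (n := j + m + 4) (i := j + 2) a (by omega)).append
        (okX (n := j + m + 4) (i := j + 1) a (by omega))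
    have h2 := ok2.append h1
    have e : u ++ [pU j, pX (j + 2) a, pX (j + 1) a] =
        u ++ [pU j] ++ [pX (j + 2) a, pX (j + 1) a] := by simp
    rw [e]
    exact h2
  have s3 := Iso.mid u (sh j (Q a m) ++ v) hu (locN a j (j + 2 + m) (by omega))
  have s4 := Iso.mid u v hu (qqs (qqa a m) j (j + 2 + m) (by omega))
  have okq : Ok (sh j (Q a m)) (j + 2 + m) (j + 2 + m) := by
    have h1 := (okQ a m).sh j
    have e : j + 2 + m = m + 2 + j := by omega
    rw [e]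
    exact h1
  have s5 : Iso 0 ((u ++ sh j (Q a m)) ++ ([pX (j + m) a] ++ v))
      ((u ++ sh j (Q a m)) ++ (v ++ [pX 0 a])) := by
    have h1 := outX v (j + m) a hv
    have e : j + m + 2 = j + 2 + m := by omega
    rw [e] at h1
    exact Iso.left (hu.append okq) h1
  -- the right side
  have t1 : Iso 0 ((u ++ [pU (j + 1)]) ++ ((sh (j + 2) (Q a m) ++ [pN j]) ++ (v ++ [pX 0 a])))
      ((u ++ [pU (j + 1)]) ++ (([pN j] ++ sh j (Q a m)) ++ (v ++ [pX 0 a]))) := by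
    refine Iso.mid _ _ ?_ comm1
    have h1 : Ok [pU (j + 1)] (j + 2 + m) (j + m + 4) := by
      refine ⟨by show j + 1 + 0 ≤ j + 2 + m; omega, ?_⟩
      show j + 2 + m - 0 + 2 = j + m + 4
      omega
    exact hu.append h1
  have t2 : Iso 0 (u ++ ([pU (j + 1), pN j] ++ (sh j (Q a m) ++ (v ++ [pX 0 a]))))
      (u ++ ([] ++ (sh j (Q a m) ++ (v ++ [pX 0 a])))) :=
    Iso.mid _ _ hu (Iso.zag (by omega))
  have e1 : u ++ [pU j] ++ ([pX (j + 2) a, pX (j + 1) a] ++ sh (j + 2) (Q a m) ++ (pN j :: v)) =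
      (u ++ [pU j, pX (j + 2) a, pX (j + 1) a]) ++ ((sh (j + 2) (Q a m) ++ [pN j]) ++ v) := by
    simp
  have e2 : (u ++ [pU j, pX (j + 2) a, pX (j + 1) a]) ++ (([pN j] ++ sh j (Q a m)) ++ v) =
      u ++ ([pU j, pX (j + 2) a, pX (j + 1) a, pN j] ++ (sh j (Q a m) ++ v)) := by
    simp
  have e3 : u ++ ([pX j a] ++ (sh j (Q a m) ++ v)) = u ++ (([pX j a] ++ sh j (Q a m)) ++ v) := by
    simp
  have e4 : u ++ ((sh j (Q a m) ++ [pX (j + m) a]) ++ v) =
      (u ++ sh j (Q a m)) ++ ([pX (j + m) a] ++ v) := by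
    simp
  have e5 : Two a u (pN j :: v) (j + 1) m ++ [pX 0 a] =
      (u ++ [pU (j + 1)]) ++ ((sh (j + 2) (Q a m) ++ [pN j]) ++ (v ++ [pX 0 a])) := by
    rw [shQ]
    unfold Two
    simp
  have e6 : (u ++ [pU (j + 1)]) ++ (([pN j] ++ sh j (Q a m)) ++ (v ++ [pX 0 a])) =
      u ++ ([pU (j + 1), pN j] ++ (sh j (Q a m) ++ (v ++ [pX 0 a]))) := by
    simp
  have e7 : u ++ ([] ++ (sh j (Q a m) ++ (v ++ [pX 0 a]))) =
      (u ++ sh j (Q a m)) ++ (v ++ [pX 0 a]) := by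
    simp
  rw [e1] at s1
  rw [e2] at s2
  rw [e3] at s3
  rw [e4] at s4
  rw [e6] at t1
  rw [e7] at t2
  rw [e5]
  exact ((((s1.trans s2).trans s3).trans s4).trans s5).trans (t1.trans t2).symm

end Pool.Agent.ARK
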