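import Pool.Agent.ARK.Lo

/-!
# Long knots: the cut moves along a strand of a crossing
-/

set_option autoImplicit false

namespace Pool.Agent.ARK

open Pool.Agent.ARB

private theorem px_flip (hF : St_Flip) (a b : Bool) (u v : Word) (j m : ℕ)
    (hu : Ok u 0 (j + 1 + m)) (hv : Ok v (j + 1 + m) 0) :
    Iso 0 (Two a u v j m) (Two b u v j m) := by
  cases a <;> cases b
  · exact Iso.refl _ _
  · exact (hF u v j m hu hv).symm
  · exact hF u v j m hu hv
  · exact Iso.refl _ _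

/-- a crossing commutes with a word on its right -/
private theorem px_comm {w : Word} {c i r n : ℕ} (q : Bool) (hw : Ok w c c) (h : i + 2 ≤ r)
    (hn : r + c ≤ n) : Iso n (sh r w ++ [pX i q]) ([pX i q] ++ sh r w) :=
  (thm_Comm [pX i q] w r r c c (okX q h) hw).symm.le hn

private theorem px_okov (a : Bool) {r m n : ℕ} (h : r + m + 1 ≤ n) :
    Ok (sh r (ov a m)) n n := by
  obtain ⟨k, rfl⟩ := Nat.exists_eq_add_of_le h
  have h1 := ((ok_ov a m).sh r).add k
  have e : m + 1 + r + k = r + m + 1 + k := by omega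
  rw [e] at h1
  exact h1

private theorem px_okU {i n : ℕ} (h : i ≤ n) : Ok [pU i] n (n + 2) :=
  ⟨by show i + 0 ≤ n; omega, rfl⟩

private theorem px_sh (r : ℕ) (a : Bool) (m : ℕ) :
    sh r (ov a (m + 1)) = pX r a :: sh (r + 1) (ov a m) := by
  rw [ov_cons, sh_cons, sh_sh]
  show (⟨Kind.X a, 0 + r⟩ : Piece) :: _ = _
  rw [Nat.zero_add]

/-- the local identity of the first move -/
private theorem px_loc1 (q : Bool) (j n : ℕ) (h : j + 2 ≤ n) :
    Iso n ([pU j, pX (j + 2) q, pX (j + 1) q] ++ [pX j q]) ([pX j q] ++ [pU (j + 1)]) := by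
  have h1 : Iso n ([pU j, pX (j + 2) q] ++ [pX (j + 1) q, pX j q])
      ([pX j q, pU j] ++ [pX (j + 1) q, pX j q]) := by
    have h2 := Iso.swap (n := n) Kind.U (Kind.X q) j j (by show j + 0 ≤ j; omega)
      (by show j + 2 ≤ n; omega)
    exact Iso.right h2 _
  have h2 : Iso n ([pX j q] ++ ([pU j, pX (j + 1) q] ++ [pX j q]))
      ([pX j q] ++ ([pU (j + 1), pX j (!q)] ++ [pX j q])) := by
    refine Iso.mid _ _ (okX q h) ?_
    have h3 := Iso.slU (n := n) (i := j) (!q) (by omega)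
    rw [Bool.not_not] at h3
    exact h3.symm
  have h3 : Iso n ([pX j q, pU (j + 1)] ++ [pX j (!q), pX j q])
      ([pX j q, pU (j + 1)] ++ []) := by
    refine Iso.left (k := n + 2) ?_ (Iso.r2' q (by omega))
    exact (okX q h).append (px_okU (by omega))
  exact h1.trans (h2.trans h3)

/-- the local identity of the second move -/
private theorem px_loc2 (q : Bool) (j n : ℕ) (h : j + 2 ≤ n) :
    Iso n ([pX j q] ++ [pU j, pX (j + 2) (!q), pX (j + 1) (!q)]) ([pU (j + 1)] ++ [pX j q]) := by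
  have h1 : Iso n ([pX j q, pU j] ++ [pX (j + 2) (!q), pX (j + 1) (!q)])
      ([pU j, pX (j + 2) q] ++ [pX (j + 2) (!q), pX (j + 1) (!q)]) := by
    have h2 := Iso.swap (n := n) Kind.U (Kind.X q) j j (by show j + 0 ≤ j; omega)
      (by show j + 2 ≤ n; omega)
    exact Iso.right h2.symm _
  have h2 : Iso n ([pU j] ++ ([pX (j + 2) q, pX (j + 2) (!q)] ++ [pX (j + 1) (!q)]))
      ([pU j] ++ ([] ++ [pX (j + 1) (!q)])) :=
    Iso.mid (k := n + 2) _ _ (px_okU (by omega)) (Iso.r2 q (by omega))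
  have h3 : Iso n [pU j, pX (j + 1) (!q)] [pU (j + 1), pX j q] :=
    (Iso.slU (n := n) (i := j) q (by omega)).symm
  exact h1.trans (h2.trans h3)

/-- the two long parts and a crossing on the left of them -/
private theorem px_far (a q : Bool) (j m n : ℕ) (hn : j + m + 4 ≤ n) :
    Iso n (sh (j + 3) (ov a m) ++ (sh (j + 2) (ov a m) ++ [pX j q]))
      ([pX j q] ++ (sh (j + 3) (ov a m) ++ sh (j + 2) (ov a m))) := by
  have h1 : Iso n (sh (j + 3) (ov a m) ++ (sh (j + 2) (ov a m) ++ [pX j q]))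
      (sh (j + 3) (ov a m) ++ ([pX j q] ++ sh (j + 2) (ov a m))) :=
    Iso.left (px_okov a (by omega)) (px_comm q (ok_ov a m) (by omega) (by omega))
  have h2 : Iso n ((sh (j + 3) (ov a m) ++ [pX j q]) ++ sh (j + 2) (ov a m))
      (([pX j q] ++ sh (j + 3) (ov a m)) ++ sh (j + 2) (ov a m)) :=
    Iso.right (px_comm q (ok_ov a m) (by omega) (by omega)) _
  rw [List.append_assoc, List.append_assoc] at h2
  exact h1.trans h2

/-- the parts of a longer pull -/
private theorem px_near (a : Bool) (j m n : ℕ) (hn : j + m + 4 ≤ n) :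
    Iso n (sh (j + 2) (ov a (m + 1)) ++ sh (j + 1) (ov a (m + 1)))
      ([pX (j + 2) a, pX (j + 1) a] ++ (sh (j + 3) (ov a m) ++ sh (j + 2) (ov a m))) := by
  rw [px_sh, px_sh]
  have h1 : Iso n ([pX (j + 2) a] ++ ((sh (j + 3) (ov a m) ++ [pX (j + 1) a]) ++
      sh (j + 2) (ov a m))) ([pX (j + 2) a] ++ (([pX (j + 1) a] ++ sh (j + 3) (ov a m)) ++
      sh (j + 2) (ov a m))) :=
    Iso.mid _ _ (okX a (by omega)) (px_comm a (ok_ov a m) (by omega) (by omega))
  have e1 : [pX (j + 2) a] ++ ((sh (j + 3) (ov a m) ++ [pX (j + 1) a]) ++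
      sh (j + 2) (ov a m)) = pX (j + 2) a :: sh (j + 2 + 1) (ov a m) ++
      pX (j + 1) a :: sh (j + 1 + 1) (ov a m) := by simp
  have e2 : [pX (j + 2) a] ++ (([pX (j + 1) a] ++ sh (j + 3) (ov a m)) ++
      sh (j + 2) (ov a m)) = [pX (j + 2) a, pX (j + 1) a] ++
      (sh (j + 3) (ov a m) ++ sh (j + 2) (ov a m)) := by simp
  rw [e1, e2] at h1
  exact h1

private theorem px_okp {j m n : ℕ} (h : n = j + 1 + (m + 1)) (q : Bool) {v : Word}
    (hv : Ok v n 0) : Ok (pX j q :: v) n 0 := (okX q (by omega)).append hv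

/-- the first move when the pull is on the same side -/
private theorem px_one (q : Bool) (u v : Word) (j m : ℕ) (hu : Ok u 0 (j + 1 + (m + 1))) :
    Iso 0 (Two q u (pX j q :: v) j (m + 1)) (Two q (u ++ [pX j q]) v (j + 1) m) := by
  have hn : j + m + 4 ≤ j + 1 + (m + 1) + 2 := by omega
  have key : Iso (j + 1 + (m + 1)) ([pU j] ++ ((sh (j + 2) (ov q (m + 1)) ++
      sh (j + 1) (ov q (m + 1))) ++ [pX j q]))
      ([pX j q] ++ ([pU (j + 1)] ++ (sh (j + 3) (ov q m) ++ sh (j + 2) (ov q m)))) := by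
    have h1 : Iso (j + 1 + (m + 1)) ([pU j] ++ ((sh (j + 2) (ov q (m + 1)) ++
        sh (j + 1) (ov q (m + 1))) ++ [pX j q]))
        ([pU j] ++ (([pX (j + 2) q, pX (j + 1) q] ++
        (sh (j + 3) (ov q m) ++ sh (j + 2) (ov q m))) ++ [pX j q])) :=
      Iso.mid _ _ (px_okU (by omega)) (px_near q j m _ hn)
    have h2 : Iso (j + 1 + (m + 1)) ([pU j, pX (j + 2) q, pX (j + 1) q] ++
        (sh (j + 3) (ov q m) ++ (sh (j + 2) (ov q m) ++ [pX j q])))
        ([pU j, pX (j + 2) q, pX (j + 1) q] ++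
        ([pX j q] ++ (sh (j + 3) (ov q m) ++ sh (j + 2) (ov q m)))) := by
      refine Iso.left (k := j + 1 + (m + 1) + 2) ?_ (px_far q q j m _ hn)
      exact (px_okU (by omega)).append ((okX q (by omega)).append (okX q (by omega)))
    have h3 : Iso (j + 1 + (m + 1)) (([pU j, pX (j + 2) q, pX (j + 1) q] ++ [pX j q]) ++
        (sh (j + 3) (ov q m) ++ sh (j + 2) (ov q m)))
        (([pX j q] ++ [pU (j + 1)]) ++ (sh (j + 3) (ov q m) ++ sh (j + 2) (ov q m))) :=
      Iso.right (px_loc1 q j _ (by omega)) _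
    have e1 : [pU j] ++ (([pX (j + 2) q, pX (j + 1) q] ++
        (sh (j + 3) (ov q m) ++ sh (j + 2) (ov q m))) ++ [pX j q]) =
        [pU j, pX (j + 2) q, pX (j + 1) q] ++
        (sh (j + 3) (ov q m) ++ (sh (j + 2) (ov q m) ++ [pX j q])) := by simp
    rw [e1] at h1
    rw [List.append_assoc, List.append_assoc] at h3
    exact h1.trans (h2.trans h3)
  have h4 := Iso.left hu (key.right v)
  have e1 : u ++ (([pU j] ++ ((sh (j + 2) (ov q (m + 1)) ++
      sh (j + 1) (ov q (m + 1))) ++ [pX j q])) ++ v) = Two q u (pX j q :: v) j (m + 1) := by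
    simp [Two]
  have e2 : u ++ (([pX j q] ++ ([pU (j + 1)] ++ (sh (j + 3) (ov q m) ++ sh (j + 2) (ov q m)))) ++
      v) = Two q (u ++ [pX j q]) v (j + 1) m := by
    simp [Two]
  rw [e1, e2] at h4
  exact h4

/-- the second move when the pull is on the other side -/
private theorem px_two (q : Bool) (u v : Word) (j m : ℕ) (hu : Ok u 0 (j + 1 + (m + 1))) :
    Iso 0 (Two (!q) u (pX j q :: v) (j + 1) m) (Two (!q) (u ++ [pX j q]) v j (m + 1)) := by
  have hn : j + m + 4 ≤ j + 1 + (m + 1) + 2 := by omega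
  have key : Iso (j + 1 + (m + 1)) ([pU (j + 1)] ++ (sh (j + 3) (ov (!q) m) ++
      (sh (j + 2) (ov (!q) m) ++ [pX j q])))
      ([pX j q] ++ ([pU j] ++ (sh (j + 2) (ov (!q) (m + 1)) ++
      sh (j + 1) (ov (!q) (m + 1))))) := by
    have h1 : Iso (j + 1 + (m + 1)) ([pU (j + 1)] ++ (sh (j + 3) (ov (!q) m) ++
        (sh (j + 2) (ov (!q) m) ++ [pX j q])))
        ([pU (j + 1)] ++ ([pX j q] ++ (sh (j + 3) (ov (!q) m) ++ sh (j + 2) (ov (!q) m)))) :=
      Iso.left (px_okU (by omega)) (px_far (!q) q j m _ hn)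
    have h2 : Iso (j + 1 + (m + 1)) (([pU (j + 1)] ++ [pX j q]) ++
        (sh (j + 3) (ov (!q) m) ++ sh (j + 2) (ov (!q) m)))
        (([pX j q] ++ [pU j, pX (j + 2) (!q), pX (j + 1) (!q)]) ++
        (sh (j + 3) (ov (!q) m) ++ sh (j + 2) (ov (!q) m))) :=
      Iso.right (px_loc2 q j _ (by omega)).symm _
    have h3 : Iso (j + 1 + (m + 1)) ([pX j q, pU j] ++ (sh (j + 2) (ov (!q) (m + 1)) ++
        sh (j + 1) (ov (!q) (m + 1))))
        ([pX j q, pU j] ++ ([pX (j + 2) (!q), pX (j + 1) (!q)] ++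
        (sh (j + 3) (ov (!q) m) ++ sh (j + 2) (ov (!q) m)))) := by
      refine Iso.left (k := j + 1 + (m + 1) + 2) ?_ (px_near (!q) j m _ hn)
      exact (okX q (by omega)).append (px_okU (by omega))
    rw [List.append_assoc] at h2
    have e1 : [pX j q, pU j] ++ ([pX (j + 2) (!q), pX (j + 1) (!q)] ++
        (sh (j + 3) (ov (!q) m) ++ sh (j + 2) (ov (!q) m))) =
        ([pX j q] ++ [pU j, pX (j + 2) (!q), pX (j + 1) (!q)]) ++
        (sh (j + 3) (ov (!q) m) ++ sh (j + 2) (ov (!q) m)) := by simp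
    rw [e1] at h3
    exact h1.trans (h2.trans h3.symm)
  have h4 := Iso.left hu (key.right v)
  have e1 : u ++ (([pU (j + 1)] ++ (sh (j + 3) (ov (!q) m) ++
      (sh (j + 2) (ov (!q) m) ++ [pX j q]))) ++ v) = Two (!q) u (pX j q :: v) (j + 1) m := by
    simp [Two]
  have e2 : u ++ (([pX j q] ++ ([pU j] ++ (sh (j + 2) (ov (!q) (m + 1)) ++
      sh (j + 1) (ov (!q) (m + 1))))) ++ v) = Two (!q) (u ++ [pX j q]) v j (m + 1) := by
    simp [Two]
  rw [e1, e2] at h4
  exact h4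

theorem thm_PX1 (hF : St_Flip) : St_PX1 := by
  intro a q u v j m hu hv
  have h1 : Ok (pX j q :: v) (j + 1 + (m + 1)) 0 := px_okp rfl q hv
  have h2 : Ok (u ++ [pX j q]) 0 (j + 1 + 1 + m) := by
    have e : j + 1 + 1 + m = j + 1 + (m + 1) := by omega
    rw [e]
    exact hu.append (okX q (by omega))
  have h3 : Ok v (j + 1 + 1 + m) 0 := by
    have e : j + 1 + 1 + m = j + 1 + (m + 1) := by omega
    rw [e]
    exact hv
  exact (px_flip hF a q _ _ _ _ hu h1).trans
    ((px_one q u v j m hu).trans (px_flip hF q a _ _ _ _ h2 h3))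

theorem thm_PX2 (hF : St_Flip) : St_PX2 := by
  intro a q u v j m hu hv
  have h1 : Ok (pX j q :: v) (j + 1 + 1 + m) 0 := px_okp (m := m) (by omega) q (by
    have e : j + 1 + 1 + m = j + 1 + (m + 1) := by omega
    rw [e]
    exact hv)
  have h2 : Ok (u ++ [pX j q]) 0 (j + 1 + (m + 1)) := hu.append (okX q (by omega))
  have h3 : Ok u 0 (j + 1 + 1 + m) := by
    have e : j + 1 + 1 + m = j + 1 + (m + 1) := by omega
    rw [e]
    exact hu
  exact (px_flip hF a (!q) _ _ _ _ h3 h1).trans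
    ((px_two q u v j m hu).trans (px_flip hF (!q) a _ _ _ _ h2 hv))

end Pool.Agent.ARK
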