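import Pool.Agent.ARK.Lo
import Pool.Agent.ARB.Rev

/-!
# Diagrams of the trivial knot are trivial wherever they are cut open
-/

set_option autoImplicit false

namespace Pool.Agent.ARK

open Pool.Agent.ARB

private theorem rdy_loc {a b : Word} {k l : ℕ} (h : Loc a b ∨ Loc b a) (ha : Ok a k l)
    (hb : Ok b k l) : Iso k a b :=
  Relation.ReflTransGen.single ⟨[], a, b, [], k, l, by simp, by simp, rfl, ha, hb, h⟩

/-- the two strands pulled to the right -/
private theorem rdy_ok (a : Bool) (j m : ℕ) :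
    Ok (pU j :: (sh (j + 2) (ov a m) ++ sh (j + 1) (ov a m))) (j + 1 + m) (j + 1 + m + 2) := by
  have h1 : Ok (sh (j + 2) (ov a m)) (j + 1 + m + 2) (j + 1 + m + 2) := by
    have h := (ok_ov a m).sh (j + 2)
    have e : m + 1 + (j + 2) = j + 1 + m + 2 := by omega
    rw [e] at h
    exact h
  have h2 : Ok (sh (j + 1) (ov a m)) (j + 1 + m + 2) (j + 1 + m + 2) := by
    have h := ((ok_ov a m).sh (j + 1)).add 1
    have e : m + 1 + (j + 1) + 1 = j + 1 + m + 2 := by omega
    rw [e] at h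
    exact h
  refine ⟨by show j + 0 ≤ j + 1 + m; omega, ?_⟩
  exact h1.append h2

private theorem rdy_zag : Iso 0 (Two true [pU 0] [pN 0] 1 0) [pU 0] := by
  show Iso 0 ([pU 0] ++ ([pU 1, pN 0] ++ [])) ([pU 0] ++ ([] ++ []))
  exact Iso.mid (k := 2) [pU 0] [] ⟨by decide, rfl⟩ (Iso.zag (by decide))

private theorem rdy_base (hN : St_PN) : Rd O1 := by
  intro u v j hK m hu hv
  unfold O1 at hK
  match u, hK, hu with
  | [], _, hu =>
    have h1 : 0 = j + 1 + m := hu
    omega
  | [p], hK, hu =>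
    rw [List.singleton_append, List.cons.injEq] at hK
    obtain ⟨rfl, rfl⟩ := hK
    have h1 : 2 = j + 1 + m := hu.2
    have h2 : (j = 1 ∧ m = 0) ∨ (j = 0 ∧ m = 1) := by omega
    rcases h2 with ⟨rfl, rfl⟩ | ⟨rfl, rfl⟩
    · exact rdy_zag
    · have h3 := hN true [pU 0] [] 0 0 hu rfl
      refine h3.trans ?_
      refine (rdy_zag.right [pX 0 true]).trans ?_
      exact Iso.r1U true (Nat.le_refl 0)
  | [p, p'], hK, hu =>
    rw [List.cons_append, List.singleton_append, List.cons.injEq, List.cons.injEq] at hK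
    obtain ⟨rfl, rfl, rfl⟩ := hK
    have h1 : 0 = j + 1 + m := hu.2.2
    omega
  | p :: p' :: p'' :: u', hK, hu =>
    simp at hK

/-- the cut is below the changed part -/
private theorem rdy_below {u s₂ a b t : Word} {k l j : ℕ} (hs : Ok (u ++ s₂) 0 k)
    (ha : Ok a k l) (hb : Ok b k l) (hba : Iso k b a)
    (hK : Tr u (s₂ ++ (a ++ t)) j) : Tr u (s₂ ++ (b ++ t)) j := by
  intro m hu hv
  obtain ⟨n', hn', hn⟩ := hs.split
  obtain rfl := hu.det hn'
  obtain ⟨k', hk', hbt⟩ := hv.split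
  obtain rfl := hn.det hk'
  obtain ⟨l', hl', ht⟩ := hbt.split
  obtain rfl := hb.det hl'
  have hc : Ok (u ++ ((pU j :: (sh (j + 2) (ov true m) ++ sh (j + 1) (ov true m))) ++ s₂)) 0
      (k + 2) := hu.append ((rdy_ok true j m).append (hn.add 2))
  have h1 := Iso.mid _ t hc (hba.add 2)
  have h2 := hK m hu (hn.append (ha.append ht))
  have e1 : Two true u (s₂ ++ (b ++ t)) j m =
      (u ++ ((pU j :: (sh (j + 2) (ov true m) ++ sh (j + 1) (ov true m))) ++ s₂)) ++ (b ++ t) := by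
    simp [Two]
  have e2 : Two true u (s₂ ++ (a ++ t)) j m =
      (u ++ ((pU j :: (sh (j + 2) (ov true m) ++ sh (j + 1) (ov true m))) ++ s₂)) ++ (a ++ t) := by
    simp [Two]
  rw [e1]
  rw [e2] at h2
  exact h1.trans h2

/-- the cut is above the changed part -/
private theorem rdy_above {s a b d v : Word} {k l j : ℕ} (hs : Ok s 0 k)
    (ha : Ok a k l) (hb : Ok b k l) (hba : Iso k b a)
    (hK : Tr (s ++ (a ++ d)) v j) : Tr (s ++ (b ++ d)) v j := by
  intro m hu hv
  obtain ⟨k', hk', hbd⟩ := hu.split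
  obtain rfl := hs.det hk'
  obtain ⟨l', hl', hd⟩ := hbd.split
  obtain rfl := hb.det hl'
  have h2 := hK m (hs.append (ha.append hd)) hv
  have h1 := Iso.mid s (d ++ (pU j :: (sh (j + 2) (ov true m) ++ (sh (j + 1) (ov true m) ++ v))))
    hs hba
  have e1 : Two true (s ++ (b ++ d)) v j m =
      s ++ (b ++ (d ++ (pU j :: (sh (j + 2) (ov true m) ++ (sh (j + 1) (ov true m) ++ v))))) := by
    simp [Two]
  have e2 : Two true (s ++ (a ++ d)) v j m =
      s ++ (a ++ (d ++ (pU j :: (sh (j + 2) (ov true m) ++ (sh (j + 1) (ov true m) ++ v))))) := by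
    simp [Two]
  rw [e1]
  rw [e2] at h2
  exact h1.trans h2

private theorem rdy_step (hL : St_Out) {K K' : Word} (hK : Rd K) (hs : Step 0 K K') :
    Rd K' := by
  obtain ⟨s, a, b, t, k, l, rfl, rfl, hsk, ha, hb, hloc⟩ := hs
  intro u v j hE m hu hv
  have hba : Iso k b a := rdy_loc hloc.symm hb ha
  rcases List.append_eq_append_iff.mp hE with ⟨s₂, hs₂, hv₂⟩ | ⟨s₂, hs₂, hv₂⟩
  · -- `u = s ++ s₂`, `b ++ t = s₂ ++ v`
    subst hs₂
    obtain ⟨k', hk', hn⟩ := hu.split
    obtain rfl := hsk.det hk'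
    rcases List.append_eq_append_iff.mp hv₂ with ⟨d, hd, ht⟩ | ⟨d, hd, ht⟩
    · -- the cut is in `t`
      subst hd
      subst ht
      exact rdy_above hsk ha hb hba (hK (s ++ (a ++ d)) v j (by simp)) m hu hv
    · -- the cut is in `b`
      subst hd
      subst ht
      obtain ⟨n', hn', hdt⟩ := hb.split
      obtain rfl := hn.det hn'
      obtain ⟨l', hl', ht⟩ := hv.split
      obtain rfl := hdt.det hl'
      have hA : ∀ i, Tr s ((s₂ ++ d) ++ t) i := by
        intro i
        have h1 : Tr s ([] ++ (a ++ t)) i := hK s ([] ++ (a ++ t)) i rfl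
        exact rdy_below (s₂ := []) (by rw [List.append_nil]; exact hsk) ha hb hba h1
      have hB : ∀ i, Tr (s ++ (s₂ ++ d)) t i := by
        intro i
        have h1 : Tr (s ++ (a ++ [])) t i := hK (s ++ (a ++ [])) t i (by simp)
        have h2 := rdy_above (d := []) hsk ha hb hba h1
        rw [List.append_nil] at h2
        exact h2
      exact hL (s₂ ++ d) a s t s₂ d k l j hloc.symm hsk hb ht rfl hA hB m hu hv
  · -- `s = u ++ s₂`, `v = s₂ ++ (b ++ t)`: the cut is in `s`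
    subst hs₂
    subst hv₂
    exact rdy_below hsk ha hb hba (hK u (s₂ ++ (a ++ t)) j (by simp)) m hu hv

theorem thm_Rdy (h : St_Out) (hN : St_PN) : St_Rdy := by
  intro K hK
  induction hK using Relation.ReflTransGen.head_induction_on with
  | refl => exact rdy_base hN
  | head h1 _ ih => exact rdy_step h ih h1.symm

private theorem rdy_long (h : St_Rdy) (C : Word) (hC : Ok C 2 2) (hi : Iso 0 (DW C) O1) :
    Iso 0 (pU 0 :: C) [pU 0] := by
  have hu : Ok (pU 0 :: C) 0 2 := ⟨by decide, hC⟩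
  have h1 := h (DW C) hi (pU 0 :: C) [pN 0] 1 rfl 0 hu ⟨by decide, rfl⟩
  have h2 : Iso 0 (Two true (pU 0 :: C) [pN 0] 1 0) (pU 0 :: C) := by
    have h3 : Iso 0 ((pU 0 :: C) ++ ([pU 1, pN 0] ++ [])) ((pU 0 :: C) ++ ([] ++ [])) :=
      Iso.mid (k := 2) (pU 0 :: C) [] hu (Iso.zag (by decide))
    rw [List.append_nil, List.append_nil, List.append_nil] at h3
    exact h3
  exact h2.symm.trans h1

theorem thm_Long (h : St_Rdy) : St_Long := by
  intro C hC hi
  refine ⟨rdy_long h C hC hi, ?_⟩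
  have h1 : Iso 0 (rev (DW C)) (rev O1) := iso_rev (ok_DW hC) hi
  have e1 : rev (DW C) = DW (rev C) := by
    show rev (C ++ [pN 0]) ++ [pN 0] = pU 0 :: (rev C ++ [pN 0])
    rw [rev_append]
    rfl
  have e2 : rev O1 = O1 := rfl
  rw [e1, e2] at h1
  have h2 := rdy_long h (rev C) (ok_rev hC) h1
  have h3 : Iso 2 (rev (pU 0 :: rev C)) (rev [pU 0]) :=
    iso_rev (n := 0) (m := 2) ⟨by decide, ok_rev hC⟩ h2
  have e3 : rev (pU 0 :: rev C) = C ++ [pN 0] := by
    show rev (rev C) ++ [pN 0] = C ++ [pN 0]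
    rw [rev_rev]
  rw [e3] at h3
  exact h3

end Pool.Agent.ARK
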