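import Pool.Agent.ARK.Lo

/-!
# Long knots: the cut on the left or on the right of a piece
-/

set_option autoImplicit false

namespace Pool.Agent.ARK

open Pool.Agent.ARB

/-- one piece under (or over) the shifted strand -/
private theorem side_nat (a : Bool) (k : Kind) (i c m m' : ℕ) (h1 : c ≤ i)
    (h2 : i + k.inn ≤ c + m) (hm : m' = m - k.inn + k.out) :
    Iso (c + m + 1) (sh c (ov a m) ++ [⟨k, i⟩]) (⟨k, i + 1⟩ :: sh c (ov a m')) := by
  subst hm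
  obtain ⟨r, rfl⟩ := Nat.exists_eq_add_of_le h1
  have h3 : r + k.inn ≤ m := by omega
  have h4 : Ok [(⟨k, r⟩ : Piece)] m (m - k.inn + k.out) := Ok.single h3
  have h5 := (Nt a _ _ _ h4).sh c
  rw [sh_append, sh_append] at h5
  have e1 : sh c [(⟨k, r⟩ : Piece)] = [⟨k, c + r⟩] := by
    show [(⟨k, r + c⟩ : Piece)] = _
    rw [Nat.add_comm]
  have e2 : sh c (sh 1 [(⟨k, r⟩ : Piece)]) = [⟨k, c + r + 1⟩] := by
    show [(⟨k, r + 1 + c⟩ : Piece)] = _
    have e : r + 1 + c = c + r + 1 := by omega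
    rw [e]
  rw [e1, e2] at h5
  have e3 : m + 1 + c = c + m + 1 := by omega
  rw [e3] at h5
  exact h5

theorem thm_PL : St_PL := by
  intro a u v k i j m m' hu h1 h2 hm
  have ho : Ok [pU j] (j + 1 + m) (j + 3 + m) := by
    refine ⟨by show j + 0 ≤ j + 1 + m; omega, ?_⟩
    show j + 1 + m - 0 + 2 = j + 3 + m
    omega
  have ho2 : Ok (sh (j + 2) (ov a m)) (j + 3 + m) (j + 3 + m) := by
    have h := (ok_ov a m).sh (j + 2)
    have e : m + 1 + (j + 2) = j + 3 + m := by omega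
    rw [e] at h
    exact h
  -- first strand
  have a1 : Iso (j + 3 + m) (sh (j + 1) (ov a m) ++ [⟨k, i⟩])
      (⟨k, i + 1⟩ :: sh (j + 1) (ov a m')) := by
    have h := side_nat a k i (j + 1) m m' h1 h2 hm
    exact h.le (by omega)
  -- second strand
  have a2 : Iso (j + 3 + m) (sh (j + 2) (ov a m) ++ [⟨k, i + 1⟩])
      (⟨k, i + 2⟩ :: sh (j + 2) (ov a m')) := by
    have h := side_nat a k (i + 1) (j + 2) m m' (by omega) (by omega) hm
    exact h.le (by omega)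
  -- the cup
  have a3 : Iso (j + 1 + m) [pU j, ⟨k, i + 2⟩] [⟨k, i⟩, pU j] := by
    have h := Iso.swap (n := j + 1 + m) Kind.U k j i (by show j + 0 ≤ i; omega) h2
    exact h
  have b1 : Iso (j + 1 + m)
      ([pU j] ++ (sh (j + 2) (ov a m) ++ ((sh (j + 1) (ov a m) ++ [⟨k, i⟩]) ++ v)))
      ([pU j] ++ (sh (j + 2) (ov a m) ++ ((⟨k, i + 1⟩ :: sh (j + 1) (ov a m')) ++ v))) :=
    Iso.left ho (Iso.mid _ _ ho2 a1)
  have b2 : Iso (j + 1 + m)
      ([pU j] ++ ((sh (j + 2) (ov a m) ++ [⟨k, i + 1⟩]) ++ (sh (j + 1) (ov a m') ++ v)))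
      ([pU j] ++ ((⟨k, i + 2⟩ :: sh (j + 2) (ov a m')) ++ (sh (j + 1) (ov a m') ++ v))) :=
    Iso.mid _ _ ho a2
  have b3 : Iso (j + 1 + m)
      ([pU j, ⟨k, i + 2⟩] ++ (sh (j + 2) (ov a m') ++ (sh (j + 1) (ov a m') ++ v)))
      ([⟨k, i⟩, pU j] ++ (sh (j + 2) (ov a m') ++ (sh (j + 1) (ov a m') ++ v))) :=
    a3.right _
  have e1 : [pU j] ++ (sh (j + 2) (ov a m) ++ ((⟨k, i + 1⟩ :: sh (j + 1) (ov a m')) ++ v)) =
      [pU j] ++ ((sh (j + 2) (ov a m) ++ [⟨k, i + 1⟩]) ++ (sh (j + 1) (ov a m') ++ v)) := by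
    simp
  have e2 : [pU j] ++ ((⟨k, i + 2⟩ :: sh (j + 2) (ov a m')) ++ (sh (j + 1) (ov a m') ++ v)) =
      [pU j, ⟨k, i + 2⟩] ++ (sh (j + 2) (ov a m') ++ (sh (j + 1) (ov a m') ++ v)) := by
    simp
  rw [e1] at b1
  rw [e2] at b2
  have b4 := Iso.left hu (b1.trans (b2.trans b3))
  have e3 : Two a u (⟨k, i⟩ :: v) j m =
      u ++ ([pU j] ++ (sh (j + 2) (ov a m) ++ ((sh (j + 1) (ov a m) ++ [⟨k, i⟩]) ++ v))) := by
    unfold Two
    simp
  have e4 : Two a (u ++ [⟨k, i⟩]) v j m' =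
      u ++ ([⟨k, i⟩, pU j] ++ (sh (j + 2) (ov a m') ++ (sh (j + 1) (ov a m') ++ v))) := by
    unfold Two
    simp
  rw [e3, e4]
  exact b4

theorem thm_PR : St_PR := by
  intro a u v k i j j' m hu h1 hj
  subst hj
  have hQ : Ok (pU 0 :: (sh 2 (ov a m) ++ sh 1 (ov a m))) (1 + m) (3 + m) := by
    have h2 : Ok (sh 2 (ov a m)) (3 + m) (3 + m) := by
      have h := (ok_ov a m).sh 2
      have e : m + 1 + 2 = 3 + m := by omega
      rw [e] at h
      exact h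
    have h3 : Ok (sh 1 (ov a m)) (3 + m) (3 + m) := by
      have h := ((ok_ov a m).sh 1).add 1
      have e : m + 1 + 1 + 1 = 3 + m := by omega
      rw [e] at h
      exact h
    refine ⟨by show 0 + 0 ≤ 1 + m; omega, ?_⟩
    have e : 1 + m - (pU 0).k.inn + (pU 0).k.out = 3 + m := by
      show 1 + m - 0 + 2 = 3 + m
      omega
    rw [e]
    exact h2.append h3
  have hs : ∀ c : ℕ, sh c (pU 0 :: (sh 2 (ov a m) ++ sh 1 (ov a m))) =
      pU c :: (sh (c + 2) (ov a m) ++ sh (c + 1) (ov a m)) := by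
    intro c
    rw [sh_cons, sh_append, sh_sh, sh_sh]
    show (⟨Kind.U, 0 + c⟩ : Piece) :: _ = _
    rw [Nat.zero_add]
  have h2 := comm_piece ⟨k, i⟩ j h1 _ _ _ hQ
  rw [hs, hs] at h2
  have e0 : j + (1 + m) = j + 1 + m := by omega
  rw [e0] at h2
  have b4 := Iso.left hu (h2.symm.right v)
  have e3 : Two a u (⟨k, i⟩ :: v) j m =
      u ++ (((pU j :: (sh (j + 2) (ov a m) ++ sh (j + 1) (ov a m))) ++ [⟨k, i⟩]) ++ v) := by
    unfold Two
    simp
  have e4 : Two a (u ++ [⟨k, i⟩]) v (j - k.inn + k.out) m =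
      u ++ ((⟨k, i⟩ :: pU (j - k.inn + k.out) :: (sh (j - k.inn + k.out + 2) (ov a m) ++
        sh (j - k.inn + k.out + 1) (ov a m))) ++ v) := by
    unfold Two
    simp
  rw [e3, e4]
  exact b4

end Pool.Agent.ARK
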