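import Pool.Agent.ARK.Lo

/-!
# Long knots: the two ends of a turned strand
-/

set_option autoImplicit false

namespace Pool.Agent.ARK

open Pool.Agent.ARB

theorem thm_Tail : St_Tail := by
  intro q Z j hZ
  -- `sh 1 Z ~ ov q (j + 1) ++ Z`
  have h1 : Iso (j + 1 + 1) (ov q (j + 1) ++ Z) (sh 1 Z ++ ov q 0) := Nt q Z (j + 1) 0 hZ
  rw [ov_zero, List.append_nil] at h1
  have hU : Ok [pU (j + 1)] (j + 1) (j + 3) := ⟨by show j + 1 + 0 ≤ j + 1; omega, by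
    show j + 1 - 0 + 2 = j + 3; omega⟩
  have a1 : Iso (j + 1) ([pU (j + 1)] ++ (sh 1 Z ++ [pN 0]))
      ([pU (j + 1)] ++ ((ov q (j + 1) ++ Z) ++ [pN 0])) :=
    Iso.left hU ((h1.symm.add 1).right _)
  -- the cap goes down
  have h2 : Iso (j + 1 + 2) (Z ++ sh 0 [pN 0]) (sh (j + 1) [pN 0] ++ Z) :=
    thm_Comm Z [pN 0] (j + 1) 0 2 0 hZ ⟨by decide, rfl⟩
  have e1 : sh (j + 1) [pN 0] = [pN (j + 1)] := by
    show [pN (0 + (j + 1))] = [pN (j + 1)]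
    rw [Nat.zero_add]
  rw [sh_zero, e1] at h2
  have hov : Ok (ov q (j + 1)) (j + 3) (j + 3) := (ok_ov q (j + 1)).add 1
  have a2 : Iso (j + 1) ([pU (j + 1)] ++ (ov q (j + 1) ++ (Z ++ [pN 0])))
      ([pU (j + 1)] ++ (ov q (j + 1) ++ ([pN (j + 1)] ++ Z))) :=
    Iso.left hU (Iso.left hov h2)
  -- the cup goes up
  have h3 : Iso (j + 1 + 0) (ov q j ++ sh (j + 1) [pU 0]) (sh (j + 1) [pU 0] ++ ov q j) :=
    thm_Comm (ov q j) [pU 0] (j + 1) (j + 1) 0 2 (ok_ov q j) ⟨by decide, rfl⟩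
  have e2 : sh (j + 1) [pU 0] = [pU (j + 1)] := by
    show [pU (0 + (j + 1))] = [pU (j + 1)]
    rw [Nat.zero_add]
  rw [e2, Nat.add_zero] at h3
  have a3 : Iso (j + 1) (([pU (j + 1)] ++ ov q j) ++ ([pX j q] ++ ([pN (j + 1)] ++ Z)))
      ((ov q j ++ [pU (j + 1)]) ++ ([pX j q] ++ ([pN (j + 1)] ++ Z))) := h3.symm.right _
  -- the local part
  have b1 : Iso (j + 1) ([pU (j + 1), pX j q] ++ [pN (j + 1)])
      ([pU j, pX (j + 1) (!q)] ++ [pN (j + 1)]) := (Iso.slU q (le_refl _)).right _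
  have b2 : Iso (j + 1) ([pU j] ++ [pX (j + 1) (!q), pN (j + 1)]) ([pU j] ++ [pN (j + 1)]) :=
    Iso.left (k := j + 3) ⟨by show j + 0 ≤ j + 1; omega, by show j + 1 - 0 + 2 = j + 3; omega⟩
      (Iso.r1N (!q) (by omega))
  have b3 : Iso (j + 1) [pU j, pN (j + 1)] [] := Iso.zig (le_refl _)
  have b4 : Iso (j + 1) [pU (j + 1), pX j q, pN (j + 1)] [] := b1.trans (b2.trans b3)
  have a4 : Iso (j + 1) (ov q j ++ ([pU (j + 1), pX j q, pN (j + 1)] ++ Z))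
      (ov q j ++ ([] ++ Z)) := Iso.mid _ _ (ok_ov q j) b4
  have c1 : pU (j + 1) :: (sh 1 Z ++ [pN 0]) = [pU (j + 1)] ++ (sh 1 Z ++ [pN 0]) := rfl
  have c2 : (ov q (j + 1) ++ Z) ++ [pN 0] = ov q (j + 1) ++ (Z ++ [pN 0]) := by simp
  have c3 : [pU (j + 1)] ++ (ov q (j + 1) ++ ([pN (j + 1)] ++ Z)) =
      ([pU (j + 1)] ++ ov q j) ++ ([pX j q] ++ ([pN (j + 1)] ++ Z)) := by
    rw [ov_succ]
    simp
  have c4 : (ov q j ++ [pU (j + 1)]) ++ ([pX j q] ++ ([pN (j + 1)] ++ Z)) =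
      ov q j ++ ([pU (j + 1), pX j q, pN (j + 1)] ++ Z) := by simp
  rw [c2] at a1
  rw [c3] at a2
  rw [c4] at a3
  rw [c1]
  exact a1.trans (a2.trans (a3.trans a4))

/-- a strand below a cap -/
theorem ov_cap (q : Bool) (j : ℕ) :
    Iso (j + 2) (ov q j ++ [pN j]) (sh 1 (vo q j) ++ [pN 0]) := by
  induction j with
  | zero => exact Iso.refl _ _
  | succ j ih =>
    have h1 : Iso (j + 3) (ov q j ++ [pX j q, pN (j + 1)]) (ov q j ++ [pX (j + 1) (!q), pN j]) :=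
      Iso.left ((ok_ov q j).add 2) (Iso.slN q (le_refl _))
    have h2 : Iso (j + 1 + 2) (ov q j ++ sh (j + 1) [pX 0 (!q)]) (sh (j + 1) [pX 0 (!q)] ++ ov q j) :=
      thm_Comm (ov q j) [pX 0 (!q)] (j + 1) (j + 1) 2 2 (ok_ov q j) (okX (!q) (le_refl 2))
    have e1 : sh (j + 1) [pX 0 (!q)] = [pX (j + 1) (!q)] := by
      show [pX (0 + (j + 1)) (!q)] = [pX (j + 1) (!q)]
      rw [Nat.zero_add]
    rw [e1] at h2
    have h3 : Iso (j + 3) ((ov q j ++ [pX (j + 1) (!q)]) ++ [pN j])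
        (([pX (j + 1) (!q)] ++ ov q j) ++ [pN j]) := h2.right _
    have h4 : Iso (j + 3) ([pX (j + 1) (!q)] ++ (ov q j ++ [pN j]))
        ([pX (j + 1) (!q)] ++ (sh 1 (vo q j) ++ [pN 0])) :=
      Iso.left (okX (!q) (by omega)) (ih.add 1)
    have c1 : ov q (j + 1) ++ [pN (j + 1)] = ov q j ++ [pX j q, pN (j + 1)] := by
      rw [ov_succ]
      simp
    have c2 : ov q j ++ [pX (j + 1) (!q), pN j] = (ov q j ++ [pX (j + 1) (!q)]) ++ [pN j] := by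
      simp
    have c3 : ([pX (j + 1) (!q)] ++ ov q j) ++ [pN j] =
        [pX (j + 1) (!q)] ++ (ov q j ++ [pN j]) := by simp
    have c4 : [pX (j + 1) (!q)] ++ (sh 1 (vo q j) ++ [pN 0]) = sh 1 (vo q (j + 1)) ++ [pN 0] := rfl
    rw [c2] at h1
    rw [c3] at h3
    rw [c4] at h4
    rw [c1]
    exact h1.trans (h3.trans h4)

theorem thm_Head : St_Head := by
  intro q W j hW
  -- `sh 1 W ~ sh 2 W ++ sh 1 (ov q (j + 1))`
  have h0 : Iso (0 + 1) (ov q 0 ++ W) (sh 1 W ++ ov q (j + 1)) := Nt q W 0 (j + 1) hW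
  rw [ov_zero, List.nil_append] at h0
  have h1 : Iso 2 (sh 1 W) (sh 2 W ++ sh 1 (ov q (j + 1))) := by
    have h := h0.sh 1
    rw [sh_append, sh_sh] at h
    exact h
  have hU : Ok [pU 0] 0 2 := ⟨by decide, rfl⟩
  have hW2 : Ok (sh 2 W) 2 (j + 3) := by
    have h := hW.sh 2
    exact h
  have a1 : Iso 0 ([pU 0] ++ (sh 1 W ++ [pN (j + 1)]))
      ([pU 0] ++ ((sh 2 W ++ sh 1 (ov q (j + 1))) ++ [pN (j + 1)])) :=
    Iso.left hU (h1.right _)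
  -- remove the loop
  have hsov : Ok (sh 1 (ov q j)) (j + 3) (j + 3) := by
    have h := ((ok_ov q j).sh 1).add 1
    exact h
  have a2 : Iso 0 ([pU 0] ++ (sh 2 W ++ (sh 1 (ov q j) ++ [pX (j + 1) q, pN (j + 1)])))
      ([pU 0] ++ (sh 2 W ++ (sh 1 (ov q j) ++ [pN (j + 1)]))) :=
    Iso.left hU (Iso.left hW2 (Iso.left hsov (Iso.r1N q (le_refl _))))
  -- the strand below the cap
  have h3 : Iso (j + 3) (sh 1 (ov q j) ++ [pN (j + 1)]) (sh 2 (vo q j) ++ [pN 1]) := by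
    have h := (ov_cap q j).sh 1
    rw [sh_append, sh_append, sh_sh] at h
    exact h
  have a3 : Iso 0 ([pU 0] ++ (sh 2 W ++ (sh 1 (ov q j) ++ [pN (j + 1)])))
      ([pU 0] ++ (sh 2 W ++ (sh 2 (vo q j) ++ [pN 1]))) := Iso.left hU (Iso.left hW2 h3)
  have hv : Ok (W ++ vo q j) 0 (j + 1) := hW.append (ok_vo q j)
  have h4 : Iso (0 + 0) ([pU 0] ++ sh 2 (W ++ vo q j)) (sh 0 (W ++ vo q j) ++ [pU 0]) :=
    thm_Comm [pU 0] (W ++ vo q j) 0 2 0 (j + 1) hU hv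
  rw [sh_zero] at h4
  have a4 : Iso 0 (([pU 0] ++ sh 2 (W ++ vo q j)) ++ [pN 1]) (((W ++ vo q j) ++ [pU 0]) ++ [pN 1]) :=
    h4.right _
  have a5 : Iso 0 ((W ++ vo q j) ++ [pU 0, pN 1]) ((W ++ vo q j) ++ []) :=
    Iso.left hv (Iso.zig (by omega))
  have c1 : pU 0 :: (sh 1 W ++ [pN (j + 1)]) = [pU 0] ++ (sh 1 W ++ [pN (j + 1)]) := rfl
  have c2 : [pU 0] ++ ((sh 2 W ++ sh 1 (ov q (j + 1))) ++ [pN (j + 1)]) =
      [pU 0] ++ (sh 2 W ++ (sh 1 (ov q j) ++ [pX (j + 1) q, pN (j + 1)])) := by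
    rw [ov_succ, sh_append]
    have e : sh 1 [pX j q] = [pX (j + 1) q] := rfl
    rw [e]
    simp
  have c3 : [pU 0] ++ (sh 2 W ++ (sh 2 (vo q j) ++ [pN 1])) =
      ([pU 0] ++ sh 2 (W ++ vo q j)) ++ [pN 1] := by
    rw [sh_append]
    simp
  have c4 : ((W ++ vo q j) ++ [pU 0]) ++ [pN 1] = (W ++ vo q j) ++ [pU 0, pN 1] := by simp
  rw [c2] at a1
  rw [c3] at a3
  rw [c4] at a4
  rw [List.append_nil] at a5
  rw [c1]
  exact a1.trans (a2.trans (a3.trans (a4.trans a5)))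

end Pool.Agent.ARK
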