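import Pool.Agent.ARK.Lo

/-!
# Long knots: the strand at the right end can be turned around the diagram
-/

set_option autoImplicit false

namespace Pool.Agent.ARK

open Pool.Agent.ARB

private theorem Turn_okU {u : Word} {n : ℕ} (h : Ok u 0 (n + 1)) :
    Ok (pU 0 :: (sh 1 u ++ [pN (n + 1)])) 0 (n + 1) := by
  have h1 : Ok (sh 1 u) 2 (n + 1 + 2) := by
    have h2 := (h.sh 1).add 1
    have e1 : 0 + 1 + 1 = 2 := rfl
    have e2 : n + 1 + 1 + 1 = n + 1 + 2 := by omega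
    rw [e1, e2] at h2
    exact h2
  have h3 : Ok [pN (n + 1)] (n + 1 + 2) (n + 1) :=
    ⟨by show n + 1 + 2 ≤ n + 1 + 2; omega, by show n + 1 + 2 - 2 + 0 = n + 1; omega⟩
  exact ⟨by show 0 + 0 ≤ 0; omega, h1.append h3⟩

private theorem Turn_okN {v : Word} {n : ℕ} (h : Ok v n 0) :
    Ok (pU n :: (sh 1 v ++ [pN 0])) n 0 := by
  have h1 : Ok (sh 1 v) (n + 2) 2 := by
    have h2 := (h.sh 1).add 1
    have e1 : 0 + 1 + 1 = 2 := rfl
    have e2 : n + 1 + 1 = n + 2 := by omega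
    rw [e1, e2] at h2
    exact h2
  have h3 : Ok [pN 0] 2 0 := ⟨by show 0 + 2 ≤ 2; omega, by show 2 - 2 + 0 = 0; omega⟩
  refine ⟨by show n + 0 ≤ n; omega, ?_⟩
  have e : n - 0 + 2 = n + 2 := by omega
  show Ok (sh 1 v ++ [pN 0]) (n - 0 + 2) 0
  rw [e]
  exact h1.append h3

theorem thm_Turn (hT : St_Tail) (hH : St_Head) : St_Turn := by
  intro a u v j m hu hv
  have en : j + 1 + (m + 1) = j + m + 1 + 1 := by omega
  rw [en] at hu hv
  -- the number of strands is `n + 1`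
  obtain ⟨n, hn⟩ : ∃ n, n = j + m + 1 := ⟨_, rfl⟩
  have en2 : j + m + 2 = n + 1 := by omega
  rw [← hn] at hu hv
  rw [en2]
  obtain ⟨Q, hQ⟩ : ∃ Q : Word, Q = pU j :: (sh (j + 2) (ov a m) ++ sh (j + 1) (ov a m)) := ⟨_, rfl⟩
  have o1 : Ok (sh (j + 2) (ov a m)) (n + 2) (n + 2) := by
    have h := (ok_ov a m).sh (j + 2)
    have e : m + 1 + (j + 2) = n + 2 := by omega
    rwa [e] at h
  have o2 : Ok (sh (j + 1) (ov a m)) (n + 1) (n + 1) := by
    have h := (ok_ov a m).sh (j + 1)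
    have e : m + 1 + (j + 1) = n + 1 := by omega
    rwa [e] at h
  have oQ : Ok Q n (n + 2) := by
    rw [hQ]
    refine ⟨by show j + 0 ≤ n; omega, ?_⟩
    show Ok (sh (j + 2) (ov a m) ++ sh (j + 1) (ov a m)) (n - 0 + 2) (n + 2)
    have e : n - 0 + 2 = n + 2 := by omega
    rw [e]
    exact o1.append (o2.add 1)
  have sQ : sh 1 Q = pU (j + 1) :: (sh (j + 1 + 2) (ov a m) ++ sh (j + 1 + 1) (ov a m)) := by
    rw [hQ, sh_cons, sh_append, sh_sh, sh_sh]
    have e1 : 1 + (j + 2) = j + 1 + 2 := by omega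
    have e2 : 1 + (j + 1) = j + 1 + 1 := by omega
    rw [e1, e2]
  have osQ : Ok (sh 1 Q) (n + 1) (n + 3) := by
    have h := oQ.sh 1
    have e : n + 2 + 1 = n + 3 := by omega
    rwa [e] at h
  -- the right side
  have R1 : Two a (pU 0 :: (sh 1 u ++ [pN (n + 1)])) (pU (n + 1) :: (sh 1 v ++ [pN 0])) (j + 1) m =
      (pU 0 :: (sh 1 u ++ [pN (n + 1)])) ++ (sh 1 Q ++ (pU (n + 1) :: (sh 1 v ++ [pN 0]))) := by
    rw [sQ]
    unfold Two
    simp only [List.cons_append, List.append_assoc]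
  rw [R1]
  have L1 : Two a u v j (m + 1) = u ++ (pU j :: (sh (j + 2) (ov a (m + 1)) ++
      (sh (j + 1) (ov a (m + 1)) ++ v))) := rfl
  rw [L1]
  -- head and tail
  have H := hH (!a) u n hu
  have T := hT (!a) v n hv
  have oU := Turn_okU hu
  have c1 : Iso 0 ((pU 0 :: (sh 1 u ++ [pN (n + 1)])) ++
        (sh 1 Q ++ (pU (n + 1) :: (sh 1 v ++ [pN 0]))))
      ((u ++ vo (!a) n) ++ (sh 1 Q ++ (pU (n + 1) :: (sh 1 v ++ [pN 0])))) := H.right _
  have oV : Ok (u ++ vo (!a) n) 0 (n + 1) := hu.append (ok_vo (!a) n)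
  have c2 : Iso 0 ((u ++ vo (!a) n) ++ (sh 1 Q ++ (pU (n + 1) :: (sh 1 v ++ [pN 0]))))
      ((u ++ vo (!a) n) ++ (sh 1 Q ++ (ov (!a) n ++ v))) :=
    Iso.left oV (Iso.left osQ (T.add 2))
  -- naturality
  have N1 : Iso (n + 1) (ov (!a) n ++ Q) (sh 1 Q ++ ov (!a) (n + 2)) := Nt (!a) Q n (n + 2) oQ
  have eo : ov (!a) (n + 2) = ov (!a) n ++ [pX n (!a), pX (n + 1) (!a)] := by
    rw [ov_succ, ov_succ, List.append_assoc]
    rfl
  have r1 : Iso (n + 3) [pX n (!a), pX (n + 1) (!a), pX (n + 1) a, pX n a] [] := by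
    have h1 : Iso (n + 3) ([pX n (!a)] ++ ([pX (n + 1) (!a), pX (n + 1) a] ++ [pX n a]))
        ([pX n (!a)] ++ ([] ++ [pX n a])) :=
      Iso.mid _ _ (okX (!a) (by omega)) (Iso.r2' a (by omega))
    exact h1.trans (Iso.r2' a (by omega))
  have oO : Ok (ov (!a) n) (n + 3) (n + 3) := by
    have h := (ok_ov (!a) n).add 2
    have e : n + 1 + 2 = n + 3 := by omega
    rwa [e] at h
  have N2 : Iso (n + 1) (sh 1 Q ++ ov (!a) n)
      (ov (!a) n ++ (Q ++ [pX (n + 1) a, pX n a])) := by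
    have h1 : Iso (n + 1) ((sh 1 Q ++ ov (!a) n) ++
        [pX n (!a), pX (n + 1) (!a), pX (n + 1) a, pX n a]) ((sh 1 Q ++ ov (!a) n) ++ []) :=
      Iso.left (osQ.append oO) r1
    rw [List.append_nil] at h1
    have h2 : Iso (n + 1) ((ov (!a) n ++ Q) ++ [pX (n + 1) a, pX n a])
        ((sh 1 Q ++ ov (!a) (n + 2)) ++ [pX (n + 1) a, pX n a]) := N1.right _
    have e1 : (sh 1 Q ++ ov (!a) (n + 2)) ++ [pX (n + 1) a, pX n a] =
        (sh 1 Q ++ ov (!a) n) ++ [pX n (!a), pX (n + 1) (!a), pX (n + 1) a, pX n a] := by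
      rw [eo]
      simp only [List.append_assoc, List.cons_append, List.nil_append]
    rw [e1, List.append_assoc] at h2
    exact h1.symm.trans h2.symm
  have c3 : Iso (n + 1) (vo (!a) n ++ ((sh 1 Q ++ ov (!a) n) ++ v))
      (vo (!a) n ++ ((ov (!a) n ++ (Q ++ [pX (n + 1) a, pX n a])) ++ v)) :=
    Iso.mid _ _ (ok_vo (!a) n) N2
  have c4 : Iso (n + 1) ((vo (!a) n ++ ov (!a) n) ++ (Q ++ ([pX (n + 1) a, pX n a] ++ v)))
      ([] ++ (Q ++ ([pX (n + 1) a, pX n a] ++ v))) := (vo_ov (!a) n).right _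
  have c5 : Iso 0 ((u ++ vo (!a) n) ++ (sh 1 Q ++ (ov (!a) n ++ v)))
      (u ++ (Q ++ ([pX (n + 1) a, pX n a] ++ v))) := by
    have e1 : (u ++ vo (!a) n) ++ (sh 1 Q ++ (ov (!a) n ++ v)) =
        u ++ (vo (!a) n ++ ((sh 1 Q ++ ov (!a) n) ++ v)) := by
      simp only [List.append_assoc]
    have e2 : vo (!a) n ++ ((ov (!a) n ++ (Q ++ [pX (n + 1) a, pX n a])) ++ v) =
        (vo (!a) n ++ ov (!a) n) ++ (Q ++ ([pX (n + 1) a, pX n a] ++ v)) := by
      simp only [List.append_assoc]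
    rw [e1]
    rw [e2] at c3
    exact Iso.left hu (c3.trans c4)
  -- the crossing `X (n + 1) a` commutes with the second strand
  have k1 : Iso (n + 3) (sh (j + 1) (ov a m) ++ [pX (n + 1) a])
      ([pX (n + 1) a] ++ sh (j + 1) (ov a m)) := by
    have h := thm_Comm (sh (j + 1) (ov a m)) [pX 0 a] (n + 1) (n + 1) 2 2 o2 (okX a (le_refl _))
    have e : sh (n + 1) [pX 0 a] = [pX (n + 1) a] := by
      show [pX (0 + (n + 1)) a] = [pX (n + 1) a]
      rw [Nat.zero_add]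
    rw [e] at h
    exact h
  have s1 : sh (j + 2) (ov a (m + 1)) = sh (j + 2) (ov a m) ++ [pX (n + 1) a] := by
    rw [ov_succ, sh_append]
    have e : m + (j + 2) = n + 1 := by omega
    show sh (j + 2) (ov a m) ++ [pX (m + (j + 2)) a] = _
    rw [e]
  have s2 : sh (j + 1) (ov a (m + 1)) = sh (j + 1) (ov a m) ++ [pX n a] := by
    rw [ov_succ, sh_append]
    have e : m + (j + 1) = n := by omega
    show sh (j + 1) (ov a m) ++ [pX (m + (j + 1)) a] = _
    rw [e]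
  have k2 : Iso (n + 3) (sh (j + 2) (ov a m) ++
        ((sh (j + 1) (ov a m) ++ [pX (n + 1) a]) ++ ([pX n a] ++ v)))
      (sh (j + 2) (ov a m) ++
        (([pX (n + 1) a] ++ sh (j + 1) (ov a m)) ++ ([pX n a] ++ v))) :=
    Iso.mid _ _ (o1.add 1) k1
  have k3 : Iso (n + 1) ([pU j] ++ (sh (j + 2) (ov a m) ++
        ((sh (j + 1) (ov a m) ++ [pX (n + 1) a]) ++ ([pX n a] ++ v))))
      ([pU j] ++ (sh (j + 2) (ov a m) ++
        (([pX (n + 1) a] ++ sh (j + 1) (ov a m)) ++ ([pX n a] ++ v)))) :=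
    Iso.left (k := n + 3) ⟨by show j + 0 ≤ n + 1; omega, by show n + 1 - 0 + 2 = n + 3; omega⟩ k2
  have k4 := Iso.left hu k3
  have e3 : u ++ (Q ++ ([pX (n + 1) a, pX n a] ++ v)) =
      u ++ ([pU j] ++ (sh (j + 2) (ov a m) ++
        ((sh (j + 1) (ov a m) ++ [pX (n + 1) a]) ++ ([pX n a] ++ v)))) := by
    rw [hQ]
    simp only [List.append_assoc, List.cons_append, List.nil_append]
  have e4 : u ++ (pU j :: (sh (j + 2) (ov a (m + 1)) ++ (sh (j + 1) (ov a (m + 1)) ++ v))) =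
      u ++ ([pU j] ++ (sh (j + 2) (ov a m) ++
        (([pX (n + 1) a] ++ sh (j + 1) (ov a m)) ++ ([pX n a] ++ v)))) := by
    rw [s1, s2]
    simp only [List.append_assoc, List.cons_append, List.nil_append]
  rw [e3] at c5
  rw [e4]
  exact (c1.trans (c2.trans (c5.trans k4))).symm

theorem thm_Flip (h : St_Turn) : St_Flip := by
  intro u v j m
  induction m generalizing u v j with
  | zero => intro _ _; exact Iso.refl _ _
  | succ m ih =>
    intro hu hv
    have h1 := h true u v j m hu hv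
    have h2 := h false u v j m hu hv
    have en : j + 1 + (m + 1) = j + m + 1 + 1 := by omega
    have en2 : j + 1 + 1 + m = j + m + 1 + 1 := by omega
    have hu' : Ok (pU 0 :: (sh 1 u ++ [pN (j + m + 2)])) 0 (j + 1 + 1 + m) := by
      rw [en] at hu
      rw [en2]
      exact Turn_okU hu
    have hv' : Ok (pU (j + m + 2) :: (sh 1 v ++ [pN 0])) (j + 1 + 1 + m) 0 := by
      rw [en] at hv
      rw [en2]
      exact Turn_okN hv
    exact h1.trans ((ih _ _ _ hu' hv').trans h2.symm)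

end Pool.Agent.ARK
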