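import Pool.Agent.ARK.Kbr
import Pool.Agent.ARK.KbA
import Pool.Agent.ARK.KbB
import Pool.Agent.ARK.KbC
import Pool.Agent.ARK.Kis
import Pool.Agent.ARK.Kfin
import Pool.Agent.ARK.Rdy
import Pool.Agent.ARK.Out
import Pool.Agent.ARK.PX
import Pool.Agent.ARK.PUN
import Pool.Agent.ARK.Side
import Pool.Agent.ARK.Turn
import Pool.Agent.ARK.Tail

/-!
# Assembly: arborescent knotoids of height at most one
-/

set_option autoImplicit false

namespace Pool.Agent.ARK

open LaurentPolynomial Pool.Agent.ARB Pool.Agent.Helper2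

theorem all_Flip : St_Flip := thm_Flip (thm_Turn thm_Tail thm_Head)

theorem all_Long : St_Long :=
  thm_Long (thm_Rdy (thm_Out (thm_PX1 all_Flip) (thm_PX2 all_Flip) thm_PL thm_PR thm_PU thm_PN)
    thm_PN)

theorem all_Kbr : St_Kbr := thm_Kbr thm_KbA (thm_KbC thm_KbB)

theorem all_Kfin (R : Arb) (D : List KSlice) (hD : kforget D = kn R.word)
    (hf : (T 4 + 1 : LaurentPolynomial ℤ) ^ 3 ∣ kPoly D - 1) : KIso 0 (kforget D) triv :=
  thm_Kfin all_Long all_Kbr thm_Kis R D hD hf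

end Pool.Agent.ARK
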