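import Pool.Agent.ARB.Bridge
import Pool.Agent.ARB.SecB

/-!
# ARK: the grading of the bracket pair

The sum `γ + β` of the coefficients of an arborescent tangle is a unit only if one of the
coefficients vanishes; then the numerical invariants are those of a trivial tangle.
-/

set_option autoImplicit false

namespace Pool.Agent.ARK

open LaurentPolynomial Pool.Agent.Helper2 Pool.Agent.ARB

/-- Laurent polynomials with exponents in one class modulo 4 -/
noncomputable def gr (r : ZMod 4) : AddSubgroup (LaurentPolynomial ℤ) :=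
  AddSubgroup.closure {f | ∃ k : ℤ, (k : ZMod 4) = r ∧ f = T k}

theorem gr_T (k : ℤ) : (T k : LaurentPolynomial ℤ) ∈ gr (k : ZMod 4) :=
  AddSubgroup.subset_closure ⟨k, rfl, rfl⟩

theorem gr_T' {k : ℤ} {r : ZMod 4} (h : (k : ZMod 4) = r) : (T k : LaurentPolynomial ℤ) ∈ gr r :=
  AddSubgroup.subset_closure ⟨k, h, rfl⟩

theorem gr_mul {r s t : ZMod 4} {f g : LaurentPolynomial ℤ} (hf : f ∈ gr r) (hg : g ∈ gr s)
    (h : r + s = t) : f * g ∈ gr t := by
  subst h
  induction hf using AddSubgroup.closure_induction with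
  | mem f hf =>
      obtain ⟨k, hk, rfl⟩ := hf
      induction hg using AddSubgroup.closure_induction with
      | mem g hg =>
          obtain ⟨l, hl, rfl⟩ := hg
          rw [← T_add]
          exact gr_T' (by push_cast; rw [hk, hl])
      | zero =>
          rw [mul_zero]
          exact zero_mem _
      | add a b _ _ ha hb =>
          rw [mul_add]
          exact add_mem ha hb
      | neg a _ ha =>
          rw [mul_neg]
          exact neg_mem ha
  | zero =>
      rw [zero_mul]
      exact zero_mem _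
  | add a b _ _ ha hb =>
      rw [add_mul]
      exact add_mem ha hb
  | neg a _ ha =>
      rw [neg_mul]
      exact neg_mem ha

theorem gr_coeff {r : ZMod 4} {f : LaurentPolynomial ℤ} (hf : f ∈ gr r) {n : ℤ}
    (hn : (n : ZMod 4) ≠ r) : f.coeff n = 0 := by
  induction hf using AddSubgroup.closure_induction with
  | mem f hf =>
      obtain ⟨k, hk, rfl⟩ := hf
      rw [T_apply, if_neg]
      rintro rfl
      exact hn hk
  | zero => rfl
  | add a b _ _ ha hb =>
      rw [AddMonoidAlgebra.coeff_add, Finsupp.add_apply, ha, hb, add_zero]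
  | neg a _ ha =>
      rw [AddMonoidAlgebra.coeff_neg, Finsupp.neg_apply, ha, neg_zero]

theorem gr_loop : loopVal ∈ gr 2 := by
  rw [loopVal]
  refine neg_mem (add_mem (gr_T' rfl) (gr_T' ?_))
  decide

/-- the grading of the pair: `β` lives in a class `r`, `γ` in the class `r + 2` -/
theorem pair_gr (R : Arb) : ∃ r : ZMod 4, R.pair.2 ∈ gr r ∧ R.pair.1 ∈ gr (r + 2) := by
  induction R with
  | zero =>
      refine ⟨0, ?_, zero_mem _⟩
      show (1 : LaurentPolynomial ℤ) ∈ gr 0
      rw [← T_zero]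
      exact gr_T' (by norm_num)
  | cross p =>
      cases p
      · exact ⟨-1, gr_T' (by norm_num), gr_T' (by decide)⟩
      · exact ⟨1, gr_T' (by norm_num), gr_T' (by decide)⟩
  | sum S R ihS ihR =>
      obtain ⟨r, h1, h2⟩ := ihS
      obtain ⟨s, h3, h4⟩ := ihR
      refine ⟨r + s, gr_mul h1 h3 rfl, ?_⟩
      refine add_mem (add_mem (gr_mul h2 h3 (by ring)) (gr_mul h1 h4 (by ring))) ?_
      refine gr_mul gr_loop (gr_mul h2 h4 rfl) ?_
      have h5 : (2 : ZMod 4) + 2 = 0 := by decide
      linear_combination h5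
  | rot S ih =>
      obtain ⟨r, h1, h2⟩ := ih
      refine ⟨r + 2, h2, ?_⟩
      have h5 : (2 : ZMod 4) + 2 = 0 := by decide
      have h6 : r + 2 + 2 = r := by linear_combination h5
      rw [h6]
      exact h1

theorem gr_split {r s : ZMod 4} (hrs : r ≠ s) {f g u : LaurentPolynomial ℤ} (hf : f ∈ gr r)
    (hg : g ∈ gr s) (hu : u ∈ gr r) (h : f + g = u) : f = u ∧ g = 0 := by
  have hg0 : g = 0 := by
    apply LaurentPolynomial.ext
    intro n
    show g.coeff n = 0
    by_cases hn : (n : ZMod 4) = s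
    · have hn' : (n : ZMod 4) ≠ r := fun e => hrs (e.symm.trans hn)
      have h1 := gr_coeff hf hn'
      have h2 := gr_coeff hu hn'
      have h3 := congrArg (fun x : LaurentPolynomial ℤ => x.coeff n) h
      simp only [AddMonoidAlgebra.coeff_add, Finsupp.add_apply] at h3
      rw [h1, h2, zero_add] at h3
      exact h3
    · exact gr_coeff hg hn
  refine ⟨?_, hg0⟩
  rw [← h, hg0, add_zero]

/-- If `γ + β` is a unit, then one of them is `0` and the other one is the unit. -/
theorem pair_cases (R : Arb) (h : IsU (R.pair.1 + R.pair.2)) :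
    (R.pair.1 = 0 ∧ IsU R.pair.2) ∨ (IsU R.pair.1 ∧ R.pair.2 = 0) := by
  obtain ⟨r, h1, h2⟩ := pair_gr R
  have hrs : r ≠ r + 2 := by
    intro e
    have h5 : (2 : ZMod 4) = 0 := by linear_combination -e
    exact absurd h5 (by decide)
  obtain ⟨k, hk⟩ := h
  have hu : (R.pair.1 + R.pair.2) ∈ gr (k : ZMod 4) := by
    rcases hk with hk | hk <;> rw [hk]
    · exact gr_T k
    · exact neg_mem (gr_T k)
  have hU : IsU (R.pair.1 + R.pair.2) := ⟨k, hk⟩
  have hne : R.pair.1 + R.pair.2 ≠ 0 := by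
    have hT : (T k : LaurentPolynomial ℤ) ≠ 0 := by
      intro e
      have := congrArg (fun x : LaurentPolynomial ℤ => x.coeff k) e
      simp at this
    rcases hk with hk | hk <;> rw [hk]
    · exact hT
    · exact neg_ne_zero.2 hT
  by_cases hr : (k : ZMod 4) = r
  · rw [hr] at hu
    obtain ⟨e1, e2⟩ := gr_split hrs h1 h2 hu (add_comm _ _)
    exact Or.inl ⟨e2, by rw [e1]; exact hU⟩
  · by_cases hs : (k : ZMod 4) = r + 2
    · rw [hs] at hu
      obtain ⟨e1, e2⟩ := gr_split hrs.symm h2 h1 hu rfl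
      exact Or.inr ⟨by rw [e1]; exact hU, e2⟩
    · exfalso
      apply hne
      apply LaurentPolynomial.ext
      intro n
      show (R.pair.1 + R.pair.2).coeff n = 0
      by_cases hn : (n : ZMod 4) = k
      · rw [AddMonoidAlgebra.coeff_add, Finsupp.add_apply, gr_coeff h1 (by rw [hn]; exact hr),
          gr_coeff h2 (by rw [hn]; exact hs), add_zero]
      · exact gr_coeff hu hn

/-- A tangle with the bracket pair `(0, unit)` has the numerical invariants of the tangle 0. -/
theorem jet_zero (R : Arb) (h1 : R.pair.1 = 0) (h2 : IsU R.pair.2) :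
    Sim R.jet Jet.zero := by
  obtain ⟨P⟩ := exEvPt
  obtain ⟨k, g0, g1, g2, b0, b1, b2, hk, hg0, hg1, hg2, hb0, hb1, hb2, hp, hq, hw, hG, hF,
    hH⟩ := pair_jet P R
  have hk0 : k ≠ 0 := by
    rintro rfl
    norm_num at hk
  have hI := Complex.I_sq
  have hI0 := Complex.I_ne_zero
  rw [h1, map_zero, map_zero] at hg0 hg1 hg2
  have z0 : g0 = 0 := by
    have := mul_eq_zero.1 hg0.symm
    rcases this with h | h
    · exact absurd h (mul_ne_zero (neg_ne_zero.2 hI0) hk0)
    · exact h
  have z1 : g1 = 0 := by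
    have := mul_eq_zero.1 hg1.symm
    rcases this with h | h
    · exact absurd h (mul_ne_zero (neg_ne_zero.2 hI0) hk0)
    · exact h
  have z2 : g2 = 0 := by
    have := mul_eq_zero.1 hg2.symm
    rcases this with h | h
    · exact absurd h (mul_ne_zero (neg_ne_zero.2 hI0) hk0)
    · exact h
  have hb : b0 ^ 8 = 1 ∧ 2 * b0 * b2 = b1 ^ 2 := by
    have key : ∀ (e : ℂ) (m : PowerSeries ℂ), e ^ 2 = 1 → PowerSeries.coeff 0 m ^ 8 = 1 →
        2 * PowerSeries.coeff 0 m * PowerSeries.coeff 2 m = PowerSeries.coeff 1 m ^ 2 →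
        k * b0 = e * PowerSeries.coeff 0 m → k * b1 = e * PowerSeries.coeff 1 m →
        k * b2 = e * PowerSeries.coeff 2 m → b0 ^ 8 = 1 ∧ 2 * b0 * b2 = b1 ^ 2 := by
      intro e m he m8 mm c0 c1 c2
      constructor
      · have h8 : (k * b0) ^ 8 = (e * PowerSeries.coeff 0 m) ^ 8 := by rw [c0]
        have e8 : e ^ 8 = 1 := by
          have : e ^ 8 = (e ^ 2) ^ 4 := by ring
          rw [this, he]
          norm_num
        rw [mul_pow, mul_pow, hk, e8, m8, one_mul, one_mul] at h8
        exact h8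
      · have h3 : k ^ 2 * (2 * b0 * b2 - b1 ^ 2) = 0 := by
          linear_combination (2 * k * b2) * c0 - (k * b1 + e * PowerSeries.coeff 1 m) * c1 +
            (2 * e * PowerSeries.coeff 0 m) * c2 + e ^ 2 * mm
        rcases mul_eq_zero.1 h3 with h | h
        · exact absurd h (pow_ne_zero 2 hk0)
        · exact sub_eq_zero.1 h
    obtain ⟨n, hn | hn⟩ := h2
    · obtain ⟨m8, mm⟩ := zpow_jet P n
      rw [hn, P.ev_T] at hb0 hb1 hb2
      refine key 1 _ (by norm_num) m8 mm ?_ ?_ ?_
      · rw [one_mul]; exact hb0.symm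
      · rw [one_mul]; exact hb1.symm
      · rw [one_mul]; exact hb2.symm
    · obtain ⟨m8, mm⟩ := zpow_jet P n
      rw [hn, map_neg, P.ev_T, map_neg] at hb0 hb1 hb2
      refine key (-1) _ (by norm_num) m8 mm ?_ ?_ ?_
      · rw [neg_one_mul]; exact hb0.symm
      · rw [neg_one_mul]; exact hb1.symm
      · rw [neg_one_mul]; exact hb2.symm
  have qp : R.jet.p = 0 := by
    have : ((R.jet.p : ℚ) : ℂ) = 0 := by rw [hp, z0]
    exact_mod_cast this
  have qw : R.jet.w = 0 := by
    have : ((R.jet.w : ℚ) : ℂ) = 0 := by rw [hw, z0, z1]; ring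
    exact_mod_cast this
  have qG : R.jet.G = 0 := by
    have : ((R.jet.G : ℚ) : ℂ) = 0 := by rw [hG, z0, z1]; ring
    exact_mod_cast this
  have qF : R.jet.F = 0 := by
    have : ((R.jet.F : ℚ) : ℂ) = 0 := by rw [hF, z0, z1, z2]; ring
    exact_mod_cast this
  have qH : R.jet.H = 0 := by
    have : ((R.jet.H : ℚ) : ℂ) = 0 := by rw [hH]; linear_combination -hb.2
    exact_mod_cast this
  have qq : R.jet.q = 1 ∨ R.jet.q = -1 := by
    have h8 := hb.1
    rw [← hq] at h8
    have h9 : R.jet.q ^ 8 = 1 := by exact_mod_cast h8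
    have h10 : R.jet.q ^ 2 = 1 := by
      have : (R.jet.q ^ 2) ^ 4 = 1 := by rw [← pow_mul]; exact h9
      exact (pow_eq_one_iff_of_nonneg (sq_nonneg _) (by norm_num)).1 this
    have h11 : (R.jet.q - 1) * (R.jet.q + 1) = 0 := by linear_combination h10
    rcases mul_eq_zero.1 h11 with h | h
    · left; linear_combination h
    · right; linear_combination h
  rcases qq with qq | qq
  · left
    ext <;> simp [Jet.zero, qp, qq, qw, qG, qF, qH]
  · right
    ext <;> simp [Jet.zero, Jet.neg, qp, qq, qw, qG, qF, qH]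

/-- the data needed for the topological part, for the pair `(0, unit)` -/
theorem num_zero (R : Arb) (h1 : R.pair.1 = 0) (h2 : IsU R.pair.2) :
    R.pq.1 = 0 ∧ R.pq.2.natAbs = 1 ∧ R.jet.Om = -1 ∧ SameSlope R .zero ∧
      (Arb.sum R infA).pq.1.natAbs = 1 ∧ (Arb.sum R infA).jet.E = 0 := by
  have hs := jet_zero R h1 h2
  have hpq := jet_pq R
  have hp : R.pq.1 = 0 := by
    have h3 : R.jet.p = 0 := by
      rcases hs with h | h <;> rw [h] <;> simp [Jet.zero, Jet.neg]
    rw [hpq.1] at h3
    exact_mod_cast h3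
  have hq : R.pq.2 = 1 ∨ R.pq.2 = -1 := by
    rcases hs with h | h
    · left
      have h3 : R.jet.q = 1 := by rw [h]; rfl
      rw [hpq.2] at h3
      exact_mod_cast h3
    · right
      have h3 : R.jet.q = -1 := by rw [h]; rfl
      rw [hpq.2] at h3
      exact_mod_cast h3
  have hO : R.jet.Om = -1 := by
    rcases hs with h | h <;> rw [h] <;> norm_num [Jet.zero, Jet.neg, Jet.Om]
  have hE : (R.jet.sum infA.jet).E = 0 := by
    rw [(hs.sumL infA.jet).E]
    norm_num [infA, Arb.jet, Jet.rot, Jet.zero, Jet.sum, Jet.E, Jet.Q]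
  refine ⟨hp, by rcases hq with h | h <;> rw [h] <;> rfl, hO, ?_, ?_, hE⟩
  · rcases hq with h | h
    · exact Or.inl ⟨hp, h⟩
    · exact Or.inr ⟨by rw [hp]; rfl, h⟩
  · simp only [infA, Arb.pq]
    rw [hp]
    rcases hq with h | h <;> rw [h] <;> rfl

/-- THE CASES: if `γ + β` is a unit then the tangle or its rotation has the numerical invariants of
the tangle 0. -/
theorem num_cases (R : Arb) (h : IsU (R.pair.1 + R.pair.2)) :
    ∃ R' : Arb, (R' = R ∨ R' = .rot R) ∧ R'.pair.1 = 0 ∧ IsU R'.pair.2 ∧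
      R'.jet.Om = -1 ∧ SameSlope R' .zero ∧
      (Arb.sum R' infA).pq.1.natAbs = 1 ∧ (Arb.sum R' infA).jet.E = 0 := by
  rcases pair_cases R h with ⟨h1, h2⟩ | ⟨h1, h2⟩
  · obtain ⟨_, _, a, b, c, d⟩ := num_zero R h1 h2
    exact ⟨R, Or.inl rfl, h1, h2, a, b, c, d⟩
  · obtain ⟨_, _, a, b, c, d⟩ := num_zero (.rot R) h2 h1
    exact ⟨.rot R, Or.inr rfl, h2, h1, a, b, c, d⟩

end Pool.Agent.ARK
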