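import Pool.Agent.ARB.Bridge
import Pool.Agent.ARB.SecB

/-!
# ARK: the algebraic half (bracket pair with `γ + β` a unit)

The exponents of `β` lie in one class modulo `4`, those of `γ` in the class shifted by `2`; so
`γ + β = ± A ^ k` forces `γ = 0` or `β = 0`.
-/

set_option autoImplicit false

namespace Pool.Agent.ARK

open LaurentPolynomial Pool.Agent.ARB

/-- all exponents are congruent to `r` modulo `4` -/
def Sup4 (r : ZMod 4) (f : LaurentPolynomial ℤ) : Prop :=
  ∀ n : ℤ, f.coeff n ≠ 0 → (n : ZMod 4) = r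

theorem Sup4.zero (r : ZMod 4) : Sup4 r 0 := by
  intro n hn
  simp at hn

theorem Sup4.T (n : ℤ) : Sup4 (n : ZMod 4) (LaurentPolynomial.T n) := by
  intro m hm
  rw [LaurentPolynomial.T_apply] at hm
  have h : m = n := by
    by_contra h
    exact hm (if_neg (Ne.symm h))
  rw [h]

theorem Sup4.neg {r : ZMod 4} {f : LaurentPolynomial ℤ} (h : Sup4 r f) : Sup4 r (-f) := by
  intro n hn
  refine h n ?_
  intro h0
  apply hn
  rw [AddMonoidAlgebra.coeff_neg, Finsupp.neg_apply, h0, neg_zero]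

theorem Sup4.add {r : ZMod 4} {f g : LaurentPolynomial ℤ} (h : Sup4 r f) (h' : Sup4 r g) :
    Sup4 r (f + g) := by
  intro n hn
  by_cases h1 : f.coeff n = 0
  · refine h' n ?_
    intro h2
    apply hn
    rw [AddMonoidAlgebra.coeff_add, Finsupp.add_apply, h1, h2, add_zero]
  · exact h n h1

theorem Sup4.mul {r s : ZMod 4} {f g : LaurentPolynomial ℤ} (h : Sup4 r f) (h' : Sup4 s g) :
    Sup4 (r + s) (f * g) := by
  classical
  intro n hn
  rw [AddMonoidAlgebra.coeff_mul] at hn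
  obtain ⟨a, ha, h1⟩ := Finset.exists_ne_zero_of_sum_ne_zero hn
  obtain ⟨b, hb, h2⟩ := Finset.exists_ne_zero_of_sum_ne_zero h1
  have hab : a + b = n := by
    by_contra h3
    exact h2 (if_neg h3)
  rw [← hab]
  push_cast
  rw [h a (Finsupp.mem_support_iff.1 ha), h' b (Finsupp.mem_support_iff.1 hb)]

theorem Sup4.cast {r s : ZMod 4} {f : LaurentPolynomial ℤ} (h : Sup4 r f) (e : r = s) :
    Sup4 s f := e ▸ h

/-- the grading of the bracket pair -/
theorem pair_sup (S : Arb) : ∃ r : ZMod 4, Sup4 r S.pair.2 ∧ Sup4 (r + 2) S.pair.1 := by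
  induction S with
  | zero =>
      refine ⟨0, ?_, Sup4.zero _⟩
      have := Sup4.T 0
      rw [T_zero] at this
      simpa [Arb.pair] using this
  | cross p =>
      cases p with
      | true =>
          refine ⟨1, ?_, ?_⟩
          · exact (Sup4.T 1).cast (by simp)
          · exact (Sup4.T (-1)).cast (by decide)
      | false =>
          refine ⟨-1, ?_, ?_⟩
          · exact (Sup4.T (-1)).cast (by simp)
          · exact (Sup4.T 1).cast (by decide)
  | sum S R ihS ihR =>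
      obtain ⟨r, hr1, hr2⟩ := ihS
      obtain ⟨s, hs1, hs2⟩ := ihR
      have hl : Sup4 2 Pool.Agent.Helper2.loopVal := by
        refine Sup4.neg (Sup4.add ((Sup4.T 2).cast (by simp)) ((Sup4.T (-2)).cast (by decide)))
      refine ⟨r + s, hr1.mul hs1, ?_⟩
      refine Sup4.add (Sup4.add ((hr2.mul hs1).cast (by ring)) ((hr1.mul hs2).cast (by ring))) ?_
      refine (hl.mul (hr2.mul hs2)).cast ?_
      have h4 : (4 : ZMod 4) = 0 := by decide
      linear_combination h4
  | rot S ih =>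
      obtain ⟨r, h1, h2⟩ := ih
      refine ⟨r + 2, h2, h1.cast ?_⟩
      have h4 : (4 : ZMod 4) = 0 := by decide
      linear_combination -h4

/-- If `γ + β` is a unit then one of `γ`, `β` is zero. -/
theorem unit_split (S : Arb) (h : IsU (S.pair.1 + S.pair.2)) :
    (S.pair.1 = 0 ∧ IsU S.pair.2) ∨ (IsU S.pair.1 ∧ S.pair.2 = 0) := by
  classical
  obtain ⟨r, h1, h2⟩ := pair_sup S
  obtain ⟨k, hk⟩ := h
  have hne : r ≠ r + 2 := by
    intro e
    have : (2 : ZMod 4) = 0 := by linear_combination -e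
    revert this
    decide
  -- the sum is supported at `k`
  have hs : ∀ n : ℤ, n ≠ k → (S.pair.1 + S.pair.2).coeff n = 0 := by
    intro n hn
    rcases hk with h | h <;> rw [h]
    · rw [LaurentPolynomial.T_apply, if_neg (Ne.symm hn)]
    · rw [AddMonoidAlgebra.coeff_neg, Finsupp.neg_apply, LaurentPolynomial.T_apply, if_neg (Ne.symm hn),
        neg_zero]
  have hadd : ∀ n : ℤ, (S.pair.1 + S.pair.2).coeff n = S.pair.1.coeff n + S.pair.2.coeff n := fun n => by
    rw [AddMonoidAlgebra.coeff_add, Finsupp.add_apply]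
  have z1 : ∀ n : ℤ, (n : ZMod 4) ≠ r + 2 → S.pair.1.coeff n = 0 := by
    intro n hn
    by_contra h
    exact hn (h2 n h)
  have z2 : ∀ n : ℤ, (n : ZMod 4) ≠ r → S.pair.2.coeff n = 0 := by
    intro n hn
    by_contra h
    exact hn (h1 n h)
  by_cases hr : (k : ZMod 4) = r
  · left
    have e1 : S.pair.1 = 0 := by
      refine LaurentPolynomial.ext fun n => ?_
      show S.pair.1.coeff n = 0
      by_cases hn : (n : ZMod 4) = r + 2
      · have hnk : n ≠ k := by
          rintro rfl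
          exact hne (hr.symm.trans hn)
        have h3 := hs n hnk
        rw [hadd, z2 n (by rw [hn]; exact hne.symm), add_zero] at h3
        exact h3
      · exact z1 n hn
    refine ⟨e1, k, ?_⟩
    rw [e1, zero_add] at hk
    exact hk
  · right
    have e2 : S.pair.2 = 0 := by
      refine LaurentPolynomial.ext fun n => ?_
      show S.pair.2.coeff n = 0
      by_cases hn : (n : ZMod 4) = r
      · have hnk : n ≠ k := by
          rintro rfl
          exact hr hn
        have h3 := hs n hnk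
        rw [hadd, z1 n (by rw [hn]; exact hne), zero_add] at h3
        exact h3
      · exact z2 n hn
    refine ⟨⟨k, ?_⟩, e2⟩
    rw [e2, add_zero] at hk
    exact hk

/-- jets of a tangle with `γ = 0` and `β` a unit -/
theorem jet_of_zero (S : Arb) (h1 : S.pair.1 = 0) (h2 : IsU S.pair.2) :
    S.jet.p = 0 ∧ (S.jet.q = 1 ∨ S.jet.q = -1) ∧ S.jet.w = 0 ∧ S.jet.G = 0 ∧ S.jet.F = 0 ∧
      S.jet.H = 0 := by
  obtain ⟨P⟩ := exEvPt
  obtain ⟨k, g0, g1, g2, b0, b1, b2, hk, hg0, hg1, hg2, hb0, hb1, hb2, hp, hq, hw, hG, hF,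
    hH⟩ := pair_jet P S
  have hk0 : k ≠ 0 := by
    rintro rfl
    norm_num at hk
  have hc : -Complex.I * k ≠ 0 := mul_ne_zero (neg_ne_zero.2 Complex.I_ne_zero) hk0
  have g0' : g0 = 0 := by
    rw [h1, map_zero, map_zero] at hg0
    exact (mul_eq_zero.1 hg0.symm).resolve_left hc
  have g1' : g1 = 0 := by
    rw [h1, map_zero, map_zero] at hg1
    exact (mul_eq_zero.1 hg1.symm).resolve_left hc
  have g2' : g2 = 0 := by
    rw [h1, map_zero, map_zero] at hg2
    exact (mul_eq_zero.1 hg2.symm).resolve_left hc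
  have hu : ∃ (e : ℤ) (n : ℤ), (e = 1 ∨ e = -1) ∧ S.pair.2 = LaurentPolynomial.C e * T n := by
    obtain ⟨n, hn | hn⟩ := h2
    · exact ⟨1, n, Or.inl rfl, by rw [hn]; simp⟩
    · exact ⟨-1, n, Or.inr rfl, by rw [hn]; simp⟩
  obtain ⟨e, n, he, hn⟩ := hu
  obtain ⟨h8, hh⟩ := zpow_jet P n
  have hC : P.ev (LaurentPolynomial.C e) = PowerSeries.C (e : ℂ) := by
    simp [EvPt.ev]
  have hev : P.ev S.pair.2 = PowerSeries.C (e : ℂ) * ((P.a ^ n : (PowerSeries ℂ)ˣ) :
      PowerSeries ℂ) := by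
    rw [hn, map_mul, P.ev_T, hC]
  set m := ((P.a ^ n : (PowerSeries ℂ)ˣ) : PowerSeries ℂ) with hm
  rw [hev, PowerSeries.coeff_C_mul] at hb0 hb1 hb2
  have hee : ((e : ℤ) : ℂ) ^ 2 = 1 := by
    rcases he with h | h <;> rw [h] <;> norm_num
  have q8 : b0 ^ 8 = 1 := by
    have e8 : ((e : ℤ) : ℂ) ^ 8 = 1 := by
      have : ((e : ℤ) : ℂ) ^ 8 = (((e : ℤ) : ℂ) ^ 2) ^ 4 := by ring
      rw [this, hee]; norm_num
    have h9 : (((e : ℤ) : ℂ) * PowerSeries.coeff 0 m) ^ 8 = (k * b0) ^ 8 := by rw [hb0]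
    rw [mul_pow, mul_pow, e8, h8, hk] at h9
    linear_combination -h9
  have hq1 : S.jet.q = 1 ∨ S.jet.q = -1 := by
    rw [← hq] at q8
    have h2 : S.jet.q ^ 8 = 1 := by exact_mod_cast q8
    have h3 : S.jet.q ^ 2 = 1 := by
      have : (S.jet.q ^ 2) ^ 4 = 1 := by rw [← pow_mul]; exact h2
      exact (pow_eq_one_iff_of_nonneg (sq_nonneg _) (by norm_num)).1 this
    have h4 : (S.jet.q - 1) * (S.jet.q + 1) = 0 := by linear_combination h3
    rcases mul_eq_zero.1 h4 with h | h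
    · left; linear_combination h
    · right; linear_combination h
  have hH0 : k ^ 2 * (2 * b0 * b2 - b1 ^ 2) = 0 := by
    have : k ^ 2 * (2 * b0 * b2 - b1 ^ 2) = 2 * (k * b0) * (k * b2) - (k * b1) ^ 2 := by ring
    rw [this, ← hb0, ← hb1, ← hb2]
    linear_combination ((e : ℤ) : ℂ) ^ 2 * hh
  have hH1 : 2 * b0 * b2 - b1 ^ 2 = 0 := (mul_eq_zero.1 hH0).resolve_left (pow_ne_zero 2 hk0)
  refine ⟨?_, hq1, ?_, ?_, ?_, ?_⟩
  · rw [g0'] at hp
    exact_mod_cast hp
  · rw [g0', g1'] at hw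
    have : ((S.jet.w : ℚ) : ℂ) = 0 := by rw [hw]; ring
    exact_mod_cast this
  · rw [g0', g1'] at hG
    have : ((S.jet.G : ℚ) : ℂ) = 0 := by rw [hG]; ring
    exact_mod_cast this
  · rw [g0', g1', g2'] at hF
    have : ((S.jet.F : ℚ) : ℂ) = 0 := by rw [hF]; ring
    exact_mod_cast this
  · have : ((S.jet.H : ℚ) : ℂ) = 0 := by rw [hH, hH1]; ring
    exact_mod_cast this

/-- What the induction of ARB needs: a tangle with `γ = 0` and `β` a unit has the slope of the
tangle 0, `Om = -1`, and `E = 0` after adding a crossing. -/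
theorem zero_data (S : Arb) (h1 : S.pair.1 = 0) (h2 : IsU S.pair.2) :
    SameSlope S .zero ∧ S.jet.Om = -1 ∧
      (Arb.sum S (.sum .zero (.cross true))).pq.1.natAbs = 1 ∧
      (Arb.sum S (.sum .zero (.cross true))).jet.E = 0 := by
  obtain ⟨hp, hq, hw, hG, hF, hH⟩ := jet_of_zero S h1 h2
  obtain ⟨jp, jq⟩ := jet_pq S
  have p0 : S.pq.1 = 0 := by
    rw [hp] at jp
    exact_mod_cast jp.symm
  have q1 : S.pq.2 = 1 ∨ S.pq.2 = -1 := by
    rw [jq] at hq
    rcases hq with h | h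
    · left; exact_mod_cast h
    · right; exact_mod_cast h
  have q2 : S.jet.q ^ 2 = 1 := by
    rcases hq with h | h <;> rw [h] <;> norm_num
  refine ⟨?_, ?_, ?_, ?_⟩
  · rcases q1 with h | h
    · exact Or.inl ⟨by rw [p0]; rfl, by rw [h]; rfl⟩
    · exact Or.inr ⟨by rw [p0]; rfl, by rw [h]; rfl⟩
  · rw [Jet.Om, hp, hw, q2]
    norm_num
  · rcases q1 with h | h <;> simp [Arb.pq, p0, h]
  · have e : (Arb.sum S (.sum .zero (.cross true))).jet =
        S.jet.sum (Jet.zero.sum (Jet.cross true)) := rfl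
    rw [e, Jet.E]
    simp only [Jet.sum, Jet.zero, Jet.cross, Jet.Q, hp, hw, hG, hF, hH]
    simp only [if_true]
    ring

end Pool.Agent.ARK
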