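import Pool.Agent.ARK.KdS

/-!
# The bracket of the knotoid of an arborescent tangle
-/

set_option autoImplicit false

namespace Pool.Agent.ARK

open LaurentPolynomial Pool.Agent.ARB Pool.Agent.Helper2

private def kbrF (s : KSlice) : KPiece := match s with
  | .cup i _ => ⟨.U, i⟩
  | .cap i => ⟨.N, i⟩
  | .cross i p => ⟨.X p, i⟩
  | .born i _ => ⟨.B, i⟩
  | .dies i => ⟨.E, i⟩

private theorem kbr_forget (D : List KSlice) : kforget D = D.map kbrF := rfl

private theorem kbr_ok : ∀ (w : List Slice) (n m : ℕ), ARB.Ok (forget w) n m →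
    Helper2.Ok w n m := by
  intro w
  induction w with
  | nil => intro n m h; exact h
  | cons s w ih =>
    intro n m h
    cases s with
    | cup i u => exact ⟨h.1, ih _ _ h.2⟩
    | cap i => exact ⟨h.1, ih _ _ h.2⟩
    | cross i p =>
      refine ⟨h.1, ?_⟩
      have h1 : i + 2 ≤ n := h.1
      have h3 : Helper2.Ok w (n - 2 + 2) m := ih _ _ h.2
      have e : n - 2 + 2 = n := by omega
      rwa [e] at h3

/-- pieces over unoriented pieces without endpoints -/
private theorem kbr_lift (v : Word) : ∀ D : List KSlice, D.map kbrF = emb v →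
    ∃ w : List Slice, D = up w ∧ forget w = v := by
  induction v with
  | nil =>
    intro D h
    have h1 : D = [] := List.map_eq_nil_iff.1 h
    exact ⟨[], h1, rfl⟩
  | cons s v ih =>
    intro D h
    obtain ⟨k, i⟩ := s
    have h' : D.map kbrF = ⟨Kind.emb k, i⟩ :: emb v := h
    obtain ⟨a, D', rfl, h1, h2⟩ := List.map_eq_cons_iff.1 h'
    obtain ⟨w, rfl, rfl⟩ := ih D' h2
    cases a with
    | cup j u =>
      cases k with
      | U =>
        have e : j = i := by simpa [kbrF, Kind.emb] using h1
        subst e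
        exact ⟨.cup j u :: w, rfl, rfl⟩
      | N => simp [kbrF, Kind.emb] at h1
      | X p => simp [kbrF, Kind.emb] at h1
    | cap j =>
      cases k with
      | U => simp [kbrF, Kind.emb] at h1
      | N =>
        have e : j = i := by simpa [kbrF, Kind.emb] using h1
        subst e
        exact ⟨.cap j :: w, rfl, rfl⟩
      | X p => simp [kbrF, Kind.emb] at h1
    | cross j q =>
      cases k with
      | U => simp [kbrF, Kind.emb] at h1
      | N => simp [kbrF, Kind.emb] at h1
      | X p =>
        have e : q = p ∧ j = i := by simpa [kbrF, Kind.emb] using h1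
        obtain ⟨rfl, rfl⟩ := e
        exact ⟨.cross j q :: w, rfl, rfl⟩
    | born j u => cases k <;> simp [kbrF, Kind.emb] at h1
    | dies j => cases k <;> simp [kbrF, Kind.emb] at h1

/-- the pieces of the knotoid of a tangle -/
private theorem kbr_split (D : List KSlice) (v : Word) (h : kforget D = kn v) :
    ∃ (w : List Slice) (u₀ u₁ : Bool), forget w = v ∧
      D = .born 0 u₀ :: .cup 1 u₁ :: (up w ++ [.dies 1, .cap 0]) := by
  rw [kbr_forget, kn] at h
  obtain ⟨a, D₁, rfl, h1, h2⟩ := List.map_eq_cons_iff.1 h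
  obtain ⟨b, D₂, rfl, h3, h4⟩ := List.map_eq_cons_iff.1 h2
  obtain ⟨D₃, D₄, rfl, h5, h6⟩ := List.map_eq_append_iff.1 h4
  obtain ⟨c, D₅, rfl, h7, h8⟩ := List.map_eq_cons_iff.1 h6
  obtain ⟨d, D₆, rfl, h9, h10⟩ := List.map_eq_cons_iff.1 h8
  have h11 : D₆ = [] := List.map_eq_nil_iff.1 h10
  subst h11
  obtain ⟨w, rfl, hw⟩ := kbr_lift v D₃ h5
  cases a <;> simp [kbrF] at h1
  subst h1
  cases b <;> simp [kbrF] at h3
  subst h3
  cases c <;> simp [kbrF] at h7
  subst h7
  cases d <;> simp [kbrF] at h9
  subst h9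
  exact ⟨w, _, _, hw, rfl⟩

private theorem kbr_states (w : List Slice) :
    kstates (up w ++ [.dies 1, .cap 0]) =
      (states w).map fun s => (s.1, up s.2 ++ [.dies 1, .cap 0]) := by
  induction w with
  | nil => rfl
  | cons s w ih =>
    cases s with
    | cup i u =>
      show (kstates (up w ++ [.dies 1, .cap 0])).map (fun t => (t.1, KSlice.cup i u :: t.2)) =
        ((states w).map fun t => (t.1, Slice.cup i u :: t.2)).map
          fun s => (s.1, up s.2 ++ [.dies 1, .cap 0])
      rw [ih, List.map_map, List.map_map]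
      rfl
    | cap i =>
      show (kstates (up w ++ [.dies 1, .cap 0])).map (fun t => (t.1, KSlice.cap i :: t.2)) =
        ((states w).map fun t => (t.1, Slice.cap i :: t.2)).map
          fun s => (s.1, up s.2 ++ [.dies 1, .cap 0])
      rw [ih, List.map_map, List.map_map]
      rfl
    | cross i p =>
      show ((kstates (up w ++ [.dies 1, .cap 0])).flatMap fun s =>
          [(s.1 + (if p then 1 else -1), s.2),
           (s.1 - (if p then 1 else -1), KSlice.cap i :: KSlice.cup i true :: s.2)]) =
        ((states w).flatMap fun s =>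
          [(s.1 + (if p then 1 else -1), s.2),
           (s.1 - (if p then 1 else -1), Slice.cap i :: Slice.cup i true :: s.2)]).map
          fun s => (s.1, up s.2 ++ [.dies 1, .cap 0])
      rw [ih, List.flatMap_map, List.map_flatMap]
      rfl

theorem thm_Kbr (hA : St_KbA) (hC : St_KbC) : St_Kbr := by
  intro D R hD
  obtain ⟨w, u₀, u₁, hw, rfl⟩ := kbr_split D R.word hD
  have hok : Helper2.Ok w 2 2 := kbr_ok w 2 2 (by rw [hw]; exact ARB.okA R)
  rw [← hC w R hok hw]
  have e : kstates (.born 0 u₀ :: .cup 1 u₁ :: (up w ++ [.dies 1, .cap 0])) =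
      (states w).map fun s => (s.1, KSlice.born 0 u₀ :: KSlice.cup 1 u₁ ::
        (up s.2 ++ [.dies 1, .cap 0])) := by
    show ((kstates (up w ++ [.dies 1, .cap 0])).map (fun t => (t.1, KSlice.cup 1 u₁ :: t.2))).map
      (fun t => (t.1, KSlice.born 0 u₀ :: t.2)) = _
    rw [kbr_states, List.map_map, List.map_map]
    rfl
  rw [kbracket, e, List.map_map]
  congr 1
  apply List.map_congr_left
  intro s hs
  obtain ⟨h1, h2⟩ := states_ok w 2 2 hok s hs
  have h3 := hA s.2 h1 h2
  rw [h3, Nat.add_sub_cancel]
  rfl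

end Pool.Agent.ARK
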