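import Pool.Agent.ARB.Defs

/-!
# Knotoid diagrams in Morse position, their bracket, and arborescent knotoids of height at most one
-/

set_option autoImplicit false

namespace Pool.Agent.ARK

open LaurentPolynomial Pool.Agent.ARB Pool.Agent.Helper2

/-! ### oriented knotoid diagrams -/

/-- The elementary pieces of an oriented knotoid diagram in Morse position, read from bottom to
top. At every height the strands are numbered `0, 1, 2, ...` from left to right.
* `cup i u`, `cap i`, `cross i p`: a minimum, a maximum, a crossing, as in `Helper2.Slice`: the new
  strand in position `i` of a minimum is directed upwards iff `u = true`, the other one the other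
  way; if `p = true` the strand of the crossing from the lower left to the upper right is the
  over-strand;
* `born i u`: an endpoint of the diagram; from here a new strand in position `i` goes up, and it is
  directed upwards iff `u = true`;
* `dies i`: an endpoint of the diagram; the strand in position `i` ends here. -/
inductive KSlice where
  | cup (i : ℕ) (u : Bool)
  | cap (i : ℕ)
  | cross (i : ℕ) (p : Bool)
  | born (i : ℕ) (u : Bool)
  | dies (i : ℕ)
deriving DecidableEq

/-- The list of directions of the strands (`true` = upwards) just above a piece, in terms of the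
list of directions just below it; `none` if the piece does not fit. -/
def KSlice.dirs (o : List Bool) : KSlice → Option (List Bool)
  | .cup i u => if i ≤ o.length then some (o.take i ++ u :: (!u) :: o.drop i) else none
  | .cap i =>
      match o.drop i with
      | a :: b :: r => if a = b then none else some (o.take i ++ r)
      | _ => none
  | .cross i _ =>
      match o.drop i with
      | a :: b :: r => some (o.take i ++ b :: a :: r)
      | _ => none
  | .born i u => if i ≤ o.length then some (o.take i ++ u :: o.drop i) else none
  | .dies i =>
      match o.drop i with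
      | _ :: r => some (o.take i ++ r)
      | _ => none

/-- Directions of the strands above a stack of pieces. -/
def kdirs : List KSlice → List Bool → Option (List Bool)
  | [], o => some o
  | s :: w, o => (s.dirs o).bind (kdirs w)

/-- Follow the curves through one piece (`Helper2.Trace`: a supply of fresh names, the names of the
arcs to which the present strands belong, and the number of closed curves completed so far). -/
def kstep (t : Trace) : KSlice → Trace
  | .cup i u => t.step (.cup i u)
  | .cap i => t.step (.cap i)
  | .cross i p => t.step (.cross i p)
  | .born i _ => ⟨t.fresh + 1, t.names.take i ++ t.fresh :: t.names.drop i, t.closed⟩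
  | .dies i => ⟨t.fresh, t.names.take i ++ t.names.drop (i + 1), t.closed⟩

/-- The number of closed curves of a diagram. -/
def circles (D : List KSlice) : ℕ := (D.foldl kstep ⟨0, [], 0⟩).closed

/-- is the piece an endpoint? -/
def KSlice.isEnd : KSlice → Bool
  | .born _ _ => true
  | .dies _ => true
  | _ => false

/-- `D` is a knotoid diagram: the pieces fit together, start and end with no strand, the directions
agree, there is no closed curve, and there are exactly two endpoints. -/
def IsKnotoid (D : List KSlice) : Prop :=
  kdirs D [] = some [] ∧ circles D = 0 ∧ D.countP KSlice.isEnd = 2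

/-- The sign of a crossing: `p = true` means positive when both strands are directed upwards. -/
def KSlice.sign (o : List Bool) : KSlice → ℤ
  | .cross i p =>
      match o.drop i with
      | a :: b :: _ => if (a = b) ↔ (p = true) then 1 else -1
      | _ => 0
  | _ => 0

/-- Sum of the signs of the crossings of a stack of pieces. -/
def ksignSum : List KSlice → List Bool → ℤ
  | [], _ => 0
  | s :: w, o => s.sign o + ksignSum w ((s.dirs o).getD [])

/-- The writhe of an oriented diagram. -/
def kwrithe (D : List KSlice) : ℤ := ksignSum D []

/-- All states of a diagram, each given as `(number of A-smoothings minus number of B-smoothings,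
smoothed diagram)`. The two smoothings of a crossing are the vertical one (the crossing is
removed) and the horizontal one (a cap followed by a cup). For `p = true` the vertical one is of
type `A`, for `p = false` it is of type `B`. -/
def kstates : List KSlice → List (ℤ × List KSlice)
  | [] => [(0, [])]
  | .cross i p :: w =>
      (kstates w).flatMap fun s =>
        [(s.1 + (if p then 1 else -1), s.2),
         (s.1 - (if p then 1 else -1), .cap i :: .cup i true :: s.2)]
  | s :: w => (kstates w).map fun t => (t.1, s :: t.2)

/-- The bracket `∑ A^{σ(s)} d^{|s| - 1}`, `d = -(A^2 + A^{-2})`, of a knotoid diagram; a state `s` has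
`|s| = circles + 1` components, the circles and one interval. -/
noncomputable def kbracket (D : List KSlice) : LaurentPolynomial ℤ :=
  ((kstates D).map fun s => T s.1 * loopVal ^ circles s.2).sum

/-- The normalized bracket polynomial `(-A^3)^{-w(D)} ⟨D⟩`. -/
noncomputable def kPoly (D : List KSlice) : LaurentPolynomial ℤ :=
  (-1) ^ (kwrithe D).natAbs * T (-3 * kwrithe D) * kbracket D

/-! ### unoriented words and isotopy -/

/-- The kinds of pieces: cup, cap, crossing (as in `ARB.Kind`), start of a strand, end of a
strand. -/
inductive KKind where
  | U
  | N
  | X (p : Bool)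
  | B
  | E
deriving DecidableEq

/-- number of strands entering a piece from below -/
def KKind.inn : KKind → ℕ
  | .U => 0
  | .N => 2
  | .X _ => 2
  | .B => 0
  | .E => 1

/-- number of strands leaving a piece above -/
def KKind.out : KKind → ℕ
  | .U => 2
  | .N => 0
  | .X _ => 2
  | .B => 1
  | .E => 0

/-- A piece at position `i`: there are `i` strands to the left of it. -/
structure KPiece where
  k : KKind
  i : ℕ
deriving DecidableEq

/-- words, read from bottom to top -/
abbrev KWord := List KPiece

/-- `KOk w n m`: the word `w` fits on `n` strands and has `m` strands above it. -/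
def KOk : KWord → ℕ → ℕ → Prop
  | [], n, m => n = m
  | s :: w, n, m => s.i + s.k.inn ≤ n ∧ KOk w (n - s.k.inn + s.k.out) m

/-- the pieces without endpoints -/
def Kind.emb : Kind → KKind
  | .U => .U
  | .N => .N
  | .X p => .X p

/-- a word without endpoints -/
def emb (w : Word) : KWord := w.map fun s => ⟨Kind.emb s.k, s.i⟩

/-- The local moves: Reidemeister moves and planar isotopies away from the endpoints (`ARB.Loc`),
interchange of distant pieces, and the four ways to turn a short arc which ends at an endpoint.
No strand is moved over or under an endpoint. -/
inductive KLoc : KWord → KWord → Prop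
  | old (a b : Word) : Loc a b → KLoc (emb a) (emb b)
  | swap (s t : KKind) (i k : ℕ) :
      KLoc [⟨s, i⟩, ⟨t, i + s.out + k⟩] [⟨t, i + s.inn + k⟩, ⟨s, i⟩]
  | UE (i : ℕ) : KLoc [⟨.U, i⟩, ⟨.E, i⟩] [⟨.B, i⟩]
  | UE' (i : ℕ) : KLoc [⟨.U, i⟩, ⟨.E, i + 1⟩] [⟨.B, i⟩]
  | BN (i : ℕ) : KLoc [⟨.B, i⟩, ⟨.N, i⟩] [⟨.E, i⟩]
  | BN' (i : ℕ) : KLoc [⟨.B, i + 1⟩, ⟨.N, i⟩] [⟨.E, i⟩]

/-- One move, inside a word on `n` strands. -/
def KStep (n : ℕ) (w w' : KWord) : Prop :=
  ∃ (u a b v : KWord) (k l : ℕ), w = u ++ (a ++ v) ∧ w' = u ++ (b ++ v) ∧ KOk u n k ∧ KOk a k l ∧
    KOk b k l ∧ (KLoc a b ∨ KLoc b a)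

/-- Isotopy of words on `n` strands. -/
def KIso (n : ℕ) : KWord → KWord → Prop := Relation.ReflTransGen (KStep n)

/-- the diagram of the trivial knotoid without crossings -/
def triv : KWord := [⟨.B, 0⟩, ⟨.E, 0⟩]

/-- forget the directions -/
def kforget (D : List KSlice) : KWord :=
  D.map fun s => match s with
    | .cup i _ => ⟨.U, i⟩
    | .cap i => ⟨.N, i⟩
    | .cross i p => ⟨.X p, i⟩
    | .born i _ => ⟨.B, i⟩
    | .dies i => ⟨.E, i⟩

/-- The knotoid of a tangle with four ends: the lower left and the upper right end of the tangle are
the two endpoints of the knotoid, the other two ends are joined by an arc which runs around the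
upper right end. -/
def kn (w : Word) : KWord := ⟨.B, 0⟩ :: ⟨.U, 1⟩ :: (emb w ++ [⟨.E, 1⟩, ⟨.N, 0⟩])

end Pool.Agent.ARK
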