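import Pool.Agent.ARB.Pair
import Pool.Agent.ARK.KdDef

/-!
# Knotoid diagrams in Morse position: statements
-/

set_option autoImplicit false

namespace Pool.Agent.ARK

open LaurentPolynomial Pool.Agent.ARB Pool.Agent.Helper2

/-! ### frozen statements -/

/-- [Kbr] The bracket of the knotoid of an arborescent tangle. Proof. Let `sl` be the slices of
`R.word` (crossings, cups `.cup i true`, caps; the bracket does not depend on directions), a list
`s` of link slices for each state, `Helper2.Ok s 2 2`, `NoCross s` (`Helper2.states_ok`). (1) For such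
`s` the closed curves of `[born 0, cup 1] ++ s ++ [dies 1, cap 0]` and of
`[cup 0, cup 1] ++ s ++ [cross 0, cap 1, cap 0]` differ by one: the list of names of the second is that
of the first with one more name at the end, `[a, b, c]` and `[a, b, c, d]` after `s`, with the same
number of closed curves, and every name of the second list occurs exactly twice. (2) As in
`Helper2.exists_vec` (`type_of_noCross`, `curves_pre`; the diagram `t : 4 → 0` may contain crossings
which are not smoothed) there are `x, y` with `∑ A^σ d^(curves ([cup 0, cup 1] ++ s ++ t) - 1) =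
x d^(curves ([cup 0, cup 0] ++ t) - 1) + y d^(curves ([cup 0, cup 1] ++ t) - 1)` for all `t`. For
`t = [cap 1, cap 0]`, `[cap 0, cap 0]` this is `x + y d = γ + d β`, `x d + y = γ d + β` by `thm_BrRun`,
`thm_PairRun`, `thm_Vert` (`ARB`), so `x = γ`, `y = β` (`d^2 ≠ 1`), and for
`t = [cross 0, cap 1, cap 0]` it is `x + y`. -/
def St_Kbr : Prop := ∀ (D : List KSlice) (R : Arb), kforget D = kn R.word →
  kbracket D = R.pair.1 + R.pair.2

/-- [Kis] The isotopy class of the knotoid of a tangle. Proof. An isotopy of words without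
endpoints is an isotopy (`KLoc.old`; `KOk (emb w) n m ↔ Ok w n m`), in every context. `kn [] =
[B 0, U 1, E 1, N 0] ~ [B 0, B 1, N 0] ~ [B 0, E 0]` (`UE`, `BN'`); `kn [U 2, N 0] =
[B 0, U 1, U 2, N 0, E 1, N 0] ~ [B 0, U 1, N 0, U 0, E 1, N 0]` (`swap`) `~ [B 0, U 0, E 1, N 0]`
(`zag`) `~ [B 0, B 0, N 0] ~ [B 0, E 0]` (`UE'`, `BN`). -/
def St_Kis : Prop := (∀ w w' : Word, Ok w 2 2 → Iso 2 w w' → KIso 0 (kn w) (kn w')) ∧
  KIso 0 (kn []) triv ∧ KIso 0 (kn (rotW [])) triv

/-- [Kfin] Proof. `IsU (R.pair.1 + R.pair.2)` by [Kbr] (as in `ARB.thm_FArb`), then `num_cases`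
(`ARK/Alg.lean`), [LemL] and [Kis]; `thm_RR` for `rot R`. -/
def St_Kfin : Prop := ∀ (R : Arb) (D : List KSlice), IsKnotoid D → kforget D = kn R.word →
  kPoly D = 1 → KIso 0 (kforget D) triv

end Pool.Agent.ARK
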