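import Pool.Agent.ARK.Kd
import Pool.Agent.ARB.PairRun
import Pool.Agent.ARB.BrRun
import Pool.Agent.ARB.Vert
import Pool.Agent.Helper2.FillVec

/-!
# The bracket of the knotoid of a tangle: frozen statements of the parts
-/

set_option autoImplicit false

namespace Pool.Agent.ARK

open LaurentPolynomial Pool.Agent.ARB Pool.Agent.Helper2

/-- a piece of a link diagram as a piece of a knotoid diagram -/
def upS : Slice → KSlice
  | .cup i u => .cup i u
  | .cap i => .cap i
  | .cross i p => .cross i p

/-- a stack of pieces of a link diagram -/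
def up (w : List Slice) : List KSlice := w.map upS

/-- [KbA] the closed curves of a state of the knotoid of a tangle. Proof. (1) For `s` without
crossings, `Helper2.Ok s 2 2`, and the traces `t₁ = ⟨f, l, c⟩`, `t₂ = ⟨f, l ++ [d], c⟩` with
`l.length ≥ 2`, `s` leads to `⟨f', l', c'⟩` and `⟨f', l' ++ [d'], c'⟩` (induction on `s` with
`Helper2.Ok s n m`, `n ≤ l.length`; a cap which renames also renames `d`). The traces after
`[born 0, cup 1]` and `[cup 0, cup 1]` are `⟨2, [0, 1, 1], 0⟩` and `⟨2, [0, 1, 1, 0], 0⟩`. So after `s` they
are `[a, b, c]` and `[a, b, c, d]`. (2) every name of the second list occurs exactly twice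
(invariant: each name which occurs in the list occurs exactly twice and is smaller than `fresh`;
maybe there is such a lemma in `Helper2`, where `curves_pos` etc. are proved). So `a = b, c = d` or
`a = c, b = d` or `a = d, b = c`, and (3) in each case the last pieces are computed by hand. -/
def St_KbA : Prop := ∀ s : List Slice, NoCross s → Helper2.Ok s 2 2 →
  curves ([.cup 0 true, .cup 1 true] ++ (s ++ [.cross 0 true, .cap 1, .cap 0])) =
    circles ([.born 0 true, .cup 1 true] ++ (up s ++ [.dies 1, .cap 0])) + 1

/-- [KbB] the bracket vector, also for diagrams `t` with crossings which are not smoothed. Proof as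
for `Helper2.exists_vec`: for each state `s.2` of `w`, `type_of_noCross` for `[cup 0, cup 1] ++ s.2`
and `curves_pre` give `curves ([cup 0, cup 1] ++ s.2 ++ t) = e + curves (mw ty ++ t)` for all `t`. -/
def St_KbB : Prop := ∀ w : List Slice, Helper2.Ok w 2 2 → ∃ x y : LaurentPolynomial ℤ,
  ∀ t : List Slice, Helper2.Ok t 4 0 →
    ((states w).map fun s => (T s.1 : LaurentPolynomial ℤ) * loopVal ^
      (curves ([.cup 0 true, .cup 1 true] ++ (s.2 ++ t)) - 1)).sum =
    x * loopVal ^ (curves (mw false ++ t) - 1) + y * loopVal ^ (curves (mw true ++ t) - 1)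

/-- [KbC] the vector of an arborescent tangle. Proof. Let `x, y` be as in [KbB] for
`w = arbS R` (`forget (arbS R) = R.word`). For `t = [cap 1, cap 0]` and `t = [cap 0, cap 0]` the left side
of [KbB] is the bracket of the link diagram `[cup 0, cup 1] ++ w ++ t` (`sum_states_append` or
`states` of pieces without crossings), and by `thm_BrRun`, `thm_PairRun`, `thm_Vert` it is
`γ + d β` and `β + d γ`, where `R.pair = (γ, β)` (for the second: `cap 0 (cap 0 (β x + γ cup 0 (cap 0 x)))`,
`x = cup 1 (cup 0 init)`, as in `thm_PairRun`). `curves (mw false ++ t)`, `curves (mw true ++ t)` are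
`1, 2` and `2, 1` (`rfl` or `decide`). So `x + d y = γ + d β`, `d x + y = β + d γ`, and `d ^ 2 ≠ 1`. For
`t = [cross 0, cap 1, cap 0]` both numbers of curves are `1`. -/
def St_KbC : Prop := ∀ (w : List Slice) (R : Arb), Helper2.Ok w 2 2 → forget w = R.word →
  ((states w).map fun s => (T s.1 : LaurentPolynomial ℤ) * loopVal ^
      (curves ([.cup 0 true, .cup 1 true] ++ (s.2 ++ [.cross 0 true, .cap 1, .cap 0])) - 1)).sum =
    R.pair.1 + R.pair.2

end Pool.Agent.ARK
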